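import Pool.Agent.Lib.MP_16285c_agN.SpecN
import Pool.Agent.Lib.MP_16285c_ag.Desc

/-!
# The strong Zariski dense orbit conjecture for rational self-maps of affine space: final assembly
-/

set_option autoImplicit false

namespace Pool.Agent.Lib.MP_16285c_agN

open Pool.Agent.Lib.MP_16285c_ag

namespace FinNNM

theorem sig_fr {K : Type} [Field K] {n : ℕ} {f : RM K n} {σ : RF n K →ₐ[K] RF n K} (h : Of f σ)
    (G : Pl n K) : σ (fr G) = f.comp G := by
  have e : σ.comp (IsScalarTower.toAlgHom K (Pl n K) (RF n K)) = f.comp := by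
    apply MvPolynomial.algHom_ext
    intro i
    rw [RM.comp, MvPolynomial.aeval_X]
    have h1 : fr (f.den i) ≠ 0 := fr_ne_zero (h i).1
    exact eq_div_of_mul_eq h1 (h i).2
  exact congrArg (fun u : Pl n K →ₐ[K] RF n K => u G) e

/-- Descent of polynomials. -/
theorem desc_poly {K L : Type} [Field K] [Field L] [Algebra K L] {n : ℕ} (G : Pl n L)
    (h : ∀ m ∈ G.support, MvPolynomial.coeff m G ∈ Set.range (algebraMap K L)) :
    ∃ G₀ : Pl n K, MvPolynomial.map (algebraMap K L) G₀ = G := by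
  classical
  choose! u hu using h
  refine ⟨∑ m ∈ G.support, MvPolynomial.monomial m (u m), ?_⟩
  rw [map_sum]
  conv_rhs => rw [G.as_sum]
  refine Finset.sum_congr rfl fun m hm => ?_
  rw [MvPolynomial.map_monomial, hu m hm]

theorem desc_rm {K L : Type} [Field K] [Field L] [Algebra K L] {n : ℕ} (f : RM L n)
    (h : ∀ i, ∃ G₀ : Pl n K, MvPolynomial.map (algebraMap K L) G₀ = f.num i)
    (h' : ∀ i, ∃ G₀ : Pl n K, MvPolynomial.map (algebraMap K L) G₀ = f.den i) :
    ∃ f₀ : RM K n, f₀.map (algebraMap K L) = f := by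
  choose m hm using h
  choose d hd using h'
  refine ⟨⟨m, d⟩, ?_⟩
  rw [RM.map]
  cases f
  congr 1
  · funext i
    exact hm i
  · funext i
    exact hd i

theorem fg_closure {k : Type} [Field k] (S : Finset k) :
    ∃ S' : Finset (Subfield.closure (S : Set k)),
      Subfield.closure (S' : Set (Subfield.closure (S : Set k))) = ⊤ := by
  classical
  refine ⟨S.attach.image fun s => ⟨s.1, Subfield.subset_closure s.2⟩, ?_⟩
  rw [eq_top_iff]
  rintro ⟨x, hx⟩ -
  induction hx using Subfield.closure_induction with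
  | mem y hy =>
    apply Subfield.subset_closure
    rw [Finset.mem_coe, Finset.mem_image]
    exact ⟨⟨y, hy⟩, Finset.mem_attach _ _, rfl⟩
  | one => exact one_mem _
  | add y z hy hz ihy ihz => exact add_mem ihy ihz
  | neg y hy ih => exact neg_mem ih
  | inv y hy ih => exact inv_mem ih
  | mul y z hy hz ihy ihz => exact mul_mem ihy ihz

/-- A shift by a multiple of `p`. -/
theorem lies_add {k : Type} [Field k] (V : ValuationSubring k) (p : ℕ)
    (hp : CharP (IsLocalRing.ResidueField V) p) (x : k) (a : IsLocalRing.ResidueField V)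
    (h : Lies V x a) (q : ℕ) (hq : p ∣ q) (j : ℤ) : Lies V (x + (q : k) * (j : k)) a := by
  obtain ⟨h0, h1⟩ := h
  have hpV : (q : k) * (j : k) ∈ V := mul_mem (natCast_mem V q) (intCast_mem V j)
  refine ⟨add_mem h0 hpV, ?_⟩
  obtain ⟨r, rfl⟩ := hq
  have h2 : IsLocalRing.residue V (⟨((p * r : ℕ) : k) * (j : k), hpV⟩ : V) = 0 := by
    have h3 : (⟨((p * r : ℕ) : k) * (j : k), hpV⟩ : V) = (p : V) * (r : V) * (j : V) := by
      apply Subtype.ext
      push_cast
      ring
    rw [h3, map_mul, map_mul, map_natCast, CharP.cast_eq_zero (IsLocalRing.ResidueField V) p,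
      zero_mul, zero_mul]
  have h4 : (⟨x + ((p * r : ℕ) : k) * (j : k), add_mem h0 hpV⟩ : V) =
      ⟨x, h0⟩ + ⟨((p * r : ℕ) : k) * (j : k), hpV⟩ := rfl
  rw [h4, map_add, h1, h2, add_zero]

/-- The set of the coefficients. -/
noncomputable def cf {k : Type} [Field k] {n : ℕ} (G : Pl n k) : Finset k := by
  classical exact G.support.image fun m => MvPolynomial.coeff m G

theorem desc_cf {k : Type} [Field k] {n : ℕ} (S : Finset k) (G : Pl n k) (h : cf G ⊆ S) :
    ∃ G₀ : Pl n (Subfield.closure (S : Set k)),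
      MvPolynomial.map (algebraMap (Subfield.closure (S : Set k)) k) G₀ = G := by
  classical
  apply desc_poly
  intro m hm
  have h2 : MvPolynomial.coeff m G ∈ S := h (by
    unfold cf
    exact Finset.mem_image_of_mem _ hm)
  exact ⟨⟨_, Subfield.subset_closure h2⟩, rfl⟩

theorem eval_coe {K L : Type} [Field K] [Field L] [Algebra K L] {n : ℕ} (x : Fin n → K)
    (G : Pl n K) :
    MvPolynomial.eval (fun i => algebraMap K L (x i)) (MvPolynomial.map (algebraMap K L) G) =
      algebraMap K L (MvPolynomial.eval x G) := by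
  rw [MvPolynomial.eval_map]
  have e := MvPolynomial.eval₂_comp_left (algebraMap K L) (RingHom.id K) x G
  rw [RingHom.comp_id, MvPolynomial.eval₂_id] at e
  exact e.symm

end FinNNM

open FinNNM in
theorem tFinNN (hCore : StmtCoreN) (hHit : StmtHitPt) (hLift : StmtLiftC2) (hDesc : StmtDesc)
    (hTpGe : StmtTpGe) (hTp : StmtTpPow) (hJac : StmtJac) : StmtFinNN := by
  classical
  intro k _ _ _ n σ hn htp hno hNF f hOf b hb
  have hden : ∀ i, f.den i ≠ 0 := fun i => (hOf i).1
  have hjac : jac f ≠ 0 := hJac k n f σ hOf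
  have hinj : Function.Injective f.comp := by
    intro A B hAB
    rw [← sig_fr hOf, ← sig_fr hOf] at hAB
    exact fr_injective (σ.injective hAB)
  have hB : b * jac f ≠ 0 := mul_ne_zero hb hjac
  obtain ⟨V, p, a, N, hp, -, hch, hN, hr, hbox⟩ :=
    Pool.Agent.ZDO.box2 f hden hinj hjac _ hB 0
  obtain ⟨V', p', a', N', hp', hpp', hch', hN', hr', hbox'⟩ :=
    Pool.Agent.ZDO.box2 f hden hinj hjac _ hB p
  have hne : p ≠ p' := by omega
  have hM : 1 ≤ N * N' := Nat.mul_pos (by omega) (by omega)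
  obtain ⟨c, hcV, hcV'⟩ := hLift k n V V' p p' hp hp' hne hch hch' a a' hr hr'
  obtain ⟨S₁, hS₁⟩ := hTpGe k n σ ((hTp.2 k n σ).1 htp)
  -- the field of definition
  set S : Finset k := S₁ ∪ ((Finset.univ.biUnion fun i : Fin n =>
    cf (f.num i) ∪ cf (f.den i)) ∪ Finset.univ.image c) with hS
  set K : Subfield k := Subfield.closure (S : Set k) with hK
  have hSS : S₁ ⊆ S := fun s hs => by
    rw [hS, Finset.mem_union]
    exact Or.inl hs
  have hSnum : ∀ i, cf (f.num i) ⊆ S := fun i s hs => by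
    rw [hS, Finset.mem_union, Finset.mem_union]
    refine Or.inr (Or.inl ?_)
    exact Finset.mem_biUnion.2 ⟨i, Finset.mem_univ _, Finset.mem_union_left _ hs⟩
  have hSden : ∀ i, cf (f.den i) ⊆ S := fun i s hs => by
    rw [hS, Finset.mem_union, Finset.mem_union]
    refine Or.inr (Or.inl ?_)
    exact Finset.mem_biUnion.2 ⟨i, Finset.mem_univ _, Finset.mem_union_right _ hs⟩
  have hSc : ∀ i, c i ∈ S := fun i => by
    rw [hS, Finset.mem_union, Finset.mem_union]
    exact Or.inr (Or.inr (Finset.mem_image_of_mem _ (Finset.mem_univ _)))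
  obtain ⟨f₀, hf₀⟩ := desc_rm (K := K) f (fun i => desc_cf S _ (hSnum i))
    (fun i => desc_cf S _ (hSden i))
  set cK : Fin n → K := fun i => ⟨c i, Subfield.subset_closure (hSc i)⟩ with hcK
  obtain ⟨σ₀, hσ₀, hc₀⟩ := hDesc.1 K k n f₀ σ (by rw [hf₀]; exact hOf)
  have hno₀ : NoI σ₀ := hDesc.2 K k n σ₀ σ hc₀ hno
  have htp₀ : tp σ₀ = tp σ :=
    hS₁ K σ₀ (fun s hs => ⟨⟨s, Subfield.subset_closure (hSS hs)⟩, rfl⟩) hc₀
  obtain ⟨H, G, hHm, hHi, hG, hcore⟩ := hCore K n f₀ σ₀ hn hσ₀ (by rw [htp₀]; exact htp) hno₀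
    (N * N') hM (hNF (N * N') hM K σ₀ hc₀ htp₀)
  obtain ⟨j, hj1, hj2⟩ := hHit K (fg_closure S) n H G hHm hHi hG cK (p * p')
    (Nat.mul_pos hp.pos hp'.pos)
  set t : Fin n → K := fun i => cK i + ((p * p' : ℕ) : K) * (j i : K) with ht
  set x₀ : Fin n → k := fun i => algebraMap K k (t i) with hx₀
  have htki : ∀ i, x₀ i = c i + ((p * p' : ℕ) : k) * ((j i : ℤ) : k) := by
    intro i
    rw [hx₀, ht]
    simp only [map_add, map_mul, map_natCast, map_intCast]
    rfl
  have hLV : ∀ i : Fin n, Lies V (x₀ i) (a i) := fun i => by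
    rw [htki]
    exact lies_add V p hch _ _ (hcV i) _ (dvd_mul_right _ _) _
  have hLV' : ∀ i : Fin n, Lies V' (x₀ i) (a' i) := fun i => by
    rw [htki]
    exact lies_add V' p' hch' _ _ (hcV' i) _ (dvd_mul_left _ _) _
  obtain ⟨x, hx0, hxo, hxB, hxCl⟩ := hbox x₀ hLV
  obtain ⟨x', hx0', hxo', -, hxCl'⟩ := hbox' x₀ hLV'
  have hxx : x = x' := f.orb_unique x x' hxo hxo' (hx0.trans hx0'.symm)
  rw [← hxx] at hxCl'
  -- the orbit is defined over `K`
  have hmem : ∀ m i, x m i ∈ K := by
    intro m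
    induction m with
    | zero =>
      intro i
      rw [hx0]
      exact (t i).2
    | succ m ih =>
      intro i
      obtain ⟨hd, he⟩ := hxo m i
      set w : Fin n → K := fun i => ⟨x m i, ih i⟩ with hw
      have hxw : x m = fun i => algebraMap K k (w i) := rfl
      have e1 : MvPolynomial.eval (x m) (f.den i) =
          algebraMap K k (MvPolynomial.eval w (f₀.den i)) := by
        rw [hxw, ← eval_coe, ← hf₀]
        rfl
      have e2 : MvPolynomial.eval (x m) (f.num i) =
          algebraMap K k (MvPolynomial.eval w (f₀.num i)) := by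
        rw [hxw, ← eval_coe, ← hf₀]
        rfl
      rw [eq_div_of_mul_eq hd he, e1, e2]
      exact div_mem (SetLike.coe_mem _) (SetLike.coe_mem _)
  set xK : ℕ → Fin n → K := fun m i => ⟨x m i, hmem m i⟩ with hxK
  have hxxK : ∀ m, x m = fun i => algebraMap K k (xK m i) := fun m => rfl
  have horbK : f₀.Orb xK := by
    intro m i
    obtain ⟨hd, he⟩ := hxo m i
    have e1 : MvPolynomial.eval (x m) (f.den i) =
        algebraMap K k (MvPolynomial.eval (xK m) (f₀.den i)) := by
      rw [hxxK, ← eval_coe, ← hf₀]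
      rfl
    have e2 : MvPolynomial.eval (x m) (f.num i) =
        algebraMap K k (MvPolynomial.eval (xK m) (f₀.num i)) := by
      rw [hxxK, ← eval_coe, ← hf₀]
      rfl
    rw [e1] at hd he
    rw [e2] at he
    refine ⟨fun h0 => hd (by rw [h0, map_zero]), ?_⟩
    apply (algebraMap K k).injective
    rw [map_mul]
    exact he
  have hxK0 : xK 0 = t := by
    funext i
    apply Subtype.ext
    change x 0 i = _
    rw [hx0]
    rfl
  have hClK : ∀ (N p : ℕ), Pool.Agent.ZDO.ClN N p x → Pool.Agent.ZDO.ClN N p xK := by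
    intro N p h G i hi
    obtain ⟨J, hJ⟩ := h (MvPolynomial.map (algebraMap K k) G) i (by
      rw [hxxK, eval_coe]
      exact fun h0 => hi ((map_eq_zero_iff _ (algebraMap K k).injective).1 h0))
    refine ⟨J, fun s h0 => hJ s ?_⟩
    rw [hxxK, eval_coe, h0, map_zero]
  have hjm : MvPolynomial.map (algebraMap K k) (jac f₀) = jac f := by
    rw [← hf₀]
    exact (Pool.Agent.ZDO.map_Jc f₀ (algebraMap K k)).symm
  have hvan := hcore N N' p p' hp hp' hne rfl xK horbK (fun m h0 => by
    apply hxB m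
    rw [map_mul, ← hjm, hxxK m, eval_coe, h0, map_zero, mul_zero]) (hClK _ _ hxCl)
    (hClK _ _ hxCl') (by rw [hxK0]; exact hj1) (by rw [hxK0]; exact hj2)
  refine ⟨x, hxo, fun m h0 => hxB m (by rw [map_mul, h0, zero_mul]), ?_⟩
  suffices hd : Dns xK from descP k K n xK hd
  intro G' hG'
  by_contra hcon
  push Not at hcon
  apply hG'
  have h5 : G' ∈ van xK (N * N') := (mem_van _ _ _).2 fun s => hcon _
  rw [hvan] at h5
  exact (Submodule.mem_bot _).1 h5

end Pool.Agent.Lib.MP_16285c_agN
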