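import Pool.Agent.Lib.MP_16285c_agN.SpecN
import Pool.Agent.Lib.MP_16285c_agN.KLV.All
import Pool.Agent.Lib.MP_16285c_agZ.LiftC2
import Pool.Agent.ZDO.Jac

/-!
# The interfaces used by the core and the final assembly
-/

set_option autoImplicit false

namespace Pool.Agent.Lib.MP_16285c_agN

open Pool.Agent.Lib.MP_16285c_ag

theorem iNoIPow : StmtNoIPow := fun K _ n σ M hM h => tNoIPow n K σ M hM h

theorem iTpPow : StmtTpPow :=
  ⟨fun K _ n σ m => tTpPow.2.1 n K σ m, fun K _ n σ => tTpPow.2.2 n K σ⟩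

theorem iVal : StmtVal := by
  refine ⟨?_, ?_⟩
  · intro K _ n f σ z hOf horb m j
    exact tVal.2.1 n K σ z (tVal.2.2.2.1 n K f σ z hOf horb) m j
  · intro K _ n ρ x x' H E N h1 h2
    exact tVal.2.2.2.2.2 n K ρ x x' H E N h1 h2

theorem iRepE : StmtRepE := by
  refine ⟨?_, ?_⟩
  · intro K _ n g
    obtain ⟨F, h1, h2, -⟩ := tRep.1 n K g
    exact ⟨F, h1, h2⟩
  · intro K _ n ρ
    choose N D hD h using fun i => exists_fr (ρ (gen n K i))
    refine ⟨⟨N, D⟩, fun i => ⟨hD i, ?_⟩⟩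
    rw [h i, div_mul_cancel₀ _ (fr_ne_zero (hD i))]

theorem iJac : StmtJac := by
  intro K _ _ n f σ h
  exact Pool.Agent.ZDO.jac_ne_zero f σ h

theorem iDesc : StmtDesc :=
  ⟨fun K L _ _ _ n f σL h => tDesc.1 n K L f σL h,
    fun K L _ _ _ n σK σL h h' => tDesc.2.1 n K L σK σL h h'⟩

theorem iTpGe : StmtTpGe := by
  intro L _ n σL h
  obtain ⟨S, hS⟩ := cTpGe n L σL h
  exact ⟨S, fun K _ _ σK h1 h2 => (hS K σK h1 h2).2⟩

theorem iDgMul : StmtDgMul := fun K _ n σ a b => cDgMul.2.1 n K σ a b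

theorem iDgLe : ∀ (K : Type) [Field K] (n : ℕ) (g : Fin n → RF n K) (F : Fin (n + 1) → Pl n K)
    (D : ℕ), Wk g F → (∀ i, (F i).totalDegree ≤ D) → dg g ≤ D :=
  fun K _ n g F D h1 h2 => tRep.2.1 n K g F D h1 h2

theorem iLiftC2 : StmtLiftC2 := by
  intro k _ _ _ n V V' p p' hp hp' hne hc hc' a a' hr hr'
  obtain ⟨r, hr1, hr⟩ := hr
  obtain ⟨r', hr1', hr'⟩ := hr'
  have hcop : IsCoprime (p : ℤ) (p' : ℤ) :=
    Nat.isCoprime_iff_coprime.2 ((Nat.coprime_primes hp hp').2 hne)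
  obtain ⟨u, u', huu⟩ := hcop
  choose α hα1 hα2 using fun i => MP_16285c_agZ.LiftC2M.lift1 V (p ^ r)
    (MP_16285c_agZ.LiftC2M.two_le_pow hp hr1) (a i) (hr i)
  choose β hβ1 hβ2 using fun i => MP_16285c_agZ.LiftC2M.lift1 V' (p' ^ r')
    (MP_16285c_agZ.LiftC2M.two_le_pow hp' hr1') (a' i) (hr' i)
  refine ⟨fun i => (u' : k) * p' * α i + (u : k) * p * β i, ?_, ?_⟩
  · intro i
    exact MP_16285c_agZ.LiftCM.lift2 V p p' u u' huu hc (a i) (α i) (β i) (hα2 i) (hβ1 i)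
  · intro i
    have h := MP_16285c_agZ.LiftCM.lift2 V' p' p u' u (by rw [add_comm]; exact huu) hc' (a' i) (β i)
      (α i) (hβ2 i) (hα1 i)
    rw [add_comm] at h
    exact h

end Pool.Agent.Lib.MP_16285c_agN
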