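import Pool.Agent.Lib.MP_16285c_agN.SpecF

/-!
# MP_16285c: the topological degree is positive
-/

set_option autoImplicit false

namespace Pool.Agent.Lib.MP_16285c_agN.TpPosM

open Pool.Agent.Lib.MP_16285c_agN
open scoped IntermediateField.algebraAdjoinAdjoin

variable {K : Type} [Field K] {n : ℕ}

/-- The coordinate functions are algebraically independent. -/
theorem algInd_gen : AlgebraicIndependent K (gen n K) := by
  have h := MvPolynomial.algebraicIndependent_X (Fin n) K
  have h2 := h.map' (f := IsScalarTower.toAlgHom K (MvPolynomial (Fin n) K) (RF n K))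
    (IsFractionRing.injective (MvPolynomial (Fin n) K) (RF n K))
  exact h2

/-- A polynomial belongs to a subfield containing the coordinates. -/
theorem fr_mem (L : IntermediateField K (RF n K)) (h : ∀ i, gen n K i ∈ L) (G : Pl n K) :
    fr G ∈ L := by
  induction G using MvPolynomial.induction_on with
  | C a =>
    have : fr (MvPolynomial.C a : Pl n K) = algebraMap K (RF n K) a := by
      rw [IsScalarTower.algebraMap_apply K (MvPolynomial (Fin n) K) (RF n K)]
      rfl
    rw [this]
    exact L.algebraMap_mem a
  | add p q hp hq =>
    rw [fr, map_add]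
    exact L.add_mem hp hq
  | mul_X p i hp =>
    rw [fr, map_mul]
    exact L.mul_mem hp (h i)

theorem eq_top_of_gen_mem (L : IntermediateField K (RF n K)) (h : ∀ i, gen n K i ∈ L) :
    L = ⊤ := by
  rw [eq_top_iff]
  rintro z -
  obtain ⟨a, b, hb, rfl⟩ := IsFractionRing.div_surjective (A := MvPolynomial (Fin n) K) z
  exact L.div_mem (fr_mem L h a) (fr_mem L h b)

theorem adjoin_gen : IntermediateField.adjoin K (Set.range (gen n K)) = ⊤ :=
  eq_top_of_gen_mem _ fun i => IntermediateField.subset_adjoin K _ ⟨i, rfl⟩

/-- `E / K(S)` algebraic implies `E` algebraic over the algebra generated by `S`. -/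
theorem alg_of_adjoin (S : Set (RF n K))
    (h : Algebra.IsAlgebraic (IntermediateField.adjoin K S) (RF n K)) :
    Algebra.IsAlgebraic (Algebra.adjoin K S) (RF n K) :=
  Algebra.IsAlgebraic.trans (Algebra.adjoin K S) (IntermediateField.adjoin K S) (RF n K)

/-- `n` algebraically independent elements: the field is algebraic over the subfield they
generate. -/
theorem alg_fam (r : Fin n → RF n K) (h : AlgebraicIndependent K r) :
    Algebra.IsAlgebraic (IntermediateField.adjoin K (Set.range r)) (RF n K) := by
  have alg : Algebra.IsAlgebraic (Algebra.adjoin K (Set.range (gen n K))) (RF n K) := by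
    apply alg_of_adjoin
    rw [adjoin_gen]
    constructor
    intro x
    exact isAlgebraic_algebraMap
      (⟨x, IntermediateField.mem_top⟩ : (⊤ : IntermediateField K (RF n K)))
  have hb : IsTranscendenceBasis K (gen n K) :=
    isTranscendenceBasis_iff_algebraicIndependent_isAlgebraic.2 ⟨algInd_gen, alg⟩
  have htr : Algebra.trdeg K (RF n K) = n := by
    rw [← hb.cardinalMk_eq_trdeg]
    simp
  have hr : IsTranscendenceBasis K r := by
    apply h.isTranscendenceBasis_of_trdeg_le_of_finite
    rw [htr]
    simp
  exact hr.isAlgebraic_field

/-- The field is finite over a subfield over which it is algebraic. -/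
theorem finite_of_alg (L : IntermediateField K (RF n K)) (halg : Algebra.IsAlgebraic L (RF n K)) :
    FiniteDimensional L (RF n K) := by
  have h1 : IntermediateField.adjoin L (Set.range (gen n K)) = ⊤ := by
    have : (IntermediateField.adjoin L (Set.range (gen n K))).restrictScalars K = ⊤ := by
      apply eq_top_of_gen_mem
      intro i
      exact IntermediateField.subset_adjoin L _ ⟨i, rfl⟩
    exact IntermediateField.restrictScalars_eq_top_iff.1 this
  have h2 : FiniteDimensional L (IntermediateField.adjoin L (Set.range (gen n K))) := by
    apply IntermediateField.finiteDimensional_adjoin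
    intro x _
    exact (halg.isAlgebraic x).isIntegral
  rw [h1] at h2
  exact IntermediateField.topEquiv.toLinearEquiv.finiteDimensional

/-- The image of the coordinates generates the image of the field. -/
theorem adjoin_image (σ : RF n K →ₐ[K] RF n K) :
    IntermediateField.adjoin K (Set.range fun i => σ (gen n K i)) = σ.fieldRange := by
  have h : (Set.range fun i => σ (gen n K i)) = σ '' Set.range (gen n K) := by
    rw [← Set.range_comp]
    rfl
  rw [h, ← IntermediateField.adjoin_map, adjoin_gen, ← AlgHom.fieldRange_eq_map]

theorem finite_range (σ : RF n K →ₐ[K] RF n K) : FiniteDimensional σ.fieldRange (RF n K) := by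
  have h := alg_fam (fun i => σ (gen n K i)) (algInd_gen.map' (f := σ) σ.toRingHom.injective)
  rw [adjoin_image] at h
  exact finite_of_alg _ h

end Pool.Agent.Lib.MP_16285c_agN.TpPosM

namespace Pool.Agent.Lib.MP_16285c_agN

theorem tTpPos : StmtTpPos := by
  intro K _ n σ
  have h := TpPosM.finite_range σ
  exact Module.finrank_pos

end Pool.Agent.Lib.MP_16285c_agN
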