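import Pool.Agent.Lib.MP_16285c_agN.SpecF
import Mathlib.Analysis.Subadditive

/-!
# `StmtReal`: the growth estimate for the degrees
-/

set_option autoImplicit false

namespace Pool.Agent.Lib.MP_16285c_agN

namespace RealM

open Filter Topology

theorem subadd {d : ℕ → ℕ} (hd : ∀ a b, d (a + b) ≤ d a * d b) (h1 : ∀ m, 1 ≤ d m) :
    Subadditive (fun m => Real.log (d m : ℝ)) := by
  intro a b
  have ha : (0 : ℝ) < d a := by exact_mod_cast h1 a
  have hb : (0 : ℝ) < d b := by exact_mod_cast h1 b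
  have hab : (0 : ℝ) < d (a + b) := by exact_mod_cast h1 (a + b)
  have h : (d (a + b) : ℝ) ≤ d a * d b := by exact_mod_cast hd a b
  calc Real.log (d (a + b) : ℝ) ≤ Real.log ((d a : ℝ) * d b) := Real.log_le_log hab h
    _ = Real.log (d a : ℝ) + Real.log (d b : ℝ) := Real.log_mul ha.ne' hb.ne'

theorem bdd {d : ℕ → ℕ} (h1 : ∀ m, 1 ≤ d m) :
    BddBelow (Set.range fun m : ℕ => Real.log (d m : ℝ) / m) := by
  refine ⟨0, ?_⟩
  rintro _ ⟨m, rfl⟩
  have h : (1 : ℝ) ≤ d m := by exact_mod_cast h1 m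
  exact div_nonneg (Real.log_nonneg h) (Nat.cast_nonneg m)

theorem tends {d : ℕ → ℕ} (hd : ∀ a b, d (a + b) ≤ d a * d b) (h1 : ∀ m, 1 ≤ d m) :
    ∃ L : ℝ, 0 ≤ L ∧ Tendsto (fun m : ℕ => Real.log (d m : ℝ) / m) atTop (𝓝 L) ∧
      limsup (fun m : ℕ => (d m : ℝ) ^ ((m : ℝ)⁻¹)) atTop = Real.exp L := by
  have hs := subadd hd h1
  have ht := hs.tendsto_lim (bdd h1)
  refine ⟨hs.lim, ?_, ht, ?_⟩
  · refine ge_of_tendsto' ht fun m => ?_
    have h : (1 : ℝ) ≤ d m := by exact_mod_cast h1 m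
    exact div_nonneg (Real.log_nonneg h) (Nat.cast_nonneg m)
  · have he : (fun m : ℕ => (d m : ℝ) ^ ((m : ℝ)⁻¹)) =
        fun m : ℕ => Real.exp (Real.log (d m : ℝ) / m) := by
      funext m
      have h : (0 : ℝ) < d m := by exact_mod_cast h1 m
      rw [Real.rpow_def_of_pos h, div_eq_mul_inv]
    rw [he]
    exact ((Real.continuous_exp.tendsto _).comp ht).limsup_eq

end RealM

open Filter Topology RealM in
theorem tReal : StmtReal := by
  intro d τ n hd h1 hlim r M C hr hrn hM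
  obtain ⟨L, hL, ht, hl⟩ := tends hd h1
  rw [hl, ← Real.exp_nat_mul] at hlim
  have hτ : (0 : ℝ) < τ := (Real.exp_pos _).trans hlim
  have hlog : ((n - 2 : ℕ) : ℝ) * L < Real.log τ := by
    rw [← Real.exp_lt_exp, Real.exp_log hτ]
    exact hlim
  have hrL : (r : ℝ) * L < Real.log τ := by
    refine lt_of_le_of_lt (mul_le_mul_of_nonneg_right ?_ hL) hlog
    have : r ≤ n - 2 := by omega
    exact_mod_cast this
  rcases Nat.eq_zero_or_pos C with hC | hC
  · refine ⟨0, ?_⟩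
    rw [hC, zero_mul]
    have : 0 < τ := by exact_mod_cast hτ
    exact pow_pos this _
  have hC' : (0 : ℝ) < C := by exact_mod_cast hC
  -- the sequence `M m`
  have hMm : Tendsto (fun m : ℕ => M * m) atTop atTop :=
    tendsto_id.const_mul_atTop' hM
  have ht1 : Tendsto (fun m : ℕ => Real.log (d (M * m) : ℝ) / ((M * m : ℕ) : ℝ)) atTop (𝓝 L) :=
    ht.comp hMm
  have ht2 : Tendsto (fun m : ℕ => (Real.log C + r * Real.log 2) / ((M * m : ℕ) : ℝ)) atTop
      (𝓝 0) :=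
    Tendsto.div_atTop tendsto_const_nhds (tendsto_natCast_atTop_atTop.comp hMm)
  have ht3 : Tendsto (fun m : ℕ => (Real.log C + r * Real.log 2) / ((M * m : ℕ) : ℝ) +
      r * (Real.log (d (M * m) : ℝ) / ((M * m : ℕ) : ℝ))) atTop (𝓝 (0 + r * L)) :=
    ht2.add (ht1.const_mul _)
  rw [zero_add] at ht3
  obtain ⟨m, hm, hm1⟩ := ((ht3.eventually_lt_const hrL).and (eventually_ge_atTop 1)).exists
  refine ⟨m, ?_⟩
  have hMm0 : (0 : ℝ) < ((M * m : ℕ) : ℝ) := by
    have : 0 < M * m := Nat.mul_pos hM hm1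
    exact_mod_cast this
  have hdp : (0 : ℝ) < d (M * m) := by exact_mod_cast h1 (M * m)
  have hd1 : (1 : ℝ) ≤ d (M * m) := by exact_mod_cast h1 (M * m)
  have h2 : Real.log C + r * Real.log 2 + r * Real.log (d (M * m) : ℝ) <
      ((M * m : ℕ) : ℝ) * Real.log τ := by
    have h3 : (Real.log C + r * Real.log 2) / ((M * m : ℕ) : ℝ) +
        r * (Real.log (d (M * m) : ℝ) / ((M * m : ℕ) : ℝ)) =
        (Real.log C + r * Real.log 2 + r * Real.log (d (M * m) : ℝ)) / ((M * m : ℕ) : ℝ) := by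
      field_simp
    rw [h3, div_lt_iff₀ hMm0] at hm
    linarith
  have h4 : (C : ℝ) * ((d (M * m) : ℝ) + 1) ^ r < (τ : ℝ) ^ (M * m) := by
    have h5 : (C : ℝ) * ((d (M * m) : ℝ) + 1) ^ r ≤ C * (2 * (d (M * m) : ℝ)) ^ r := by
      refine mul_le_mul_of_nonneg_left (pow_le_pow_left₀ (by linarith) (by linarith) _) hC'.le
    refine lt_of_le_of_lt h5 ?_
    rw [← Real.log_lt_log_iff (by positivity) (by positivity), Real.log_pow,
      Real.log_mul hC'.ne' (by positivity), Real.log_pow, Real.log_mul two_ne_zero hdp.ne']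
    linarith
  exact_mod_cast h4

end Pool.Agent.Lib.MP_16285c_agN
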