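import Pool.Agent.Lib.MP_16285c_agN.SpecN

/-!
# The strong Zariski dense orbit conjecture for rational self-maps of affine space: the core argument
-/

set_option autoImplicit false

namespace Pool.Agent.Lib.MP_16285c_agN

open Pool.Agent.Lib.MP_16285c_ag

namespace CoreNM

/-- The ideal of the points `z (N N' t)` is prime. -/
theorem van_isPrime {K : Type} [Field K] {n : ℕ} (z : ℕ → Fin n → K) (N N' p p' : ℕ)
    (hp : p.Prime) (hp' : p'.Prime) (hne : p ≠ p') (h : Pool.Agent.ZDO.ClN N p z)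
    (h' : Pool.Agent.ZDO.ClN N' p' z) : (van z (N * N')).IsPrime := by
  constructor
  · rw [Ideal.ne_top_iff_one]
    intro h1
    have := (mem_van z (N * N') 1).1 h1 0
    rw [map_one] at this
    exact one_ne_zero this
  · intro G H hGH
    exact Pool.Agent.ZDO.prime_of_cl N N' p p' hp hp' hne z h h' G H hGH

/-- The iterates of a power. -/
theorem it_pow {K : Type} [Field K] {n : ℕ} (σ : RF n K →ₐ[K] RF n K) (M m : ℕ) :
    it (σ ^ M) m = it σ (M * m) := by
  funext i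
  unfold it
  rw [pow_mul]

/-- The case of a hypersurface. -/
theorem hyp {K : Type} [Field K] [CharZero K] {n : ℕ} (hDegP : StmtDegP) (g : RM K n)
    (ρ : RF n K →ₐ[K] RF n K) (hg : Of g ρ) (hT : 1 ≤ tp ρ) (P : Pl n K) (hP : Irreducible P)
    (𝔮 : Ideal (Pl n K)) [𝔮.IsPrime] (h𝔮 : 𝔮 = Ideal.span {P}) (hPr : Pres ρ 𝔮)
    (ρb : FractionRing (CR 𝔮) →ₐ[K] FractionRing (CR 𝔮))
    (hρb : Rst ρ 𝔮 (FractionRing (CR 𝔮)) ρb)
    (hle : tp ρ ≤ Module.finrank ρb.fieldRange (FractionRing (CR 𝔮))) :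
    ∃ a b : Pl n K, a ≠ 0 ∧ b ≠ 0 ∧ fr b * ρ (fr P) = fr a * fr P ∧
      ∀ Q : Pl n K, Irreducible Q → (Q ∣ a ∨ Q ∣ b) → Q ∣ dn g * jac g := by
  subst h𝔮
  exact (hDegP n K g ρ hg hT P hP hPr (FractionRing (CR (Ideal.span {P}))) ρb hρb).2.2 hle

end CoreNM

open Pool.Agent.Lib.MP_16285c_agN.CoreNM in
theorem tCoreN (hr2 : StmtRk2) (hr3 : StmtRk3) (hTan : StmtTan) (hIrr : StmtIrr) (hRes : StmtResF)
    (hDegP : StmtDegP) (hCan : StmtCan) (hNo : StmtNoIPow) (hTp : StmtTpPow) (hVal : StmtVal)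
    (hRep : StmtRepE) (hPres : StmtPres) (hMove : StmtMove) (hPrim : StmtPrim) (hLow : StmtLow)
    (h1 : StmtG1) (hJac : StmtJac) : StmtCoreN := by
  intro K _ _ n f σ hn hOf htp hnoi M hM hBig
  have htpM : tp (σ ^ M) = tp σ ^ M := hTp.1 K n σ M
  have hT : 1 ≤ tp (σ ^ M) := by
    rw [htpM]
    exact Nat.one_le_pow _ _ htp
  have hnoiM : NoI (σ ^ M) := hNo K n σ M hM hnoi
  obtain ⟨g, hg⟩ := hRep.2 K n (σ ^ M)
  obtain ⟨F, u, v, hFm, hFd, hFi, hv, hFe⟩ := hPrim K n (σ ^ M) hT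
  obtain ⟨G₁, hG₁, hG₁m⟩ := hMove K n (σ ^ M) hn hnoiM
  have hB : dn g * jac g ≠ 0 := by
    refine mul_ne_zero ?_ (hJac K n g (σ ^ M) hg)
    unfold dn
    exact Finset.prod_ne_zero_iff.2 fun i _ => (hg i).1
  obtain ⟨Γ, hΓ0, hΓ⟩ := hCan n K (σ ^ M) hnoiM (dn g * jac g) hB
  refine ⟨F, v * G₁ * Γ, hFm, hFi, mul_ne_zero (mul_ne_zero hv hG₁) hΓ0, ?_⟩
  intro N N' p p' hp hp' hne hNN z horb hjz hcl hcl' hirr hGz
  subst hNN
  by_contra hbot
  rw [map_mul, map_mul] at hGz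
  have hΓz : MvPolynomial.eval (z 0) Γ ≠ 0 := right_ne_zero_of_mul hGz
  have hvz : MvPolynomial.eval (z 0) v ≠ 0 := left_ne_zero_of_mul (left_ne_zero_of_mul hGz)
  have hG₁z : MvPolynomial.eval (z 0) G₁ ≠ 0 := right_ne_zero_of_mul (left_ne_zero_of_mul hGz)
  have hprime : (van z (N * N')).IsPrime := van_isPrime z N N' p p' hp hp' hne hcl hcl'
  have hval : ∀ t, Val (σ ^ (N * N')) (z (N * N' * t)) (z (N * N' * (t + 1))) := fun t => by
    have := hVal.1 K n f σ z hOf horb (N * N') (N * N' * t)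
    rwa [show N * N' * t + N * N' = N * N' * (t + 1) by ring] at this
  have hPr : Pres (σ ^ (N * N')) (van z (N * N')) :=
    hPres K n (σ ^ (N * N')) z N N' p p' hp hp' hne hcl hcl' hval
  have hz0 : ∀ G ∈ van z (N * N'), MvPolynomial.eval (z 0) G = 0 := fun G hG => by
    have := (mem_van z (N * N') G).1 hG 0
    rwa [mul_zero] at this
  have : IsDomain (CR (van z (N * N'))) := Ideal.Quotient.isDomain _
  obtain ⟨ρb, hρb⟩ := hRes n K (σ ^ (N * N')) (van z (N * N')) hprime hPr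
    (FractionRing (CR (van z (N * N'))))
  have hGrd : Grd (van z (N * N')) (z 0) (n - rk (van z (N * N'))) :=
    hTan K n f z (N * N') horb hjz
  have hirrL := hIrr K n (van z (N * N')) (z 0) hz0 hGrd (FractionRing (CR (van z (N * N')))) F hFm
    hirr
  have hvp : v ∉ van z (N * N') := fun h => hvz (hz0 v h)
  have hfin := h1.1 K n (van z (N * N')) (FractionRing (CR (van z (N * N')))) ρb
  have hTle : tp (σ ^ (N * N')) ≤
      Module.finrank ρb.fieldRange (FractionRing (CR (van z (N * N')))) := by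
    rw [← hFd]
    exact hLow K n (σ ^ (N * N')) (van z (N * N')) (FractionRing (CR (van z (N * N')))) ρb hρb hfin
      F u v hFm hvp hirrL hFe
  have hrk0 : rk (van z (N * N')) ≠ 0 := by
    intro h0
    have hall := hr3.1 K n (van z (N * N')) (z 0) hz0 h0
    have hv0 := hval 0
    rw [mul_zero] at hv0
    refine hG₁m (z 0) (z (N * N' * (0 + 1))) hv0 hG₁z ?_
    funext i
    have hm := hall (MvPolynomial.X i - MvPolynomial.C (z 0 i))
      (by rw [map_sub, MvPolynomial.eval_X, MvPolynomial.eval_C, sub_self])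
    have := (mem_van z (N * N') _).1 hm (0 + 1)
    rw [map_sub, MvPolynomial.eval_X, MvPolynomial.eval_C] at this
    exact sub_eq_zero.1 this
  have hrkn : rk (van z (N * N')) < n := by
    have := hr2.2.2.2 K n ⊥ (van z (N * N')) (bot_lt_iff_ne_bot.2 hbot)
    rwa [hr2.1 K n] at this
  by_cases h2 : rk (van z (N * N')) + 2 ≤ n
  · have e1 := hBig (van z (N * N')) hPr (by omega) h2 (FractionRing (CR (van z (N * N')))) ρb hρb
    rw [htpM] at hTle
    omega
  · obtain ⟨P, hP, hPe⟩ := hr3.2.1 K n (van z (N * N')) (by omega)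
    obtain ⟨a, b, ha, hb, hab, hQ⟩ := hyp hDegP g (σ ^ (N * N')) hg hT P hP (van z (N * N')) hPe hPr
      ρb hρb hTle
    obtain ⟨e, he⟩ := hΓ P a b hP ha hb hab hQ
    apply hΓz
    have hPm : P ∈ van z (N * N') := by
      rw [hPe]
      exact Ideal.mem_span_singleton_self P
    rw [he, map_mul, hz0 P hPm, zero_mul]

end Pool.Agent.Lib.MP_16285c_agN
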