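import Pool.Agent.Lib.MP_16285c_agN.SpecG

/-!
# Growth of the powers of the residue degree (G5)
-/

set_option autoImplicit false

namespace Pool.Agent.Lib.MP_16285c_agN

open Pool.Agent.Lib.MP_16285c_ag

namespace G5M

theorem pres_pow {n : ℕ} {K : Type} [Field K] (ρ : RF n K →ₐ[K] RF n K) (𝔭 : Ideal (Pl n K))
    [h𝔭 : 𝔭.IsPrime] (h : Pres ρ 𝔭) : ∀ m : ℕ, Pres (ρ ^ m) 𝔭 := by
  intro m
  induction m with
  | zero =>
    intro H
    refine ⟨1, H, fun h1 => h𝔭.ne_top ((Ideal.eq_top_iff_one 𝔭).2 h1), ?_, Iff.rfl⟩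
    have e0 : fr (1 : Pl n K) = 1 := map_one _
    rw [pow_zero, AlgHom.one_apply, e0, one_mul]
  | succ m ih =>
    intro H
    obtain ⟨E, N, hE, hN, hHN⟩ := h H
    obtain ⟨E', N', hE', hN', hNN'⟩ := ih N
    obtain ⟨E'', N'', hE'', hN'', hEN''⟩ := ih E
    have hN''p : N'' ∉ 𝔭 := fun hc => hE (hEN''.2 hc)
    refine ⟨E' * N'', N' * E'', fun hc => ?_, ?_, ?_⟩
    · rcases h𝔭.mem_or_mem hc with hc | hc
      · exact hE' hc
      · exact hN''p hc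
    · rw [pow_succ, AlgHom.mul_apply]
      have e1 : fr (N' * E'') = fr N' * fr E'' := map_mul _ _ _
      have e2 : fr (E' * N'') = fr E' * fr N'' := map_mul _ _ _
      rw [e1, e2, hN', hN'', hN, map_mul]
      ring
    · rw [hHN, hNN']
      refine ⟨fun hc => 𝔭.mul_mem_right _ hc, fun hc => ?_⟩
      rcases h𝔭.mem_or_mem hc with hc | hc
      · exact hc
      · exact absurd hc hE''

end G5M

theorem tG5 (h1 : StmtG1) (h3 : StmtG3) (h4 : StmtG4) (hr : StmtRepE) : StmtG5 := by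
  intro K _ n ρ 𝔭 _ hP L _ _ _ _ _ ρb hR
  obtain ⟨C, hC⟩ := h4 K n 𝔭 L
  refine ⟨C, fun m => ?_⟩
  obtain ⟨F, hF, hFd⟩ := hr.1 K n (it ρ m)
  have hF0 : F 0 ∉ 𝔭 := h3 K n (ρ ^ m) 𝔭 (G5M.pres_pow ρ 𝔭 hP m) F hF
  have h5 := hC (ρ ^ m) (ρb ^ m) (h1.2.2 K n ρ 𝔭 L ρb hR m) F (dg (it ρ m) + 1)
    (Nat.le_add_left 1 _) hF.toWk hF0 (fun i => (hFd i).trans (Nat.le_succ _))
  rw [h1.2.1 K L ρb m] at h5
  exact h5

end Pool.Agent.Lib.MP_16285c_agN
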