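import Pool.Agent.Lib.MP_16285c_agN.SpecG

/-!
# (G1) Endomorphisms of finitely generated fields are finite
-/

set_option autoImplicit false

namespace Pool.Agent.Lib.MP_16285c_agN

open Pool.Agent.Lib.MP_16285c_ag

namespace G1M

/-- An endomorphism of a finitely generated field extension is finite. -/
theorem fin_range (K L : Type) [Field K] [Field L] [Algebra K L] [Algebra.EssFiniteType K L]
    (φ : L →ₐ[K] L) : Module.Finite φ.fieldRange L := by
  have e : L ≃ₐ[K] φ.fieldRange := φ.equivFieldRange
  have h1 : Algebra.trdeg K φ.fieldRange = Algebra.trdeg K L := e.symm.trdeg_eq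
  have h2 : Algebra.trdeg K φ.fieldRange + Algebra.trdeg φ.fieldRange L = Algebra.trdeg K L :=
    trdeg_add_eq K φ.fieldRange
  have h3 : Algebra.trdeg K L < Cardinal.aleph0 := trdeg_lt_aleph0 K L
  have h4 : Algebra.trdeg φ.fieldRange L = 0 := by
    rw [h1] at h2
    exact Cardinal.eq_of_add_eq_add_left (h2.trans (add_zero _).symm) h3
  have h5 : Algebra.IsAlgebraic φ.fieldRange L := trdeg_eq_zero_iff.1 h4
  have h6 : Algebra.EssFiniteType φ.fieldRange L := Algebra.EssFiniteType.of_comp K φ.fieldRange L
  obtain ⟨t, ht⟩ := IntermediateField.fg_top φ.fieldRange L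
  have h7 : FiniteDimensional φ.fieldRange (IntermediateField.adjoin φ.fieldRange (t : Set L)) :=
    IntermediateField.finiteDimensional_adjoin fun x _ => Algebra.IsIntegral.isIntegral x
  rw [ht] at h7
  exact Module.Finite.equiv (IntermediateField.topEquiv (F := φ.fieldRange) (E := L)).toLinearEquiv

theorem finrank_mul (K L : Type) [Field K] [Field L] [Algebra K L] (σ ρ : L →ₐ[K] L) :
    Module.finrank (σ * ρ).fieldRange L =
      Module.finrank σ.fieldRange L * Module.finrank ρ.fieldRange L := by
  have hA : (σ * ρ).fieldRange = ρ.fieldRange.map σ := (AlgHom.map_fieldRange ρ σ).symm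
  have hB : σ.fieldRange = (⊤ : IntermediateField K L).map σ := AlgHom.fieldRange_eq_map σ
  have hle : ρ.fieldRange.map σ ≤ (⊤ : IntermediateField K L).map σ :=
    IntermediateField.map_mono σ le_top
  have h1 := IntermediateField.relfinrank_mul_finrank_top hle
  have h2 : IntermediateField.relfinrank (ρ.fieldRange.map σ) ((⊤ : IntermediateField K L).map σ) =
      Module.finrank ρ.fieldRange L := by
    rw [IntermediateField.relfinrank_map_map, IntermediateField.relfinrank_top_right]
  rw [hA, ← h1, h2, hB, mul_comm]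

theorem finrank_one (K L : Type) [Field K] [Field L] [Algebra K L] :
    Module.finrank (1 : L →ₐ[K] L).fieldRange L = 1 := by
  have h : (1 : L →ₐ[K] L).fieldRange = ⊤ := by
    rw [eq_top_iff]
    intro x _
    exact ⟨x, rfl⟩
  rw [h]
  exact IntermediateField.finrank_top

end G1M

theorem tG1 : StmtG1 := by
  refine ⟨?_, ?_, ?_⟩
  · intro K _ n 𝔭 _ L _ _ _ _ _ ρb
    have h1 : Algebra.EssFiniteType K (CR 𝔭) := inferInstance
    have h2 : Algebra.EssFiniteType (CR 𝔭) L :=
      Algebra.EssFiniteType.of_isLocalization L (nonZeroDivisors (CR 𝔭))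
    have h3 : Algebra.EssFiniteType K L := Algebra.EssFiniteType.comp K (CR 𝔭) L
    exact G1M.fin_range K L ρb
  · intro K _ L _ _ φ m
    induction m with
    | zero => rw [pow_zero, pow_zero, G1M.finrank_one]
    | succ m ih => rw [pow_succ, G1M.finrank_mul, ih, pow_succ]
  · intro K _ n ρ 𝔭 L _ _ _ ρb h m
    induction m with
    | zero =>
      intro g u hg
      rw [pow_zero, pow_zero]
      exact hg
    | succ m ih =>
      intro g u hg
      rw [pow_succ, pow_succ]
      exact ih _ _ (h g u hg)

end Pool.Agent.Lib.MP_16285c_agN
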