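import Pool.Agent.Lib.MP_16285c_agN.SpecG

/-!
# The residue degree is at least the degree (P4)
-/

set_option autoImplicit false

namespace Pool.Agent.Lib.MP_16285c_agN

open Pool.Agent.Lib.MP_16285c_ag

namespace LowM

section

variable {n : ℕ} {K : Type} [Field K] {𝔭 : Ideal (Pl n K)} [h𝔭 : 𝔭.IsPrime]
  {L : Type} [Field L] [Algebra (CR 𝔭) L] [IsFractionRing (CR 𝔭) L]

omit h𝔭 in
theorem cl_ne {E : Pl n K} (hE : E ∉ 𝔭) : algebraMap (CR 𝔭) L (cl 𝔭 E) ≠ 0 := by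
  intro h
  have h0 : cl 𝔭 E = 0 := by
    apply IsFractionRing.injective (CR 𝔭) L
    rw [h, map_zero]
  exact hE (Ideal.Quotient.eq_zero_iff_mem.1 h0)

omit h𝔭 [Algebra (CR 𝔭) L] [IsFractionRing (CR 𝔭) L] in
theorem fr_inj {a b : Pl n K} (h : fr a = fr b) : a = b :=
  IsFractionRing.injective (Pl n K) (RF n K) h

omit h𝔭 in
/-- Residues are unique. -/
theorem uniq {g : RF n K} {u u' : L} (h : Rsd 𝔭 L g u) (h' : Rsd 𝔭 L g u') : u = u' := by
  obtain ⟨N, E, hE, h1, h2⟩ := h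
  obtain ⟨N', E', hE', h1', h2'⟩ := h'
  have h3 : N * E' = N' * E := by
    apply fr_inj
    show algebraMap _ _ _ = algebraMap _ _ _
    rw [map_mul, map_mul]
    show fr N * fr E' = fr N' * fr E
    rw [← h1, ← h1']
    ring
  have h4 : algebraMap (CR 𝔭) L (cl 𝔭 N) * algebraMap (CR 𝔭) L (cl 𝔭 E') =
      algebraMap (CR 𝔭) L (cl 𝔭 N') * algebraMap (CR 𝔭) L (cl 𝔭 E) := by
    have h5 : cl 𝔭 N * cl 𝔭 E' = cl 𝔭 N' * cl 𝔭 E := by
      show Ideal.Quotient.mk 𝔭 N * Ideal.Quotient.mk 𝔭 E' =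
        Ideal.Quotient.mk 𝔭 N' * Ideal.Quotient.mk 𝔭 E
      rw [← RingHom.map_mul, ← RingHom.map_mul, h3]
    have h6 := congrArg (algebraMap (CR 𝔭) L) h5
    rwa [RingHom.map_mul (algebraMap (CR 𝔭) L) (cl 𝔭 N) (cl 𝔭 E'),
      RingHom.map_mul (algebraMap (CR 𝔭) L) (cl 𝔭 N') (cl 𝔭 E)] at h6
  rw [← h2, ← h2'] at h4
  have hn : algebraMap (CR 𝔭) L (cl 𝔭 E) * algebraMap (CR 𝔭) L (cl 𝔭 E') ≠ 0 :=
    mul_ne_zero (cl_ne hE) (cl_ne hE')
  apply mul_right_cancel₀ hn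
  linear_combination h4

theorem mul_notMem {E E' : Pl n K} (hE : E ∉ 𝔭) (hE' : E' ∉ 𝔭) : E * E' ∉ 𝔭 := fun h =>
  (h𝔭.mem_or_mem h).elim hE hE'

omit [IsFractionRing (CR 𝔭) L] in
/-- Residues are additive. -/
theorem add {g g' : RF n K} {u u' : L} (h : Rsd 𝔭 L g u) (h' : Rsd 𝔭 L g' u') :
    Rsd 𝔭 L (g + g') (u + u') := by
  obtain ⟨N, E, hE, h1, h2⟩ := h
  obtain ⟨N', E', hE', h1', h2'⟩ := h'
  refine ⟨N * E' + N' * E, E * E', mul_notMem hE hE', ?_, ?_⟩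
  · show (g + g') * algebraMap _ _ _ = algebraMap _ _ _
    rw [map_add, map_mul, map_mul, map_mul]
    show (g + g') * (fr E * fr E') = fr N * fr E' + fr N' * fr E
    rw [← h1, ← h1']
    ring
  · show (u + u') * algebraMap (CR 𝔭) L (Ideal.Quotient.mk 𝔭 (E * E')) =
      algebraMap (CR 𝔭) L (Ideal.Quotient.mk 𝔭 (N * E' + N' * E))
    rw [map_add, map_mul, map_mul, map_mul, map_add, map_mul, map_mul, map_mul]
    show (u + u') * (algebraMap (CR 𝔭) L (cl 𝔭 E) * algebraMap (CR 𝔭) L (cl 𝔭 E')) =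
      algebraMap (CR 𝔭) L (cl 𝔭 N) * algebraMap (CR 𝔭) L (cl 𝔭 E') +
      algebraMap (CR 𝔭) L (cl 𝔭 N') * algebraMap (CR 𝔭) L (cl 𝔭 E)
    rw [← h2, ← h2']
    ring

omit [IsFractionRing (CR 𝔭) L] in
/-- Residues are multiplicative. -/
theorem mul {g g' : RF n K} {u u' : L} (h : Rsd 𝔭 L g u) (h' : Rsd 𝔭 L g' u') :
    Rsd 𝔭 L (g * g') (u * u') := by
  obtain ⟨N, E, hE, h1, h2⟩ := h
  obtain ⟨N', E', hE', h1', h2'⟩ := h'
  refine ⟨N * N', E * E', mul_notMem hE hE', ?_, ?_⟩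
  · show (g * g') * algebraMap _ _ _ = algebraMap _ _ _
    rw [map_mul, map_mul]
    show (g * g') * (fr E * fr E') = fr N * fr N'
    rw [← h1, ← h1']
    ring
  · show (u * u') * algebraMap (CR 𝔭) L (Ideal.Quotient.mk 𝔭 (E * E')) =
      algebraMap (CR 𝔭) L (Ideal.Quotient.mk 𝔭 (N * N'))
    rw [map_mul, map_mul, map_mul, map_mul]
    show (u * u') * (algebraMap (CR 𝔭) L (cl 𝔭 E) * algebraMap (CR 𝔭) L (cl 𝔭 E')) =
      algebraMap (CR 𝔭) L (cl 𝔭 N) * algebraMap (CR 𝔭) L (cl 𝔭 N')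
    rw [← h2, ← h2']
    ring

omit [IsFractionRing (CR 𝔭) L] in
/-- Polynomials. -/
theorem res_fr (H : Pl n K) : Rsd 𝔭 L (fr H) (algebraMap (CR 𝔭) L (cl 𝔭 H)) := by
  refine ⟨H, 1, fun h => h𝔭.ne_top ((Ideal.eq_top_iff_one _).2 h), ?_, ?_⟩
  · show fr H * algebraMap _ _ _ = fr H
    rw [map_one, mul_one]
  · show algebraMap (CR 𝔭) L (cl 𝔭 H) * algebraMap (CR 𝔭) L (Ideal.Quotient.mk 𝔭 1) = _
    rw [map_one, map_one, mul_one]

omit [IsFractionRing (CR 𝔭) L] in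
theorem res_zero : Rsd 𝔭 L (0 : RF n K) (0 : L) := by
  have h := res_fr (𝔭 := 𝔭) (L := L) (0 : Pl n K)
  have e1 : fr (0 : Pl n K) = (0 : RF n K) := map_zero _
  have e2 : algebraMap (CR 𝔭) L (cl 𝔭 (0 : Pl n K)) = 0 := by
    show algebraMap (CR 𝔭) L (Ideal.Quotient.mk 𝔭 0) = 0
    rw [map_zero, map_zero]
  rwa [e1, e2] at h

omit [IsFractionRing (CR 𝔭) L] in
theorem res_one : Rsd 𝔭 L (1 : RF n K) (1 : L) := by
  have h := res_fr (𝔭 := 𝔭) (L := L) (1 : Pl n K)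
  have e1 : fr (1 : Pl n K) = (1 : RF n K) := map_one _
  have e2 : algebraMap (CR 𝔭) L (cl 𝔭 (1 : Pl n K)) = 1 := by
    show algebraMap (CR 𝔭) L (Ideal.Quotient.mk 𝔭 1) = 1
    rw [map_one, map_one]
  rwa [e1, e2] at h

omit [IsFractionRing (CR 𝔭) L] in
theorem pow {g : RF n K} {u : L} (h : Rsd 𝔭 L g u) (k : ℕ) : Rsd 𝔭 L (g ^ k) (u ^ k) := by
  induction k with
  | zero => rw [pow_zero, pow_zero]; exact res_one
  | succ k ih => rw [pow_succ, pow_succ]; exact mul ih h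

omit h𝔭 in
/-- Quotients. -/
theorem res_div (u v : Pl n K) (hv : v ∉ 𝔭) :
    Rsd 𝔭 L (fr u / fr v) (algebraMap (CR 𝔭) L (cl 𝔭 u) / algebraMap (CR 𝔭) L (cl 𝔭 v)) := by
  have hv0 : fr v ≠ (0 : RF n K) := by
    intro h
    have h0 : v = 0 := fr_inj (h.trans (map_zero _).symm)
    exact hv (h0 ▸ 𝔭.zero_mem)
  exact ⟨u, v, hv, div_mul_cancel₀ _ hv0, div_mul_cancel₀ _ (cl_ne hv)⟩

omit [IsFractionRing (CR 𝔭) L] in
/-- Values of polynomials. -/
theorem res_eval (α : Pl n K →+* RF n K) (β : Pl n K →+* L)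
    (hαβ : ∀ H, Rsd 𝔭 L (α H) (β H)) (θ : RF n K) (θb : L) (hθ : Rsd 𝔭 L θ θb)
    (F : Polynomial (Pl n K)) : Rsd 𝔭 L (F.eval₂ α θ) (F.eval₂ β θb) := by
  induction F using Polynomial.induction_on' with
  | add p q hp hq =>
    rw [Polynomial.eval₂_add, Polynomial.eval₂_add]
    exact add hp hq
  | monomial k a =>
    rw [Polynomial.eval₂_monomial, Polynomial.eval₂_monomial]
    exact mul (hαβ a) (pow hθ k)

end

/-- A monic polynomial over `L`, irreducible, with a `φ`-twisted root. -/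
theorem degree_le {K L : Type} [Field K] [Field L] [Algebra K L] (φ : L →ₐ[K] L)
    (hfin : Module.Finite φ.fieldRange L) (G : Polynomial L) (hG : G.Monic)
    (hirr : Irreducible G) (θ : L) (h0 : G.eval₂ (φ : L →+* L) θ = 0) :
    G.natDegree ≤ Module.finrank φ.fieldRange L := by
  have hbij : Function.Bijective ((φ : L →+* L).codRestrict φ.fieldRange
      (fun x => ⟨x, rfl⟩)) := by
    constructor
    · exact RingHom.injective _
    · rintro ⟨y, x, hx⟩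
      exact ⟨x, Subtype.ext hx⟩
  let e : L ≃+* φ.fieldRange := RingEquiv.ofBijective _ hbij
  have he : ∀ x, ((e x : φ.fieldRange) : L) = φ x := fun x => rfl
  set G' : Polynomial φ.fieldRange := G.map (e : L →+* φ.fieldRange) with hG'
  have hm : G'.Monic := hG.map _
  have hi : Irreducible G' := by
    have h5 := (MulEquiv.irreducible_iff (Polynomial.mapEquiv e).toMulEquiv (x := G)).2 hirr
    exact h5
  have hr : Polynomial.aeval θ G' = 0 := by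
    rw [Polynomial.aeval_def, hG', Polynomial.eval₂_map]
    exact h0
  have hmin := minpoly.eq_of_irreducible_of_monic hi hr hm
  have hd : G.natDegree = G'.natDegree := by
    rw [hG', Polynomial.natDegree_map]
  rw [hd, hmin]
  exact minpoly.natDegree_le θ

end LowM

open LowM in
theorem tLow : StmtLow := by
  intro K _ n ρ 𝔭 _ L _ _ _ _ _ ρb hR hfin F u v hF hv hirr h0
  set φ : Pl n K →+* L := (algebraMap (CR 𝔭) L).comp (Ideal.Quotient.mk 𝔭) with hφ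
  have h1 := res_eval (𝔭 := 𝔭) (L := L)
    ((ρ : RF n K →+* RF n K).comp (algebraMap (Pl n K) (RF n K)))
    ((ρb : L →+* L).comp φ) (fun H => hR _ _ (res_fr H)) _ _ (res_div u v hv) F
  rw [h0] at h1
  have h2 := uniq h1 res_zero
  have h3 : (F.map φ).eval₂ (ρb : L →+* L)
      (algebraMap (CR 𝔭) L (cl 𝔭 u) / algebraMap (CR 𝔭) L (cl 𝔭 v)) = 0 := by
    rw [Polynomial.eval₂_map]
    exact h2
  have h4 := degree_le ρb hfin (F.map φ) (hF.map φ) hirr _ h3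
  rwa [hF.natDegree_map] at h4

end Pool.Agent.Lib.MP_16285c_agN
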