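import Pool.Agent.Lib.MP_16285c_agN.SpecR

set_option autoImplicit false

namespace Pool.Agent.Lib.MP_16285c_agN.A1M

open Pool.Agent.Lib.MP_16285c_ag

theorem cols {K : Type} [Field K] {n c : ℕ} (g : Fin c → Fin n → K)
    (hg : LinearIndependent K g) :
    ∃ β : Fin c → Fin n, Function.Injective β ∧
      ∃ B : Matrix (Fin c) (Fin c) K, ∀ j l, ∑ m, B j m * g m (β l) = if l = j then 1 else 0 := by
  classical
  let M : Matrix (Fin c) (Fin n) K := Matrix.of g
  have hr : M.rank = c := by
    have h : LinearIndependent K M.row := hg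
    simpa using h.rank_matrix
  let s : Set (Fin c → K) := Set.range M.col
  have hs : Module.finrank K (Submodule.span K s) = c := by
    exact (Matrix.rank_eq_finrank_span_cols M).symm.trans hr
  obtain ⟨f, hf, -, hli⟩ := Submodule.exists_fun_fin_finrank_span_eq K s
  have hβ : ∀ i, ∃ b : Fin n, M.col b = f i := fun i => hf i
  choose β0 hβ0 using hβ
  let e : Fin c ≃ Fin (Module.finrank K (Submodule.span K s)) := finCongr hs.symm
  refine ⟨fun l => β0 (e l), ?_, ?_⟩
  · intro a b hab
    have h1 : f (e a) = f (e b) := by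
      rw [← hβ0, ← hβ0]
      exact congrArg M.col hab
    exact e.injective (hli.injective h1)
  · let N : Matrix (Fin c) (Fin c) K := Matrix.of fun m l => g m (β0 (e l))
    have hN : IsUnit N := by
      rw [← Matrix.linearIndependent_cols_iff_isUnit]
      have h2 : N.col = fun l => f (e l) := by
        funext l
        rw [← hβ0]
        rfl
      rw [h2]
      exact hli.comp e e.injective
    refine ⟨N⁻¹, fun j l => ?_⟩
    have h3 : (N⁻¹ * N) j l = (1 : Matrix (Fin c) (Fin c) K) j l := by
      rw [Matrix.nonsing_inv_mul N ((Matrix.isUnit_iff_isUnit_det N).1 hN)]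
    rw [Matrix.mul_apply, Matrix.one_apply] at h3
    rw [show (∑ m, N⁻¹ j m * g m (β0 (e l))) = ∑ m, N⁻¹ j m * N m l from rfl, h3]
    exact if_congr eq_comm rfl rfl

end Pool.Agent.Lib.MP_16285c_agN.A1M

namespace Pool.Agent.Lib.MP_16285c_agN

theorem tA1 : StmtA1 := by
  intro K _ n c 𝔭 x hG
  obtain ⟨P, hP, hli⟩ := hG
  obtain ⟨β, hβ, B, hB⟩ := A1M.cols (fun j => grad (P j) x) hli
  refine ⟨fun j => ∑ m, MvPolynomial.C (B j m) * P m, β, hβ, fun j => ?_, fun j l => ?_⟩
  · exact Ideal.sum_mem _ fun m _ => Ideal.mul_mem_left _ _ (hP m)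
  · rw [← hB j l]
    simp only [grad, map_sum]
    refine Finset.sum_congr rfl fun m _ => ?_
    rw [Derivation.leibniz, MvPolynomial.pderiv_C, smul_zero, add_zero, smul_eq_mul, map_mul,
      MvPolynomial.eval_C]

end Pool.Agent.Lib.MP_16285c_agN
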