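import Pool.Agent.Lib.MP_16285c_agN.SpecR

/-!
# The universal formal arc through a smooth point
-/

set_option autoImplicit false

namespace Pool.Agent.Lib.MP_16285c_agN

open Pool.Agent.Lib.MP_16285c_ag

namespace A2M

section

variable {n c : ℕ} {K : Type} [Field K]

/-- The ring of power series over the parameter ring. -/
abbrev SS (n : ℕ) (K : Type) [Field K] : Type := PowerSeries (MvPolynomial (Fin n) K)

/-- Constants. -/
noncomputable def cc : K →+* SS n K := PowerSeries.C.comp MvPolynomial.C

theorem cc_apply (a : K) : (cc a : SS n K) = PowerSeries.C (MvPolynomial.C a) := rfl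

theorem const_cc (a : K) : PowerSeries.constantCoeff (cc a : SS n K) = MvPolynomial.C a := by
  rw [cc_apply, PowerSeries.constantCoeff_C]

theorem alg_eq (a : K) : algebraMap K (SS n K) a = cc a := by
  rw [PowerSeries.algebraMap_apply, cc_apply, MvPolynomial.algebraMap_eq]

/-- Constant coefficient of the value of a polynomial. -/
theorem const_aeval {x : Fin n → K} {Y : Fin n → SS n K}
    (hY : ∀ i, PowerSeries.constantCoeff (Y i) = MvPolynomial.C (x i)) (G : Pl n K) :
    PowerSeries.constantCoeff (MvPolynomial.aeval Y G) = MvPolynomial.C (MvPolynomial.eval x G) := by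
  induction G using MvPolynomial.induction_on with
  | C a => rw [MvPolynomial.aeval_C, alg_eq, const_cc, MvPolynomial.eval_C]
  | add p q hp hq => rw [map_add, map_add, hp, hq, map_add, map_add]
  | mul_X p i hp =>
    rw [map_mul, map_mul, hp, MvPolynomial.aeval_X, hY, map_mul, map_mul, MvPolynomial.eval_X]

theorem X_dvd_sub {x : Fin n → K} {Y : Fin n → SS n K}
    (hY : ∀ i, PowerSeries.constantCoeff (Y i) = MvPolynomial.C (x i)) (G : Pl n K) :
    PowerSeries.X ∣ MvPolynomial.aeval Y G - cc (MvPolynomial.eval x G) := by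
  rw [PowerSeries.X_dvd_iff, map_sub, const_aeval hY, const_cc, sub_self]

theorem grad_mul_X (p : Pl n K) (x : Fin n → K) (i j : Fin n) :
    grad (p * MvPolynomial.X i) x j = grad p x j * x i + (if j = i then MvPolynomial.eval x p else 0) := by
  unfold grad
  rw [MvPolynomial.pderiv_mul, map_add, map_mul, map_mul, MvPolynomial.eval_X]
  by_cases h : j = i
  · subst h
    rw [MvPolynomial.pderiv_X_self]
    simp
  · rw [MvPolynomial.pderiv_X_of_ne (fun h' => h h'.symm)]
    simp [h]

/-- First order Taylor formula. -/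
theorem taylor {x : Fin n → K} {Y Y' : Fin n → SS n K} {m : ℕ}
    (hY : ∀ i, PowerSeries.constantCoeff (Y i) = MvPolynomial.C (x i))
    (hY' : ∀ i, PowerSeries.constantCoeff (Y' i) = MvPolynomial.C (x i))
    (hd : ∀ i, PowerSeries.X ^ m ∣ Y i - Y' i) (G : Pl n K) :
    PowerSeries.X ^ (m + 1) ∣ MvPolynomial.aeval Y G - MvPolynomial.aeval Y' G -
      ∑ i, cc (grad G x i) * (Y i - Y' i) := by
  induction G using MvPolynomial.induction_on with
  | C a =>
    have : ∀ i, grad (MvPolynomial.C a : Pl n K) x i = 0 := by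
      intro i
      unfold grad
      simp
    simp [this]
  | add p q hp hq =>
    have e : ∀ i, grad (p + q) x i = grad p x i + grad q x i := by
      intro i
      unfold grad
      rw [map_add, map_add]
    have := dvd_add hp hq
    convert this using 1
    simp only [map_add, e, add_mul, Finset.sum_add_distrib]
    ring
  | mul_X p i hp =>
    set A := MvPolynomial.aeval Y p with hA
    set A' := MvPolynomial.aeval Y' p with hA'
    set S := ∑ j, cc (grad p x j) * (Y j - Y' j) with hS
    have e1 : ∑ j, cc (grad (p * MvPolynomial.X i) x j) * (Y j - Y' j) =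
        cc (x i) * S + cc (MvPolynomial.eval x p) * (Y i - Y' i) := by
      have : ∀ j, cc (grad (p * MvPolynomial.X i) x j) * (Y j - Y' j) =
          cc (x i) * (cc (grad p x j) * (Y j - Y' j)) +
            (if j = i then cc (MvPolynomial.eval x p) * (Y j - Y' j) else 0) := by
        intro j
        rw [grad_mul_X]
        by_cases h : j = i
        · subst h
          simp only [if_true, map_add, map_mul]
          ring
        · simp only [h, if_false, add_zero, map_mul]
          ring
      simp_rw [this]
      rw [Finset.sum_add_distrib, Finset.sum_ite_eq' Finset.univ i]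
      simp [hS, Finset.mul_sum]
    have e2 : MvPolynomial.aeval Y (p * MvPolynomial.X i) - MvPolynomial.aeval Y' (p * MvPolynomial.X i) -
        ∑ j, cc (grad (p * MvPolynomial.X i) x j) * (Y j - Y' j) =
        (A - A' - S) * Y i + S * (Y i - cc (x i)) +
          (Y i - Y' i) * (A' - cc (MvPolynomial.eval x p)) := by
      rw [e1, map_mul, map_mul, MvPolynomial.aeval_X, MvPolynomial.aeval_X, ← hA, ← hA']
      ring
    rw [e2]
    have d1 : PowerSeries.X ^ m ∣ S := Finset.dvd_sum fun j _ => (hd j).mul_left _
    have d2 : PowerSeries.X ∣ Y i - cc (x i) := by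
      rw [PowerSeries.X_dvd_iff, map_sub, hY, const_cc, sub_self]
    refine dvd_add (dvd_add (hp.mul_right _) ?_) ?_
    · rw [pow_succ]
      exact mul_dvd_mul d1 d2
    · rw [pow_succ]
      exact mul_dvd_mul (hd i) (X_dvd_sub hY' p)

variable (P : Fin c → Pl n K) (β : Fin c → Fin n) (x : Fin n → K)

open Classical in
/-- The point with the coordinates `y` in the directions `β` and the parameters in the other directions. -/
noncomputable def pt (y : Fin c → SS n K) (i : Fin n) : SS n K :=
  if h : ∃ l, β l = i then y h.choose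
  else PowerSeries.C (MvPolynomial.C (x i)) + PowerSeries.C (MvPolynomial.X i) * PowerSeries.X

variable {β}

theorem pt_in (hβ : Function.Injective β) (y : Fin c → SS n K) (l : Fin c) : pt β x y (β l) = y l := by
  unfold pt
  have h : ∃ l', β l' = β l := ⟨l, rfl⟩
  rw [dif_pos h]
  exact congrArg y (hβ h.choose_spec)

theorem pt_out {a : Fin n} (ha : a ∉ Set.range β) (y : Fin c → SS n K) :
    pt β x y a = PowerSeries.C (MvPolynomial.C (x a)) + PowerSeries.C (MvPolynomial.X a) * PowerSeries.X := by
  unfold pt
  rw [dif_neg]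
  rintro ⟨l, hl⟩
  exact ha ⟨l, hl⟩

/-- The constant terms of `y` are right. -/
def Gd (β : Fin c → Fin n) (x : Fin n → K) (y : Fin c → SS n K) : Prop :=
  ∀ l, PowerSeries.constantCoeff (y l) = MvPolynomial.C (x (β l))

variable {x}

theorem pt_const (hβ : Function.Injective β) {y : Fin c → SS n K} (hy : Gd β x y) (i : Fin n) :
    PowerSeries.constantCoeff (pt β x y i) = MvPolynomial.C (x i) := by
  by_cases h : i ∈ Set.range β
  · obtain ⟨l, rfl⟩ := h
    rw [pt_in x hβ, hy]
  · rw [pt_out x h]
    simp

variable (β x)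

/-- The map whose fixed points are the arcs. -/
noncomputable def Tm (y : Fin c → SS n K) (j : Fin c) : SS n K :=
  y j - MvPolynomial.aeval (pt β x y) (P j)

variable {P β x}

theorem Tm_good (hβ : Function.Injective β) (hP : ∀ j, MvPolynomial.eval x (P j) = 0)
    {y : Fin c → SS n K} (hy : Gd β x y) : Gd β x (Tm P β x y) := by
  intro l
  unfold Tm
  rw [map_sub, hy, const_aeval (pt_const hβ hy), hP, map_zero, sub_zero]

theorem contr (hβ : Function.Injective β)
    (hg : ∀ j l, grad (P j) x (β l) = if l = j then 1 else 0) {y y' : Fin c → SS n K} {m : ℕ}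
    (hy : Gd β x y) (hy' : Gd β x y') (hd : ∀ l, PowerSeries.X ^ m ∣ y l - y' l) (j : Fin c) :
    PowerSeries.X ^ (m + 1) ∣ Tm P β x y j - Tm P β x y' j := by
  have hd' : ∀ i, PowerSeries.X ^ m ∣ pt β x y i - pt β x y' i := by
    intro i
    by_cases h : i ∈ Set.range β
    · obtain ⟨l, rfl⟩ := h
      rw [pt_in x hβ, pt_in x hβ]
      exact hd l
    · rw [pt_out x h, pt_out x h, sub_self]
      exact dvd_zero _
  have h1 := taylor (pt_const hβ hy) (pt_const hβ hy') hd' (P j)
  have h2 : ∑ i, cc (grad (P j) x i) * (pt β x y i - pt β x y' i) = y j - y' j := by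
    rw [← Fintype.sum_of_injective β hβ (fun l => cc (grad (P j) x (β l)) * (y l - y' l))
      (fun i => cc (grad (P j) x i) * (pt β x y i - pt β x y' i))]
    · have e : ∀ l, cc (grad (P j) x (β l)) * (y l - y' l) = if l = j then y l - y' l else 0 := by
        intro l
        rw [hg]
        by_cases h : l = j
        · simp [h]
        · simp [h]
      simp_rw [e]
      rw [Finset.sum_ite_eq' Finset.univ j]
      simp
    · intro i hi
      rw [pt_out x hi, pt_out x hi, sub_self, mul_zero]
    · intro l
      rw [pt_in x hβ, pt_in x hβ]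
  rw [h2] at h1
  have e : Tm P β x y j - Tm P β x y' j =
      -(MvPolynomial.aeval (pt β x y) (P j) - MvPolynomial.aeval (pt β x y') (P j) - (y j - y' j)) := by
    unfold Tm
    ring
  rw [e]
  exact (dvd_neg).2 h1

variable (P β x)

/-- The iteration. -/
noncomputable def sq : ℕ → Fin c → SS n K
  | 0 => fun l => cc (x (β l))
  | k + 1 => Tm P β x (sq k)

/-- The limit. -/
noncomputable def lm (l : Fin c) : SS n K := PowerSeries.mk fun m => PowerSeries.coeff m (sq P β x m l)

variable {P β x}

theorem sq_good (hβ : Function.Injective β) (hP : ∀ j, MvPolynomial.eval x (P j) = 0) (k : ℕ) :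
    Gd β x (sq P β x k) := by
  induction k with
  | zero =>
    intro l
    exact const_cc _
  | succ k ih => exact Tm_good hβ hP ih

theorem sq_step (hβ : Function.Injective β) (hP : ∀ j, MvPolynomial.eval x (P j) = 0)
    (hg : ∀ j l, grad (P j) x (β l) = if l = j then 1 else 0) (k : ℕ) :
    ∀ l, PowerSeries.X ^ (k + 1) ∣ sq P β x (k + 1) l - sq P β x k l := by
  induction k with
  | zero =>
    intro l
    rw [zero_add, pow_one, PowerSeries.X_dvd_iff, map_sub, sq_good hβ hP 1 l, sq_good hβ hP 0 l, sub_self]
  | succ k ih =>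
    intro l
    exact contr hβ hg (sq_good hβ hP (k + 1)) (sq_good hβ hP k) ih l

theorem sq_coeff (hβ : Function.Injective β) (hP : ∀ j, MvPolynomial.eval x (P j) = 0)
    (hg : ∀ j l, grad (P j) x (β l) = if l = j then 1 else 0) (m k : ℕ) (hmk : m ≤ k) (l : Fin c) :
    PowerSeries.coeff m (sq P β x k l) = PowerSeries.coeff m (sq P β x m l) := by
  induction k, hmk using Nat.le_induction with
  | base => rfl
  | succ k hk ih =>
    have h := (PowerSeries.X_pow_dvd_iff.1 (sq_step hβ hP hg k l)) m (by omega)
    rw [map_sub, sub_eq_zero] at h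
    rw [h, ih]

theorem lm_dvd (hβ : Function.Injective β) (hP : ∀ j, MvPolynomial.eval x (P j) = 0)
    (hg : ∀ j l, grad (P j) x (β l) = if l = j then 1 else 0) (k : ℕ) (l : Fin c) :
    PowerSeries.X ^ (k + 1) ∣ lm P β x l - sq P β x k l := by
  rw [PowerSeries.X_pow_dvd_iff]
  intro m hm
  rw [map_sub, lm, PowerSeries.coeff_mk, sq_coeff hβ hP hg m k (by omega), sub_self]

theorem lm_good (hβ : Function.Injective β) (hP : ∀ j, MvPolynomial.eval x (P j) = 0)
    (hg : ∀ j l, grad (P j) x (β l) = if l = j then 1 else 0) : Gd β x (lm P β x) := by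
  intro l
  have h := lm_dvd hβ hP hg 0 l
  rw [zero_add, pow_one, PowerSeries.X_dvd_iff, map_sub, sub_eq_zero] at h
  rw [h, sq_good hβ hP 0 l]

theorem lm_fix (hβ : Function.Injective β) (hP : ∀ j, MvPolynomial.eval x (P j) = 0)
    (hg : ∀ j l, grad (P j) x (β l) = if l = j then 1 else 0) (j : Fin c) :
    MvPolynomial.aeval (pt β x (lm P β x)) (P j) = 0 := by
  have h1 : ∀ k, PowerSeries.X ^ (k + 2) ∣ Tm P β x (lm P β x) j - lm P β x j := by
    intro k
    have a1 := contr hβ hg (lm_good hβ hP hg) (sq_good hβ hP k) (lm_dvd hβ hP hg k) j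
    have a2 := lm_dvd hβ hP hg (k + 1) j
    have e : Tm P β x (lm P β x) j - lm P β x j =
        (Tm P β x (lm P β x) j - Tm P β x (sq P β x k) j) - (lm P β x j - sq P β x (k + 1) j) := by
      rw [sq]
      ring
    rw [e]
    exact dvd_sub a1 a2
  have h2 : Tm P β x (lm P β x) j - lm P β x j = 0 := by
    ext1 m
    rw [map_zero]
    exact (PowerSeries.X_pow_dvd_iff.1 (h1 m)) m (by omega)
  have h3 : Tm P β x (lm P β x) j - lm P β x j = -(MvPolynomial.aeval (pt β x (lm P β x)) (P j)) := by
    unfold Tm
    ring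
  rw [h3, neg_eq_zero] at h2
  exact h2

end

end A2M

open A2M in
/-- (A2) The universal formal arc. -/
theorem tA2 : StmtA2 := by
  intro K _ n c P β x hβ hP hg
  refine ⟨MvPolynomial.aeval (pt β x (lm P β x)), fun j => lm_fix hβ hP hg j, fun a ha => ?_, fun G => ?_⟩
  · rw [MvPolynomial.aeval_X, pt_out x ha]
  · exact const_aeval (pt_const hβ (lm_good hβ hP hg)) G

end Pool.Agent.Lib.MP_16285c_agN
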