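import Pool.Agent.Lib.MP_16285c_agN.SpecR

/-! # Elimination modulo powers of the maximal ideal -/

set_option autoImplicit false

namespace Pool.Agent.Lib.MP_16285c_agN

open Pool.Agent.Lib.MP_16285c_ag

namespace A3M

open MvPolynomial

variable {K : Type} [Field K] {n : ℕ}

theorem y_mem (x : Fin n → K) (i : Fin n) :
    (X i - C (x i) : MvPolynomial (Fin n) K) ∈ RingHom.ker (eval x) := by
  rw [RingHom.mem_ker, map_sub, eval_X, eval_C, sub_self]

theorem grad_C (x : Fin n → K) (a : K) (i : Fin n) : grad (C a : Pl n K) x i = 0 := by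
  rw [grad, pderiv_C, map_zero]

theorem grad_add (p q : Pl n K) (x : Fin n → K) (i : Fin n) :
    grad (p + q) x i = grad p x i + grad q x i := by
  rw [grad, grad, grad, map_add, map_add]

theorem grad_mul (p q : Pl n K) (x : Fin n → K) (i : Fin n) :
    grad (p * q) x i = eval x p * grad q x i + eval x q * grad p x i := by
  rw [grad, grad, grad, Derivation.leibniz, map_add, smul_eq_mul, smul_eq_mul, map_mul, map_mul]

theorem grad_X (x : Fin n → K) (j i : Fin n) : grad (X j : Pl n K) x i = if i = j then 1 else 0 := by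
  classical
  rw [grad]
  by_cases h : i = j
  · subst h
    rw [pderiv_X_self, map_one, if_pos rfl]
  · rw [pderiv_X_of_ne (Ne.symm h), map_zero, if_neg h]

/-- Taylor -/
theorem taylor (x : Fin n → K) (G : Pl n K) :
    G - C (eval x G) - ∑ i, C (grad G x i) * (X i - C (x i)) ∈ RingHom.ker (eval x) ^ 2 := by
  classical
  induction G using MvPolynomial.induction_on with
  | C a =>
    have h : ∑ i, C (grad (C a : Pl n K) x i) * (X i - C (x i)) = (0 : Pl n K) :=
      Finset.sum_eq_zero fun i _ => by rw [grad_C, C_0, zero_mul]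
    rw [h, eval_C, sub_self, sub_zero]
    exact Ideal.zero_mem _
  | add p q hp hq =>
    have h : p + q - C (eval x (p + q)) - ∑ i, C (grad (p + q) x i) * (X i - C (x i)) =
        (p - C (eval x p) - ∑ i, C (grad p x i) * (X i - C (x i))) +
        (q - C (eval x q) - ∑ i, C (grad q x i) * (X i - C (x i))) := by
      have h1 : ∑ i, C (grad (p + q) x i) * (X i - C (x i)) =
          ∑ i, C (grad p x i) * (X i - C (x i)) + ∑ i, C (grad q x i) * (X i - C (x i)) := by
        rw [← Finset.sum_add_distrib]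
        exact Finset.sum_congr rfl fun i _ => by rw [grad_add, C_add, add_mul]
      rw [h1, map_add, C_add]
      ring
    rw [h]
    exact Ideal.add_mem _ hp hq
  | mul_X p j hp =>
    set S := ∑ i, C (grad p x i) * (X i - C (x i)) with hS
    have hSm : S ∈ RingHom.ker (eval x) :=
      Ideal.sum_mem _ fun i _ => Ideal.mul_mem_left _ _ (y_mem x i)
    have h1 : ∑ i, C (grad (p * X j) x i) * (X i - C (x i)) =
        C (x j) * S + C (eval x p) * (X j - C (x j)) := by
      rw [hS, Finset.mul_sum]
      have h2 : ∀ i, C (grad (p * X j) x i) * (X i - C (x i)) =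
          C (x j) * (C (grad p x i) * (X i - C (x i))) +
            (if i = j then C (eval x p) * (X i - C (x i)) else 0) := by
        intro i
        rw [grad_mul, grad_X, eval_X]
        by_cases h : i = j
        · rw [if_pos h, if_pos h, mul_one, C_add, C_mul]
          ring
        · rw [if_neg h, if_neg h, mul_zero, zero_add, C_mul]
          ring
      rw [Finset.sum_congr rfl fun i _ => h2 i, Finset.sum_add_distrib, Finset.sum_ite_eq']
      simp
    have h3 : p * X j - C (eval x (p * X j)) - ∑ i, C (grad (p * X j) x i) * (X i - C (x i)) =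
        X j * (p - C (eval x p) - S) + S * (X j - C (x j)) := by
      rw [h1, map_mul, eval_X, C_mul]
      ring
    rw [h3]
    refine Ideal.add_mem _ (Ideal.mul_mem_left _ _ hp) ?_
    rw [pow_two]
    exact Ideal.mul_mem_mul hSm (y_mem x j)

/-- one step -/
theorem step {c : ℕ} (P : Fin c → Pl n K) (β : Fin c → Fin n) (x : Fin n → K)
    (hP : ∀ j, eval x (P j) = 0)
    (hg : ∀ j l, grad (P j) x (β l) = if l = j then 1 else 0) (G : Pl n K)
    (hG : G ∈ RingHom.ker (eval x)) :
    ∃ s ∈ supported K (Set.range β)ᶜ, s ∈ RingHom.ker (eval x) ∧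
      G - s ∈ Ideal.span (Set.range P) ⊔ RingHom.ker (eval x) ^ 2 := by
  classical
  set Q : Pl n K := ∑ l, C (grad G x (β l)) * P l with hQ
  have hQe : eval x Q = 0 := by
    rw [hQ, map_sum]
    exact Finset.sum_eq_zero fun l _ => by rw [map_mul, hP, mul_zero]
  have hgr : ∀ i, grad Q x i = ∑ l, grad G x (β l) * grad (P l) x i := by
    intro i
    have : ∀ s : Finset (Fin c), grad (∑ l ∈ s, C (grad G x (β l)) * P l) x i =
        ∑ l ∈ s, grad G x (β l) * grad (P l) x i := by
      intro s
      induction s using Finset.induction_on with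
      | empty =>
        rw [Finset.sum_empty, Finset.sum_empty, grad, map_zero, map_zero]
      | insert a s ha ih =>
        rw [Finset.sum_insert ha, Finset.sum_insert ha, grad_add, ih, grad_mul, eval_C, grad_C, mul_zero, add_zero]
    exact this Finset.univ
  have hz : ∀ l, grad (G - Q) x (β l) = 0 := by
    intro l
    have h1 : grad G x (β l) = grad (G - Q) x (β l) + grad Q x (β l) := by
      rw [← grad_add, sub_add_cancel]
    have h2 : grad Q x (β l) = grad G x (β l) := by
      rw [hgr, Finset.sum_eq_single l (fun l' _ hl' => by rw [hg, if_neg (Ne.symm hl'), mul_zero])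
        (fun h => absurd (Finset.mem_univ l) h), hg, if_pos rfl, mul_one]
    rw [h2] at h1
    exact (add_eq_right.mp h1.symm)
  have hT := taylor x (G - Q)
  have hGQ : eval x (G - Q) = 0 := by
    rw [map_sub, hQe, sub_zero]
    exact hG
  rw [hGQ, C_0, sub_zero] at hT
  refine ⟨∑ i, C (grad (G - Q) x i) * (X i - C (x i)), ?_, ?_, ?_⟩
  · refine Subalgebra.sum_mem _ fun i _ => ?_
    by_cases hi : i ∈ Set.range β
    · obtain ⟨l, rfl⟩ := hi
      rw [hz, C_0, zero_mul]
      exact Subalgebra.zero_mem _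
    · refine Subalgebra.mul_mem _ (Subalgebra.algebraMap_mem _ _) (Subalgebra.sub_mem _ ?_ (Subalgebra.algebraMap_mem _ _))
      exact X_mem_supported.mpr hi
  · exact Ideal.sum_mem _ fun i _ => Ideal.mul_mem_left _ _ (y_mem x i)
  · have h1 : G - ∑ i, C (grad (G - Q) x i) * (X i - C (x i)) =
        Q + (G - Q - ∑ i, C (grad (G - Q) x i) * (X i - C (x i))) := by ring
    rw [h1]
    refine Submodule.add_mem_sup ?_ hT
    exact Ideal.sum_mem _ fun l _ => Ideal.mul_mem_left _ _ (Ideal.subset_span ⟨l, rfl⟩)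

theorem mul_mem_aux (J 𝔪 : Ideal (Pl n K)) (a b k l : ℕ) (hkl : a + b = l) (u v : Pl n K)
    (hu : u ∈ 𝔪 ^ a) (hv : v ∈ J ⊔ 𝔪 ^ b) (_ : k = k) : u * v ∈ J ⊔ 𝔪 ^ l := by
  obtain ⟨j, hj, w, hw, rfl⟩ := Submodule.mem_sup.mp hv
  rw [mul_add]
  refine Submodule.add_mem_sup (Ideal.mul_mem_left _ _ hj) ?_
  rw [← hkl, pow_add]
  exact Ideal.mul_mem_mul hu hw

theorem main {c : ℕ} (P : Fin c → Pl n K) (β : Fin c → Fin n) (x : Fin n → K)
    (hP : ∀ j, eval x (P j) = 0)
    (hg : ∀ j l, grad (P j) x (β l) = if l = j then 1 else 0) (k : ℕ) : ∀ G : Pl n K,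
    G ∈ RingHom.ker (eval x) ^ k → ∃ s ∈ supported K (Set.range β)ᶜ, s ∈ RingHom.ker (eval x) ^ k ∧
      G - s ∈ Ideal.span (Set.range P) ⊔ RingHom.ker (eval x) ^ (k + 1) := by
  induction k with
  | zero =>
    intro G _
    refine ⟨C (eval x G), Subalgebra.algebraMap_mem _ _, ?_, ?_⟩
    · rw [pow_zero, Ideal.one_eq_top]
      exact Submodule.mem_top
    · refine Submodule.mem_sup_right ?_
      rw [zero_add, pow_one, RingHom.mem_ker, map_sub, eval_C, sub_self]
  | succ k ih =>
    intro G hG
    rw [pow_succ] at hG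
    refine Submodule.mul_induction_on hG (fun a ha b hb => ?_) (fun a b ha hb => ?_)
    · obtain ⟨s, hs, hsm, hs'⟩ := ih a ha
      obtain ⟨t, ht, htm, ht'⟩ := step P β x hP hg b hb
      refine ⟨s * t, Subalgebra.mul_mem _ hs ht, ?_, ?_⟩
      · rw [pow_succ]
        exact Ideal.mul_mem_mul hsm htm
      · have h1 : a * b - s * t = s * (b - t) + b * (a - s) := by ring
        rw [h1]
        refine Ideal.add_mem _ ?_ ?_
        · exact mul_mem_aux _ _ k 2 0 (k + 1 + 1) rfl s _ hsm ht' rfl
        · refine mul_mem_aux _ _ 1 (k + 1) 0 (k + 1 + 1) (by omega) b _ ?_ hs' rfl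
          rwa [pow_one]
    · obtain ⟨s, hs, hsm, hs'⟩ := ha
      obtain ⟨t, ht, htm, ht'⟩ := hb
      refine ⟨s + t, Subalgebra.add_mem _ hs ht, Ideal.add_mem _ hsm htm, ?_⟩
      have h1 : a + b - (s + t) = (a - s) + (b - t) := by ring
      rw [h1]
      exact Ideal.add_mem _ hs' ht'

end A3M

open A3M

theorem tA3 : StmtA3 := by
  intro K _ n c P β x _ hP hg m
  induction m with
  | zero =>
    intro G
    refine ⟨0, Subalgebra.zero_mem _, ?_⟩
    rw [pow_zero, Ideal.one_eq_top, sup_top_eq]
    exact Submodule.mem_top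
  | succ m ih =>
    intro G
    obtain ⟨g, hgs, hG⟩ := ih G
    obtain ⟨j, hj, w, hw, hjw⟩ := Submodule.mem_sup.mp hG
    obtain ⟨s, hs, _, hs'⟩ := main P β x hP hg m w hw
    refine ⟨g + s, Subalgebra.add_mem _ hgs hs, ?_⟩
    have h1 : G - (g + s) = j + (w - s) := by
      have : G - g = j + w := hjw.symm
      linear_combination this
    rw [h1]
    exact Ideal.add_mem _ (Submodule.mem_sup_left hj) hs'

end Pool.Agent.Lib.MP_16285c_agN
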