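import Pool.Agent.Lib.MP_16285c_agN.SpecR

/-!
# Proof of `StmtA4`
-/

set_option autoImplicit false

namespace Pool.Agent.Lib.MP_16285c_agN

namespace A4M

variable {n : ℕ} {K : Type} [Field K]

/-- `X a ↦ X a * s`. -/
noncomputable def ps (n : ℕ) (K : Type) [Field K] : Pl n K →ₐ[K] PowerSeries (MvPolynomial (Fin n) K) :=
  MvPolynomial.aeval fun a => PowerSeries.C (MvPolynomial.X a) * PowerSeries.X

theorem ps_monomial (u : Fin n →₀ ℕ) (c : K) :
    ps n K (MvPolynomial.monomial u c)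
      = PowerSeries.C (MvPolynomial.monomial u c) * PowerSeries.X ^ (Finsupp.degree u) := by
  unfold ps
  rw [MvPolynomial.aeval_monomial, MvPolynomial.monomial_eq, PowerSeries.algebraMap_apply, map_mul]
  have h1 : (u.prod fun i k => (PowerSeries.C (MvPolynomial.X i : MvPolynomial (Fin n) K)
      * PowerSeries.X) ^ k)
      = PowerSeries.C (u.prod fun i k => (MvPolynomial.X i : MvPolynomial (Fin n) K) ^ k)
        * PowerSeries.X ^ (Finsupp.degree u) := by
    rw [Finsupp.prod, Finsupp.prod, map_prod, Finsupp.degree_apply, ← Finset.prod_pow_eq_pow_sum,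
      ← Finset.prod_mul_distrib]
    apply Finset.prod_congr rfl
    intro i _
    rw [mul_pow, map_pow]
  rw [h1, mul_assoc]
  rfl

theorem coeff_ps (h : Pl n K) (u : Fin n →₀ ℕ) :
    MvPolynomial.coeff u (PowerSeries.coeff (Finsupp.degree u) (ps n K h))
      = MvPolynomial.coeff u h := by
  classical
  induction h using MvPolynomial.induction_on' with
  | monomial v c =>
    rw [ps_monomial, PowerSeries.coeff_C_mul, PowerSeries.coeff_X_pow]
    by_cases hd : Finsupp.degree u = Finsupp.degree v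
    · rw [if_pos hd, mul_one]
    · rw [if_neg hd, mul_zero, MvPolynomial.coeff_zero, MvPolynomial.coeff_monomial, if_neg]
      intro h
      exact hd (by rw [h])
  | add p q hp hq =>
    rw [map_add, map_add, MvPolynomial.coeff_add, MvPolynomial.coeff_add, hp, hq]

theorem mem_of_dvd (m : ℕ) (h : Pl n K) (hd : PowerSeries.X ^ m ∣ ps n K h) :
    h ∈ MvPolynomial.idealOfVars (Fin n) K ^ m := by
  rw [MvPolynomial.mem_pow_idealOfVars_iff']
  intro u hu
  rw [PowerSeries.X_pow_dvd_iff] at hd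
  rw [← coeff_ps, hd _ hu, MvPolynomial.coeff_zero]

/-- Translation. -/
noncomputable def tr (x : Fin n → K) : Pl n K →ₐ[K] Pl n K :=
  MvPolynomial.aeval fun a => MvPolynomial.X a + MvPolynomial.C (x a)

/-- The inverse translation. -/
noncomputable def tr' (x : Fin n → K) : Pl n K →ₐ[K] Pl n K :=
  MvPolynomial.aeval fun a => MvPolynomial.X a - MvPolynomial.C (x a)

theorem tr'_tr (x : Fin n → K) (g : Pl n K) : tr' x (tr x g) = g := by
  have : (tr' x).comp (tr x) = AlgHom.id K (Pl n K) := by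
    apply MvPolynomial.algHom_ext
    intro i
    rw [AlgHom.comp_apply, tr, MvPolynomial.aeval_X, map_add, tr', MvPolynomial.aeval_X,
      MvPolynomial.aeval_C, AlgHom.id_apply, MvPolynomial.algebraMap_eq, sub_add_cancel]
  exact DFunLike.congr_fun this g

theorem tr'_mem (x : Fin n → K) (m : ℕ) (h : Pl n K) (hm : h ∈ MvPolynomial.idealOfVars (Fin n) K ^ m) :
    tr' x h ∈ RingHom.ker (MvPolynomial.eval x) ^ m := by
  have h1 : Ideal.map (tr' x) (MvPolynomial.idealOfVars (Fin n) K)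
      ≤ RingHom.ker (MvPolynomial.eval x) := by
    rw [MvPolynomial.idealOfVars, Ideal.map_span, Ideal.span_le]
    rintro _ ⟨_, ⟨i, rfl⟩, rfl⟩
    rw [SetLike.mem_coe, RingHom.mem_ker, tr', MvPolynomial.aeval_X, map_sub, MvPolynomial.eval_X,
      MvPolynomial.eval_C, sub_self]
  have h2 : tr' x h ∈ Ideal.map (tr' x) (MvPolynomial.idealOfVars (Fin n) K ^ m) :=
    Ideal.mem_map_of_mem _ hm
  rw [Ideal.map_pow] at h2
  exact Ideal.pow_right_mono h1 m h2

theorem gam_eq (c : ℕ) (β : Fin c → Fin n) (x : Fin n → K)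
    (γ : Pl n K →ₐ[K] PowerSeries (MvPolynomial (Fin n) K))
    (h : ∀ a, a ∉ Set.range β → γ (MvPolynomial.X a) =
        PowerSeries.C (MvPolynomial.C (x a)) + PowerSeries.C (MvPolynomial.X a) * PowerSeries.X)
    (g : Pl n K) (hg : g ∈ MvPolynomial.supported K (Set.range β)ᶜ) :
    γ g = ps n K (tr x g) := by
  have h1 : Set.EqOn γ ((ps n K).comp (tr x)) (MvPolynomial.X '' (Set.range β)ᶜ) := by
    rintro _ ⟨a, ha, rfl⟩
    rw [h a ha, AlgHom.comp_apply, tr, MvPolynomial.aeval_X, map_add, ps, MvPolynomial.aeval_X,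
      MvPolynomial.aeval_C, PowerSeries.algebraMap_apply, MvPolynomial.algebraMap_eq, add_comm]
  have h2 := AlgHom.adjoin_le_equalizer γ ((ps n K).comp (tr x)) h1
  exact h2 hg

theorem dvd_of_mem (x : Fin n → K) (γ : Pl n K →ₐ[K] PowerSeries (MvPolynomial (Fin n) K))
    (h : ∀ G, PowerSeries.constantCoeff (γ G) = MvPolynomial.C (MvPolynomial.eval x G)) (m : ℕ)
    (b : Pl n K) (hb : b ∈ RingHom.ker (MvPolynomial.eval x) ^ m) :
    PowerSeries.X ^ m ∣ γ b := by
  have h1 : Ideal.map γ (RingHom.ker (MvPolynomial.eval x)) ≤ Ideal.span {PowerSeries.X} := by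
    rw [Ideal.map_le_iff_le_comap]
    intro G hG
    rw [Ideal.mem_comap, Ideal.mem_span_singleton, PowerSeries.X_dvd_iff, h]
    rw [RingHom.mem_ker] at hG
    rw [hG, map_zero]
  have h2 : γ b ∈ Ideal.map γ (RingHom.ker (MvPolynomial.eval x) ^ m) := Ideal.mem_map_of_mem _ hb
  rw [Ideal.map_pow] at h2
  have h3 := Ideal.pow_right_mono h1 m h2
  rwa [Ideal.span_singleton_pow, Ideal.mem_span_singleton] at h3

end A4M

theorem tA4 (h3 : StmtA3) : StmtA4 := by
  intro K _ n c P β x hβ hP hgr γ hγP hγX hγc G hG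
  set 𝔪 : Ideal (Pl n K) := RingHom.ker (MvPolynomial.eval x) with h𝔪
  set I : Ideal (Pl n K) := Ideal.span (Set.range P) with hI
  have hIγ : ∀ a ∈ I, γ a = 0 := by
    intro a ha
    have h1 : I ≤ RingHom.ker γ := by
      rw [hI, Ideal.span_le]
      rintro _ ⟨j, rfl⟩
      exact hγP j
    exact h1 ha
  have hall : ∀ m : ℕ, G ∈ I ⊔ 𝔪 ^ m := by
    intro m
    obtain ⟨g, hg, hGg⟩ := h3 K n c P β x hβ hP hgr m G
    obtain ⟨a, ha, b, hb, hab⟩ := Submodule.mem_sup.mp hGg
    have hγg : PowerSeries.X ^ m ∣ γ g := by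
      have h4 : γ g = - γ b := by
        have h5 : G - g = a + b := hab.symm
        have h6 := congrArg γ h5
        rw [map_sub, map_add, hG, hIγ a ha, zero_sub, zero_add] at h6
        rw [← h6, neg_neg]
      rw [h4]
      exact (A4M.dvd_of_mem x γ hγc m b hb).neg_right
    rw [A4M.gam_eq c β x γ hγX g hg] at hγg
    have h7 : g ∈ 𝔪 ^ m := by
      have := A4M.tr'_mem x m _ (A4M.mem_of_dvd m _ hγg)
      rwa [A4M.tr'_tr] at this
    have h8 : G = a + (b + g) := by
      have h5 : G - g = a + b := hab.symm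
      rw [← add_assoc, ← h5, sub_add_cancel]
    rw [h8]
    exact Submodule.add_mem_sup ha (Ideal.add_mem _ hb h7)
  have hx : (Ideal.Quotient.mk I G : Pl n K ⧸ I) ∈
      (⨅ i : ℕ, 𝔪 ^ i • (⊤ : Submodule (Pl n K) (Pl n K ⧸ I))) := by
    rw [Submodule.mem_iInf]
    intro i
    obtain ⟨a, ha, b, hb, hab⟩ := Submodule.mem_sup.mp (hall i)
    have h1 : (Ideal.Quotient.mk I G : Pl n K ⧸ I) = b • (1 : Pl n K ⧸ I) := by
      have h9 : b • (1 : Pl n K ⧸ I) = Ideal.Quotient.mk I (b * 1) := rfl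
      rw [← hab, map_add, Ideal.Quotient.eq_zero_iff_mem.mpr ha, zero_add, h9, mul_one]
    rw [h1]
    exact Submodule.smul_mem_smul hb Submodule.mem_top
  obtain ⟨r, hr⟩ := (Ideal.mem_iInf_smul_pow_eq_bot_iff 𝔪 _).mp hx
  refine ⟨1 - (r : Pl n K), ?_, ?_⟩
  · have hr0 : MvPolynomial.eval x (r : Pl n K) = 0 := r.2
    rw [map_sub, map_one, hr0, sub_zero]
    exact one_ne_zero
  · rw [← Ideal.Quotient.eq_zero_iff_mem, map_mul, map_sub, map_one, sub_mul, one_mul]
    have h2 : ((r : Pl n K) • (Ideal.Quotient.mk I G : Pl n K ⧸ I))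
        = Ideal.Quotient.mk I (r : Pl n K) * Ideal.Quotient.mk I G := rfl
    rw [← h2, hr, sub_self]

end Pool.Agent.Lib.MP_16285c_agN
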