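import Pool.Agent.Lib.MP_16285c_agN.SpecR

/-!
# Arcs through a smooth point of a subvariety
-/

set_option autoImplicit false

namespace Pool.Agent.Lib.MP_16285c_agN

namespace ArcM

/-- The gradients are independent if some columns form the identity matrix. -/
theorem indep {K : Type} [Field K] {n c : ℕ} (P : Fin c → Pl n K) (β : Fin c → Fin n)
    (x : Fin n → K) (h : ∀ j l, grad (P j) x (β l) = if l = j then 1 else 0) :
    LinearIndependent K fun j => grad (P j) x := by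
  rw [Fintype.linearIndependent_iff]
  intro a ha l
  have h1 := congrFun ha (β l)
  simp only [Finset.sum_apply, Pi.smul_apply, smul_eq_mul, h, mul_ite, mul_one, mul_zero,
    Finset.sum_ite_eq, Finset.mem_univ, if_true, Pi.zero_apply] at h1
  exact h1

/-- The composition of an arc with the evaluation of the coefficients at a point. -/
theorem spec {K : Type} [Field K] {n : ℕ} (γ : Pl n K →ₐ[K] PowerSeries (MvPolynomial (Fin n) K))
    (w : Fin n → K) : ∃ δ : Pl n K →ₐ[K] PowerSeries K, ∀ G,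
      δ G = PowerSeries.map (MvPolynomial.eval w) (γ G) := by
  refine ⟨{ toRingHom := (PowerSeries.map (MvPolynomial.eval w)).comp γ.toRingHom
            commutes' := ?_ }, fun G => rfl⟩
  intro r
  change PowerSeries.map (MvPolynomial.eval w) (γ (algebraMap K (Pl n K) r)) = _
  rw [γ.commutes, PowerSeries.algebraMap_apply, PowerSeries.algebraMap_apply]
  rw [PowerSeries.map_C]
  congr 1
  simp [MvPolynomial.algebraMap_eq]

end ArcM

theorem tArc (h1 : StmtA1) (h2 : StmtA2) (h4 : StmtA4) (hr2 : StmtRk2) (hr4 : StmtRk4) :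
    StmtArc := by
  intro K _ _ n 𝔭 _ x hx hGr d hd
  obtain ⟨P, β, hβ, hP, hgr⟩ := h1 K n (n - rk 𝔭) 𝔭 x hGr
  have hP0 : ∀ j, MvPolynomial.eval x (P j) = 0 := fun j => hx _ (hP j)
  obtain ⟨γ, hγP, hγX, hγ0⟩ := h2 K n (n - rk 𝔭) P β x hβ hP0 hgr
  let 𝔮 : Ideal (Pl n K) := RingHom.ker γ
  have hq : 𝔮.IsPrime := RingHom.ker_isPrime γ
  have hmem : ∀ G : Pl n K, G ∈ 𝔮 ↔ γ G = 0 := fun G => RingHom.mem_ker
  have hle : 𝔮 ≤ 𝔭 := by
    intro G hG
    obtain ⟨u, hu, huG⟩ :=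
      h4 K n (n - rk 𝔭) P β x hβ hP0 hgr γ hγP hγX hγ0 G ((hmem G).1 hG)
    have h5 : u * G ∈ 𝔭 := by
      refine (Ideal.span_le.2 ?_) huG
      rintro _ ⟨j, rfl⟩
      exact hP j
    rcases (Ideal.IsPrime.mem_or_mem ‹𝔭.IsPrime› h5) with h6 | h6
    · exact absurd (hx u h6) hu
    · exact h6
  have hqx : ∀ G ∈ 𝔮, MvPolynomial.eval x G = 0 := by
    intro G hG
    have h5 := hγ0 G
    rw [(hmem G).1 hG, map_zero] at h5
    exact (MvPolynomial.C_injective (Fin n) K) (by rw [← h5, map_zero])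
  have hGq : Grd 𝔮 x (n - rk 𝔭) :=
    ⟨P, fun j => (hmem _).2 (hγP j), ArcM.indep P β x hgr⟩
  have h5 : rk 𝔮 + (n - rk 𝔭) ≤ n := hr4 K n 𝔮 x (n - rk 𝔭) hqx hGq
  have h6 : rk 𝔭 ≤ n := hr2.2.1 K n 𝔭
  have h7 : 𝔮 = 𝔭 := by
    rcases eq_or_lt_of_le hle with h | h
    · exact h
    · have h8 := hr2.2.2.2 K n 𝔮 𝔭 h
      omega
  have hγd : γ d ≠ 0 := by
    intro h
    exact hd (h7 ▸ (hmem d).2 h)
  obtain ⟨j, hj⟩ : ∃ j, PowerSeries.coeff j (γ d) ≠ 0 := by
    by_contra h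
    push Not at h
    exact hγd (PowerSeries.ext fun j => by rw [h j, map_zero])
  obtain ⟨w, hw⟩ : ∃ w : Fin n → K, MvPolynomial.eval w (PowerSeries.coeff j (γ d)) ≠ 0 := by
    by_contra h
    push Not at h
    exact hj (MvPolynomial.funext fun w => by rw [h w, map_zero])
  obtain ⟨δ, hδ⟩ := ArcM.spec γ w
  refine ⟨δ, ?_, ?_, ?_⟩
  · intro G hG
    rw [hδ, (hmem G).1 (h7 ▸ hG), map_zero]
  · intro h
    apply hw
    rw [← PowerSeries.coeff_map, ← hδ, h, map_zero]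
  · intro G
    rw [hδ, ← PowerSeries.coeff_zero_eq_constantCoeff_apply, PowerSeries.coeff_map,
      PowerSeries.coeff_zero_eq_constantCoeff_apply, hγ0, MvPolynomial.eval_C]

end Pool.Agent.Lib.MP_16285c_agN
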