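import Pool.Agent.Lib.MP_16285c_agN.SpecR

/-!
# Proof of `StmtI1`
-/

set_option autoImplicit false

namespace Pool.Agent.Lib.MP_16285c_agN

namespace I1M

open Polynomial

/-- Lifting of `φ d * B₀`, `B₀` monic. -/
theorem lift {A L : Type} [CommRing A] [Field L] (φ : A →+* L) (B₀ : L[X]) (hB : B₀.Monic) (d : A)
    (hd : φ d ≠ 0) (h : ∀ i, ∃ g : A, φ g = φ d * B₀.coeff i) :
    ∃ B : A[X], B.map φ = C (φ d) * B₀ ∧ B.natDegree = B₀.natDegree ∧ B.leadingCoeff = d := by
  classical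
  choose g hg using h
  set m := B₀.natDegree with hm
  let g' : ℕ → A := fun i => if i = m then d else g i
  let B : A[X] := ∑ i ∈ Finset.range (m + 1), monomial i (g' i)
  have hc : ∀ i, B.coeff i = if i ≤ m then g' i else 0 := by
    intro i
    simp only [B, Polynomial.finset_sum_coeff, Polynomial.coeff_monomial]
    rw [Finset.sum_ite_eq' (Finset.range (m + 1)) i]
    simp only [Finset.mem_range, Nat.lt_succ_iff]
  have hd0 : d ≠ 0 := by
    intro h0
    exact hd (by rw [h0, map_zero])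
  have hcm : B.coeff m = d := by
    rw [hc, if_pos le_rfl]
    simp only [g', if_pos rfl]
  have hnd : B.natDegree = m := by
    apply le_antisymm
    · rw [Polynomial.natDegree_le_iff_coeff_eq_zero]
      intro N hN
      rw [hc, if_neg (by omega)]
    · exact Polynomial.le_natDegree_of_ne_zero (by rw [hcm]; exact hd0)
  refine ⟨B, ?_, hnd, ?_⟩
  · ext i
    rw [Polynomial.coeff_map, Polynomial.coeff_C_mul, hc]
    by_cases hi : i ≤ m
    · rw [if_pos hi]
      by_cases him : i = m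
      · simp only [g', if_pos him]
        rw [him, hm]
        have : B₀.coeff B₀.natDegree = 1 := hB
        rw [this, mul_one]
      · simp only [g', if_neg him]
        exact hg i
    · rw [if_neg hi, map_zero, Polynomial.coeff_eq_zero_of_natDegree_lt (by omega), mul_zero]
  · rw [Polynomial.leadingCoeff, hnd, hcm]

end I1M

open Polynomial in
theorem tI1 : StmtI1 := by
  classical
  intro K _ n 𝔭 _ L _ _ _ F hF hF1 hirr
  set φ : Pl n K →+* L := (algebraMap (CR 𝔭) L).comp (Ideal.Quotient.mk 𝔭) with hφ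
  have hinj : Function.Injective (algebraMap (CR 𝔭) L) := IsFractionRing.injective (CR 𝔭) L
  have hφ0 : ∀ a : Pl n K, φ a = 0 → a ∈ 𝔭 := by
    intro a ha
    have h1 : algebraMap (CR 𝔭) L (Ideal.Quotient.mk 𝔭 a) = 0 := ha
    have h2 : Ideal.Quotient.mk 𝔭 a = 0 := hinj (by rw [h1, map_zero])
    exact Ideal.Quotient.eq_zero_iff_mem.mp h2
  have hm : (F.map φ).Monic := hF.map φ
  have hnd : (F.map φ).natDegree = F.natDegree := hF.natDegree_map φ
  have hne1 : F.map φ ≠ 1 := by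
    intro h1
    have : (F.map φ).natDegree = 0 := by rw [h1, Polynomial.natDegree_one]
    omega
  rw [hm.irreducible_iff_natDegree] at hirr
  push Not at hirr
  obtain ⟨B₀, C₀, hB₀, hC₀, hBC, hB1, hC1⟩ := hirr hne1
  obtain ⟨b, hb⟩ := IsLocalization.exist_integer_multiples_of_finset (nonZeroDivisors (CR 𝔭))
    (B₀.coeffs ∪ C₀.coeffs)
  obtain ⟨d, hd⟩ := Ideal.Quotient.mk_surjective (b : CR 𝔭)
  have hb0 : (b : CR 𝔭) ≠ 0 := nonZeroDivisors.ne_zero b.2
  have hd𝔭 : d ∉ 𝔭 := by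
    intro h
    apply hb0
    rw [← hd]
    exact Ideal.Quotient.eq_zero_iff_mem.mpr h
  have hφd : φ d ≠ 0 := fun h => hd𝔭 (hφ0 d h)
  have key : ∀ a : L, a ∈ B₀.coeffs ∪ C₀.coeffs → ∃ g : Pl n K, φ g = φ d * a := by
    intro a ha
    obtain ⟨r, hr⟩ := hb a ha
    obtain ⟨g, hg⟩ := Ideal.Quotient.mk_surjective r
    refine ⟨g, ?_⟩
    have h1 : φ g = algebraMap (CR 𝔭) L r := by
      rw [← hg]; rfl
    have h2 : φ d = algebraMap (CR 𝔭) L b := by
      rw [← hd]; rfl
    rw [h1, h2, hr, Algebra.smul_def]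
  have keyB : ∀ (Q : L[X]), Q.coeffs ⊆ B₀.coeffs ∪ C₀.coeffs → ∀ i, ∃ g : Pl n K, φ g = φ d * Q.coeff i := by
    intro Q hQ i
    by_cases h0 : Q.coeff i = 0
    · exact ⟨0, by rw [h0, map_zero, mul_zero]⟩
    · exact key _ (hQ (Polynomial.coeff_mem_coeffs h0))
  obtain ⟨B, hBm, hBd, hBl⟩ := I1M.lift φ B₀ hB₀ d hφd (keyB B₀ Finset.subset_union_left)
  obtain ⟨C', hCm, hCd, hCl⟩ := I1M.lift φ C₀ hC₀ d hφd (keyB C₀ Finset.subset_union_right)
  refine ⟨d, B, C', hd𝔭, by omega, by omega, ?_, hBl, hCl, ?_⟩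
  · rw [hBd, hCd, ← hnd, ← hBC, hB₀.natDegree_mul hC₀]
  · intro i
    apply hφ0
    have h0 : (C (d ^ 2) * F - B * C').map φ = 0 := by
      rw [Polynomial.map_sub, Polynomial.map_mul, Polynomial.map_mul, Polynomial.map_C, hBm, hCm, ← hBC,
        map_pow, C_pow]
      ring
    have := congrArg (fun Q : L[X] => Q.coeff i) h0
    simp only [Polynomial.coeff_map, Polynomial.coeff_zero] at this
    exact this

end Pool.Agent.Lib.MP_16285c_agN
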