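import Pool.Agent.Lib.MP_16285c_agN.SpecR

/-!
# Proof of `StmtI2`
-/

set_option autoImplicit false

namespace Pool.Agent.Lib.MP_16285c_agN

namespace I2M

open Polynomial

/-- A factor with leading coefficient `δ` of `δ² F`, `F` monic, is `δ` times a monic polynomial. -/
theorem descend {R : Type} [CommRing R] [IsDomain R] [IsIntegrallyClosed R] (F B C₀ : R[X]) (δ : R)
    (hF : F.Monic) (hδ : δ ≠ 0) (hB : B.leadingCoeff = δ) (h : C (δ ^ 2) * F = B * C₀) :
    ∃ B' : R[X], B'.Monic ∧ B' * C δ = B := by
  let L := FractionRing R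
  have hinj : Function.Injective (algebraMap R L) := IsFractionRing.injective R L
  have hδL : algebraMap R L δ ≠ 0 := by
    intro h0
    exact hδ (hinj (by rw [h0, map_zero]))
  have hdvd : B.map (algebraMap R L) ∣ F.map (algebraMap R L) := by
    have h1 : C ((algebraMap R L δ) ^ 2) * F.map (algebraMap R L)
        = B.map (algebraMap R L) * C₀.map (algebraMap R L) := by
      have := congrArg (Polynomial.map (algebraMap R L)) h
      rw [Polynomial.map_mul, Polynomial.map_mul, Polynomial.map_C, map_pow] at this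
      exact this
    refine ⟨C (((algebraMap R L δ) ^ 2)⁻¹) * C₀.map (algebraMap R L), ?_⟩
    rw [mul_left_comm, ← h1, ← mul_assoc, ← C_mul, inv_mul_cancel₀ (pow_ne_zero 2 hδL), C_1,
      one_mul]
  obtain ⟨B', hB'⟩ := IsIntegrallyClosed.eq_map_mul_C_of_dvd L hF hdvd
  have hlc : (B.map (algebraMap R L)).leadingCoeff = algebraMap R L δ := by
    rw [Polynomial.leadingCoeff_map_of_injective hinj, hB]
  rw [hlc] at hB'
  have hBB : B' * C δ = B := by
    apply Polynomial.map_injective _ hinj
    rw [Polynomial.map_mul, Polynomial.map_C, hB']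
  refine ⟨B', ?_, hBB⟩
  have h2 : B'.leadingCoeff * δ = δ := by
    have := congrArg Polynomial.leadingCoeff hBB
    rw [Polynomial.leadingCoeff_mul, Polynomial.leadingCoeff_C, hB] at this
    exact this
  exact mul_right_cancel₀ hδ (by rw [h2, one_mul])

end I2M

open Polynomial in
theorem tI2 : StmtI2 := by
  intro K _ F B C₀ δ hF hδ hB1 hC1 hB hC h hirr
  obtain ⟨B', hB'm, hB'⟩ := I2M.descend F B C₀ δ hF hδ hB h
  obtain ⟨C', hC'm, hC'⟩ := I2M.descend F C₀ B δ hF hδ hC (by rw [h, mul_comm])
  have hδC : (C δ : (PowerSeries K)[X]) ≠ 0 := by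
    rwa [Ne, Polynomial.C_eq_zero]
  have hFBC : F = B' * C' := by
    have h3 : C (δ ^ 2) * F = C (δ ^ 2) * (B' * C') := by
      rw [h, ← hB', ← hC', C_pow]
      ring
    exact mul_left_cancel₀ (by rw [C_pow]; exact pow_ne_zero 2 hδC) h3
  have hdB : B'.natDegree = B.natDegree := by
    rw [← hB', Polynomial.natDegree_mul hB'm.ne_zero hδC, Polynomial.natDegree_C, add_zero]
  have hdC : C'.natDegree = C₀.natDegree := by
    rw [← hC', Polynomial.natDegree_mul hC'm.ne_zero hδC, Polynomial.natDegree_C, add_zero]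
  have h4 : F.map (PowerSeries.constantCoeff (R := K))
      = B'.map (PowerSeries.constantCoeff (R := K)) * C'.map (PowerSeries.constantCoeff (R := K)) := by
    rw [hFBC, Polynomial.map_mul]
  have h5 := hirr.isUnit_or_isUnit h4
  rcases h5 with h5 | h5
  · have := Polynomial.natDegree_eq_zero_of_isUnit h5
    rw [hB'm.natDegree_map] at this
    omega
  · have := Polynomial.natDegree_eq_zero_of_isUnit h5
    rw [hC'm.natDegree_map] at this
    omega

end Pool.Agent.Lib.MP_16285c_agN
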