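import Pool.Agent.Lib.MP_16285c_agN.SpecR

/-!
# Irreducibility at a smooth point

Proof of `StmtIrr` from `StmtArc`, `StmtI1`, `StmtI2`.
-/

set_option autoImplicit false

namespace Pool.Agent.Lib.MP_16285c_agN

open Pool.Agent.Lib.MP_16285c_ag

namespace IrrM

/-- A monic polynomial with an irreducible image has positive degree. -/
theorem one_le_natDegree {R S : Type} [CommRing R] [Nontrivial R] [CommRing S]
    (φ : R →+* S) (F : Polynomial R) (hF : F.Monic) (hirr : Irreducible (F.map φ)) :
    1 ≤ F.natDegree := by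
  rcases Nat.eq_zero_or_pos F.natDegree with h0 | h0
  · exfalso
    have hF1 : F = 1 := hF.natDegree_eq_zero.mp h0
    rw [hF1, Polynomial.map_one] at hirr
    exact hirr.not_isUnit isUnit_one
  · exact h0

/-- Multiplication of the equation by a ring homomorphism. -/
theorem map_key {R S : Type} [CommRing R] [CommRing S] (g : R →+* S) (d : R)
    (F B C : Polynomial R) (h : ∀ i, g ((Polynomial.C (d ^ 2) * F - B * C).coeff i) = 0) :
    Polynomial.C ((g d) ^ 2) * F.map g = B.map g * C.map g := by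
  have h0 : ((Polynomial.C (d ^ 2) * F - B * C).map g) = 0 := by
    ext i
    rw [Polynomial.coeff_map, Polynomial.coeff_zero]
    exact h i
  rw [Polynomial.map_sub, Polynomial.map_mul, Polynomial.map_mul, Polynomial.map_C,
    map_pow] at h0
  exact sub_eq_zero.mp h0

end IrrM

open IrrM in
theorem tIrr (ha : StmtArc) (h1 : StmtI1) (h2 : StmtI2) : StmtIrr := by
  intro K _ _ n 𝔭 _ x hx hg L _ _ _ F hF hirr
  have hdeg : 1 ≤ F.natDegree := one_le_natDegree (MvPolynomial.eval x) F hF hirr
  by_contra hne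
  obtain ⟨d, B, C, hd, hB, hC, _, hlB, hlC, hco⟩ := h1 K n 𝔭 L F hF hdeg hne
  obtain ⟨γ, hγ0, hγd, hγc⟩ := ha K n 𝔭 x hx hg d hd
  have key : Polynomial.C (((γ : Pl n K →+* PowerSeries K) d) ^ 2) *
      F.map (γ : Pl n K →+* PowerSeries K) =
      B.map (γ : Pl n K →+* PowerSeries K) * C.map (γ : Pl n K →+* PowerSeries K) :=
    map_key (γ : Pl n K →+* PowerSeries K) d F B C (fun i => hγ0 _ (hco i))
  have hd0 : (γ : Pl n K →+* PowerSeries K) d ≠ 0 := hγd
  have hB0 : (γ : Pl n K →+* PowerSeries K) B.leadingCoeff ≠ 0 := by rw [hlB]; exact hγd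
  have hC0 : (γ : Pl n K →+* PowerSeries K) C.leadingCoeff ≠ 0 := by rw [hlC]; exact hγd
  have hnB : (B.map (γ : Pl n K →+* PowerSeries K)).natDegree = B.natDegree :=
    Polynomial.natDegree_map_of_leadingCoeff_ne_zero _ hB0
  have hnC : (C.map (γ : Pl n K →+* PowerSeries K)).natDegree = C.natDegree :=
    Polynomial.natDegree_map_of_leadingCoeff_ne_zero _ hC0
  have hleB : (B.map (γ : Pl n K →+* PowerSeries K)).leadingCoeff =
      (γ : Pl n K →+* PowerSeries K) d := by
    rw [Polynomial.leadingCoeff_map_of_leadingCoeff_ne_zero _ hB0, hlB]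
  have hleC : (C.map (γ : Pl n K →+* PowerSeries K)).leadingCoeff =
      (γ : Pl n K →+* PowerSeries K) d := by
    rw [Polynomial.leadingCoeff_map_of_leadingCoeff_ne_zero _ hC0, hlC]
  have hcomp : (PowerSeries.constantCoeff (R := K)).comp (γ : Pl n K →+* PowerSeries K) =
      MvPolynomial.eval x := RingHom.ext (fun G => hγc G)
  refine h2 K (F.map (γ : Pl n K →+* PowerSeries K)) (B.map (γ : Pl n K →+* PowerSeries K))
    (C.map (γ : Pl n K →+* PowerSeries K)) ((γ : Pl n K →+* PowerSeries K) d) (hF.map _) hd0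
    (by rw [hnB]; exact hB) (by rw [hnC]; exact hC) hleB hleC key ?_
  rw [Polynomial.map_map, hcomp]
  exact hirr

end Pool.Agent.Lib.MP_16285c_agN
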