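import Pool.Agent.Lib.MP_16285c_agN.SpecG

set_option autoImplicit false

/-!
# MP_16285c_ag, project ZDO2: points which are not fixed
-/

namespace Pool.Agent.Lib.MP_16285c_agN

namespace MoveM

theorem gen_not_const {n : ℕ} {K : Type} [Field K] (i : Fin n) (c : K) :
    gen n K i ≠ algebraMap K (RF n K) c := by
  intro h
  have h1 : fr (MvPolynomial.X i : Pl n K) = fr (MvPolynomial.C c : Pl n K) := by
    unfold gen at h
    rw [h, IsScalarTower.algebraMap_apply K (MvPolynomial (Fin n) K)
      (FractionRing (MvPolynomial (Fin n) K)), MvPolynomial.algebraMap_eq]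
  have h2 : (MvPolynomial.X i : Pl n K) = MvPolynomial.C c :=
    IsFractionRing.injective (MvPolynomial (Fin n) K) (FractionRing (MvPolynomial (Fin n) K)) h1
  have h3 := congrArg (MvPolynomial.eval (fun _ : Fin n => c + 1)) h2
  rw [MvPolynomial.eval_X, MvPolynomial.eval_C] at h3
  have h4 : (1 : K) = 0 := by linear_combination h3
  exact one_ne_zero h4

end MoveM

theorem tMove : StmtMove := by
  intro K _ n ρ hn hρ
  set i : Fin n := ⟨0, hn⟩ with hi
  have hne : ρ (gen n K i) ≠ gen n K i := by
    intro h
    obtain ⟨c, hc⟩ := hρ _ h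
    exact MoveM.gen_not_const i c hc
  obtain ⟨N, E, hE, hNE⟩ := IsFractionRing.div_surjective (A := MvPolynomial (Fin n) K)
    (ρ (gen n K i))
  have hE0 : E ≠ 0 := nonZeroDivisors.ne_zero hE
  have hfE : fr E ≠ 0 := by
    intro h
    exact hE0 ((IsFractionRing.injective (MvPolynomial (Fin n) K)
      (FractionRing (MvPolynomial (Fin n) K))) (h.trans (map_zero _).symm))
  have hρE : ρ (gen n K i) * fr E = fr N := by
    rw [← hNE]
    exact div_mul_cancel₀ _ hfE
  refine ⟨N - MvPolynomial.X i * E, ?_, ?_⟩
  · intro h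
    apply hne
    have h1 : N = MvPolynomial.X i * E := sub_eq_zero.1 h
    have h2 : ρ (gen n K i) * fr E = gen n K i * fr E := by
      rw [hρE, h1]
      exact map_mul _ _ _
    exact mul_right_cancel₀ hfE h2
  · intro x x' hval hG hx
    subst hx
    obtain ⟨E', N', hE', hN', hev⟩ := hval (MvPolynomial.X i)
    have h1 : fr (N * E') = fr (N' * E) := by
      have h2 : fr N * fr E' = fr N' * fr E := by
        rw [hN', ← hρE]
        show ρ (gen n K i) * fr E * fr E' = fr E' * ρ (gen n K i) * fr E
        ring
      rw [← map_mul, ← map_mul] at h2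
      exact h2
    have h2 : N * E' = N' * E := IsFractionRing.injective (MvPolynomial (Fin n) K)
      (FractionRing (MvPolynomial (Fin n) K)) h1
    have h3 := congrArg (MvPolynomial.eval x') h2
    rw [map_mul, map_mul, hev, MvPolynomial.eval_X] at h3
    apply hG
    rw [map_sub, map_mul, MvPolynomial.eval_X]
    have h4 : MvPolynomial.eval x' E' *
        (MvPolynomial.eval x' N - x' i * MvPolynomial.eval x' E) = 0 := by
      linear_combination h3
    exact (mul_eq_zero.1 h4).resolve_left hE'

end Pool.Agent.Lib.MP_16285c_agN
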