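import Pool.Agent.Lib.MP_16285c_agN.SpecG

/-!
# The local ring of the closure of the orbit is preserved
-/

set_option autoImplicit false

namespace Pool.Agent.Lib.MP_16285c_agN

open Pool.Agent.Lib.MP_16285c_ag

/-- (P1) The local ring of the closure of the orbit is preserved. -/
theorem tPres (hv : StmtVal) : StmtPres := by
  intro K _ n ρ z N N' p p' hp hp' hne hN hN' hval H
  obtain ⟨E, N₁, hE, hN₁, -⟩ := hval 0 H
  have key : ∀ t, MvPolynomial.eval (z (N * N' * t)) N₁ =
      MvPolynomial.eval (z (N * N' * t)) E * MvPolynomial.eval (z (N * N' * (t + 1))) H :=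
    fun t => hv.2 K n ρ _ _ H E N₁ (hval t) hN₁
  refine ⟨E, N₁, fun h => hE (h 0), hN₁, ?_, ?_⟩
  · intro h t
    rw [key t, h (t + 1), mul_zero]
  · intro h
    by_contra hH
    obtain ⟨t₀, ht₀⟩ : ∃ t₀ : ℕ, MvPolynomial.eval (z (N * N' * t₀)) H ≠ 0 := by
      by_contra hcon
      push Not at hcon
      exact hH hcon
    obtain ⟨J, hJ⟩ := hN H (N * N' * t₀) ht₀
    obtain ⟨J', hJ'⟩ := hN' E (N * N' * 0) hE
    obtain ⟨t, s, s', hs, hs'⟩ := Pool.Agent.ZDO.crt_aux p p' J J' t₀ 1 hp hp' hne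
    have h3 := hJ (N' * s)
    have h4 := hJ' (N * s')
    have h5 : N * N' * t₀ + N * p ^ J * (N' * s) = N * N' * (p' ^ J' * s' + 1) := by
      have e : p' ^ J' * s' + 1 = t₀ + p ^ J * s := by rw [← hs, hs']; ring
      rw [e]
      ring
    have h6 : N * N' * 0 + N' * p' ^ J' * (N * s') = N * N' * (p' ^ J' * s') := by ring
    rw [h5] at h3
    rw [h6] at h4
    have h7 := h (p' ^ J' * s')
    rw [key] at h7
    exact mul_ne_zero h4 h3 h7

end Pool.Agent.Lib.MP_16285c_agN
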