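import Pool.Agent.Lib.MP_16285c_agN.SpecG

/-!
# The primitive element (proof of `StmtPrim`)
-/

set_option autoImplicit false

namespace Pool.Agent.Lib.MP_16285c_agN.PrimM

open Polynomial

/-- The primitive element, transported to `E`. -/
theorem exists_min (k E : Type) [Field k] [Field E] [CharZero E] [Algebra k E] (ρ : E →ₐ[k] E)
    (h1 : 1 ≤ Module.finrank ρ.fieldRange E) :
    ∃ (μ : Polynomial E) (θ : E), μ.Monic ∧ μ.natDegree = Module.finrank ρ.fieldRange E ∧
      Irreducible μ ∧ Polynomial.eval₂ (ρ : E →+* E) θ μ = 0 := by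
  have hfin : Module.Finite ρ.fieldRange E := Module.finite_of_finrank_pos (by omega)
  obtain ⟨θ, hθ⟩ := Field.exists_primitive_element ρ.fieldRange E
  have hint : IsIntegral ρ.fieldRange θ := IsIntegral.of_finite _ _
  have hdeg : (minpoly ρ.fieldRange θ).natDegree = Module.finrank ρ.fieldRange E :=
    (Field.primitive_element_iff_minpoly_natDegree_eq ρ.fieldRange θ).1 hθ
  have hmem : ∀ x : E, (ρ : E →+* E) x ∈ ρ.fieldRange := fun x => ⟨x, rfl⟩
  let e₀ : E →+* ρ.fieldRange := (ρ : E →+* E).codRestrict ρ.fieldRange hmem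
  have hb : Function.Bijective e₀ := by
    refine ⟨e₀.injective, ?_⟩
    rintro ⟨y, x, hx⟩
    exact ⟨x, Subtype.ext hx⟩
  let e : E ≃+* ρ.fieldRange := RingEquiv.ofBijective e₀ hb
  have he : ∀ x : E, ((e x : ρ.fieldRange) : E) = ρ x := fun x => rfl
  refine ⟨(minpoly ρ.fieldRange θ).map (e.symm : ρ.fieldRange →+* E), θ, ?_, ?_, ?_, ?_⟩
  · exact (minpoly.monic hint).map _
  · rw [Polynomial.natDegree_map, hdeg]
  · have h2 : (minpoly ρ.fieldRange θ).map (e.symm : ρ.fieldRange →+* E) =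
        Polynomial.mapEquiv e.symm (minpoly ρ.fieldRange θ) := rfl
    rw [h2]
    exact (MulEquiv.irreducible_iff (Polynomial.mapEquiv e.symm)).2 (minpoly.irreducible hint)
  · rw [Polynomial.eval₂_map]
    have h3 : (ρ : E →+* E).comp (e.symm : ρ.fieldRange →+* E) = algebraMap ρ.fieldRange E := by
      ext y
      obtain ⟨x, rfl⟩ := e.surjective y
      simp only [RingHom.comp_apply, RingHom.coe_coe, RingEquiv.symm_apply_apply]
      rw [← he x]
      rfl
    rw [h3]
    exact minpoly.aeval ρ.fieldRange θ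

/-- Clearing denominators of a monic polynomial. -/
theorem exists_scale (R E : Type) [CommRing R] [IsDomain R] [Field E] [Algebra R E]
    [IsFractionRing R E] (μ : Polynomial E) (hμ : μ.Monic) :
    ∃ (D : R) (F : Polynomial R), D ≠ 0 ∧ F.Monic ∧ F.natDegree = μ.natDegree ∧
      F.map (algebraMap R E) = μ.scaleRoots (algebraMap R E D) := by
  classical
  obtain ⟨b, hb⟩ := IsLocalization.exist_integer_multiples_of_finset (nonZeroDivisors R) μ.coeffs
  have hb0 : (b : R) ≠ 0 := nonZeroDivisors.ne_zero b.2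
  have hl : μ.scaleRoots (algebraMap R E b) ∈ Polynomial.lifts (algebraMap R E) := by
    rw [Polynomial.lifts_iff_coeff_lifts]
    intro i
    rw [Polynomial.coeff_scaleRoots]
    rcases lt_trichotomy i μ.natDegree with h | h | h
    · by_cases h0 : μ.coeff i = 0
      · refine ⟨0, ?_⟩
        rw [h0, map_zero, zero_mul]
      · obtain ⟨c, hc⟩ := hb (μ.coeff i) (Polynomial.coeff_mem_coeffs h0)
        obtain ⟨j, hj⟩ : ∃ j, μ.natDegree - i = j + 1 := ⟨μ.natDegree - i - 1, by omega⟩
        refine ⟨c * (b : R) ^ j, ?_⟩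
        rw [map_mul, hc, map_pow, hj, pow_succ, Algebra.smul_def]
        ring
    · refine ⟨1, ?_⟩
      rw [h, hμ.coeff_natDegree, map_one, Nat.sub_self, pow_zero, mul_one]
    · refine ⟨0, ?_⟩
      rw [Polynomial.coeff_eq_zero_of_natDegree_lt h, map_zero, zero_mul]
  have hm : (μ.scaleRoots (algebraMap R E b)).Monic := (Polynomial.monic_scaleRoots_iff _).2 hμ
  obtain ⟨F, hF, hdeg, hFm⟩ := Polynomial.lifts_and_natDegree_eq_and_monic hl hm
  refine ⟨b, F, hb0, hFm, ?_, hF⟩
  rw [hdeg, Polynomial.natDegree_scaleRoots]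

/-- Scaling of roots and irreducibility. -/
theorem irr_scale (E : Type) [Field E] (μ : Polynomial E) (s : E) (hs : s ≠ 0)
    (hμ : Irreducible μ) : Irreducible (μ.scaleRoots s) := by
  have hsu : IsUnit s := isUnit_iff_ne_zero.2 hs
  have hinv : (μ.scaleRoots s).scaleRoots s⁻¹ = μ := by
    rw [← Polynomial.scaleRoots_mul, mul_inv_cancel₀ hs, Polynomial.scaleRoots_one]
  constructor
  · intro hu
    apply hμ.not_isUnit
    rw [Polynomial.isUnit_iff_degree_eq_zero] at hu ⊢
    rwa [Polynomial.degree_scaleRoots] at hu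
  · intro a b hab
    have h1 : μ = a.scaleRoots s⁻¹ * b.scaleRoots s⁻¹ := by
      rw [← hinv, hab, Polynomial.mul_scaleRoots_of_noZeroDivisors]
    rcases hμ.isUnit_or_isUnit h1 with h | h
    · left
      rw [Polynomial.isUnit_iff_degree_eq_zero] at h ⊢
      rwa [Polynomial.degree_scaleRoots] at h
    · right
      rw [Polynomial.isUnit_iff_degree_eq_zero] at h ⊢
      rwa [Polynomial.degree_scaleRoots] at h

end Pool.Agent.Lib.MP_16285c_agN.PrimM

namespace Pool.Agent.Lib.MP_16285c_agN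

/-- Proof of `StmtPrim`. -/
theorem tPrim : StmtPrim := by
  intro K _ _ n ρ h1
  have hc : CharZero (RF n K) := charZero_of_injective_algebraMap (algebraMap K (RF n K)).injective
  obtain ⟨μ, θ, hμm, hμd, hμi, hμ0⟩ := PrimM.exists_min K (RF n K) ρ h1
  obtain ⟨D, F, hD, hFm, hFd, hFs⟩ := PrimM.exists_scale (Pl n K) (RF n K) μ hμm
  have hD' : algebraMap (Pl n K) (RF n K) D ≠ 0 := by
    intro h
    exact hD ((IsFractionRing.injective (Pl n K) (RF n K)) (by rw [h, map_zero]))
  obtain ⟨u, v, hv, huv⟩ := IsFractionRing.div_surjective (A := Pl n K)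
    (ρ (algebraMap (Pl n K) (RF n K) D) * θ)
  refine ⟨F, u, v, hFm, ?_, ?_, nonZeroDivisors.ne_zero hv, ?_⟩
  · rw [hFd, hμd]
    rfl
  · rw [hFs]
    exact PrimM.irr_scale (RF n K) μ _ hD' hμi
  · rw [← Polynomial.eval₂_map, hFs]
    have huv' : fr u / fr v = ρ (algebraMap (Pl n K) (RF n K) D) * θ := huv
    rw [huv']
    exact Polynomial.scaleRoots_eval₂_eq_zero (ρ : RF n K →+* RF n K) hμ0

end Pool.Agent.Lib.MP_16285c_agN
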