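import Pool.Agent.Lib.MP_16285c_agN.SpecR

/-!
# Coordinates form a transcendence basis
-/

set_option autoImplicit false

namespace Pool.Agent.Lib.MP_16285c_agN

open Pool.Agent.Lib.MP_16285c_ag

namespace Rk1M

/-- The classes of the variables generate `CR 𝔭`. -/
theorem adj {K : Type} [Field K] {n : ℕ} (𝔭 : Ideal (Pl n K)) :
    Algebra.adjoin K (Set.range fun i : Fin n => (cl 𝔭 (MvPolynomial.X i) : CR 𝔭)) = ⊤ := by
  have h1 : Algebra.adjoin K (Set.range (MvPolynomial.X : Fin n → Pl n K)) = ⊤ :=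
    MvPolynomial.adjoin_range_X
  have h2 : (Algebra.adjoin K (Set.range (MvPolynomial.X : Fin n → Pl n K))).map
      (Ideal.Quotient.mkₐ K 𝔭) =
      Algebra.adjoin K (Set.range fun i : Fin n => (cl 𝔭 (MvPolynomial.X i) : CR 𝔭)) := by
    rw [AlgHom.map_adjoin, ← Set.range_comp]
    rfl
  rw [← h2, h1, Algebra.map_top, AlgHom.range_eq_top]
  exact Ideal.Quotient.mkₐ_surjective K 𝔭

end Rk1M

theorem tRk1 : StmtRk1 := by
  intro K _ n 𝔭 _
  classical
  have htop := Rk1M.adj 𝔭
  have halg : Algebra.IsAlgebraic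
      (Algebra.adjoin K (Set.range fun i : Fin n => (cl 𝔭 (MvPolynomial.X i) : CR 𝔭)))
      (CR 𝔭) := by
    constructor
    intro a
    have ha : a ∈ Algebra.adjoin K
        (Set.range fun i : Fin n => (cl 𝔭 (MvPolynomial.X i) : CR 𝔭)) := by
      rw [htop]
      exact Algebra.mem_top
    exact isAlgebraic_algebraMap (⟨a, ha⟩ : Algebra.adjoin K
        (Set.range fun i : Fin n => (cl 𝔭 (MvPolynomial.X i) : CR 𝔭)))
  obtain ⟨t, hts, ht⟩ := exists_isTranscendenceBasis_subset (R := K)
    (Set.range fun i : Fin n => (cl 𝔭 (MvPolynomial.X i) : CR 𝔭))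
  choose i hi using fun y : t => hts y.2
  have hinj : Function.Injective i := by
    intro y z hyz
    apply Subtype.ext
    rw [← hi y, ← hi z, hyz]
  have : Finite t := Finite.of_injective i hinj
  have : Fintype t := Fintype.ofFinite t
  have hmem : ∀ y : t, i y ∈ Finset.univ.image i := fun y =>
    Finset.mem_image_of_mem i (Finset.mem_univ y)
  let e : t ≃ (Finset.univ.image i : Finset (Fin n)) :=
    Equiv.ofBijective (fun y => ⟨i y, hmem y⟩) ⟨fun y z hyz => hinj (Subtype.ext_iff.mp hyz), by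
      rintro ⟨a, ha⟩
      obtain ⟨y, -, hy⟩ := Finset.mem_image.mp ha
      exact ⟨y, Subtype.ext hy⟩⟩
  have hbas : IsTranscendenceBasis K
      (fun a : (Finset.univ.image i : Finset (Fin n)) =>
        (cl 𝔭 (MvPolynomial.X (a : Fin n)) : CR 𝔭)) := by
    rw [← isTranscendenceBasis_equiv e]
    have he : (fun a : (Finset.univ.image i : Finset (Fin n)) =>
        (cl 𝔭 (MvPolynomial.X (a : Fin n)) : CR 𝔭)) ∘ e = ((↑) : t → CR 𝔭) := by
      funext y
      exact hi y
    rw [he]
    exact ht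
  refine ⟨Finset.univ.image i, ?_, hbas⟩
  have hc := hbas.cardinalMk_eq_trdeg
  unfold rk
  rw [← hc, Cardinal.mk_coe_finset, Cardinal.toNat_natCast]

end Pool.Agent.Lib.MP_16285c_agN
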