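import Pool.Agent.Lib.MP_16285c_agN.SpecR

/-! (RK2): the dimension drops. -/

set_option autoImplicit false

namespace Pool.Agent.Lib.MP_16285c_agN.Rk2M

open Pool.Agent.Lib.MP_16285c_agN

/-- an element of the kernel is transcendental over lifted independent elements -/
lemma cons_indep {K A B : Type} [Field K] [CommRing A] [IsDomain A] [CommRing B] [Algebra K A]
    [Algebra K B] (π : A →ₐ[K] B) {b : A} (hb : b ≠ 0) (hπ : π b = 0) {r : ℕ} (y' : Fin r → A)
    (hy : AlgebraicIndependent K (π ∘ y')) :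
    AlgebraicIndependent K (fun o : Option (Fin r) => o.elim b y') := by
  have hy' : AlgebraicIndependent K y' := hy.of_comp π
  rw [hy'.option_iff_transcendental b]
  intro halg
  obtain ⟨q, hq0, hq⟩ := halg.exists_nonzero_coeff_and_aeval_eq_zero
    (mem_nonZeroDivisors_of_ne_zero hb)
  -- the constant coefficient is in the kernel
  have h1 : π ((q.coeff 0 : Algebra.adjoin K (Set.range y')) : A) = 0 := by
    have h2 : Polynomial.aeval b q = b * Polynomial.aeval b q.divX +
        algebraMap (Algebra.adjoin K (Set.range y')) A (q.coeff 0) := by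
      conv_lhs => rw [← Polynomial.X_mul_divX_add q]
      rw [map_add, map_mul, Polynomial.aeval_X, Polynomial.aeval_C]
    rw [hq] at h2
    have h3 := congrArg π h2
    rw [map_zero, map_add, map_mul, hπ, zero_mul, zero_add] at h3
    exact h3.symm
  -- the restriction of the map to the algebra generated by the lifts is injective
  obtain ⟨c, hc⟩ : ∃ c : MvPolynomial (Fin r) K,
      MvPolynomial.aeval y' c = ((q.coeff 0 : Algebra.adjoin K (Set.range y')) : A) := by
    have h0 : ∀ x : A, x ∈ Algebra.adjoin K (Set.range y') →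
        ∃ c : MvPolynomial (Fin r) K, MvPolynomial.aeval y' c = x := by
      intro x hx
      rw [Algebra.adjoin_range_eq_range_aeval] at hx
      exact hx
    exact h0 _ (q.coeff 0).2
  have h4 : MvPolynomial.aeval (π ∘ y') c = 0 := by
    have h5 : MvPolynomial.aeval (π ∘ y') c = π (MvPolynomial.aeval y' c) := by
      have h6 : (MvPolynomial.aeval (π ∘ y') : MvPolynomial (Fin r) K →ₐ[K] B) =
          π.comp (MvPolynomial.aeval y') := by
        ext i
        simp
      rw [h6]
      rfl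
    rw [h5, hc, h1]
  have h5 : c = 0 := (algebraicIndependent_iff.1 hy) c h4
  rw [h5, map_zero] at hc
  exact hq0 (Subtype.ext hc.symm)

end Pool.Agent.Lib.MP_16285c_agN.Rk2M

namespace Pool.Agent.Lib.MP_16285c_agN

open Rk2M

theorem tRk2 : StmtRk2 := by
  have hbot : ∀ (K : Type) [Field K] (n : ℕ), Algebra.trdeg K (Pl n K) = n := by
    intro K _ n
    rw [MvPolynomial.trdeg_of_isDomain]
    simp
  have hle : ∀ (K : Type) [Field K] (n : ℕ) (𝔭 : Ideal (Pl n K)),
      Algebra.trdeg K (CR 𝔭) ≤ n := by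
    intro K _ n 𝔭
    rw [← hbot K n]
    exact trdeg_le_of_surjective (Ideal.Quotient.mkₐ K 𝔭) (Ideal.Quotient.mkₐ_surjective K 𝔭)
  have hfin : ∀ (K : Type) [Field K] (n : ℕ) (𝔭 : Ideal (Pl n K)),
      Algebra.trdeg K (CR 𝔭) < Cardinal.aleph0 := fun K _ n 𝔭 =>
    (hle K n 𝔭).trans_lt (Cardinal.natCast_lt_aleph0)
  have hind : ∀ (K : Type) [Field K] (n : ℕ) (𝔭 : Ideal (Pl n K)) (ι : Type) [Fintype ι]
      (y : ι → CR 𝔭), AlgebraicIndependent K y → Fintype.card ι ≤ rk 𝔭 := by
    intro K _ n 𝔭 ι _ y hy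
    have h1 := hy.cardinalMk_le_trdeg
    have h2 := Cardinal.toNat_le_toNat h1 (hfin K n 𝔭)
    rw [Cardinal.mk_fintype, Cardinal.toNat_natCast] at h2
    exact h2
  refine ⟨?_, ?_, ?_, ?_⟩
  · intro K _ n
    unfold rk
    have h1 : Algebra.trdeg K (CR (⊥ : Ideal (Pl n K))) = Algebra.trdeg K (Pl n K) :=
      (AlgEquiv.quotientBot K (Pl n K)).trdeg_eq
    rw [h1, hbot]
    simp
  · intro K _ n 𝔭 _
    unfold rk
    have h2 := Cardinal.toNat_le_toNat (hle K n 𝔭) (Cardinal.natCast_lt_aleph0)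
    rwa [Cardinal.toNat_natCast] at h2
  · intro K _ n 𝔭 _ m y hy
    have h1 := hind K n 𝔭 (Fin m) y hy
    rwa [Fintype.card_fin] at h1
  · intro K _ n 𝔭 𝔮 _ _ hlt
    obtain ⟨ι, y, hy⟩ := exists_isTranscendenceBasis' K (CR 𝔮)
    have hcard := hy.cardinalMk_eq_trdeg
    have hι : Finite ι := by
      rw [← Cardinal.lt_aleph0_iff_finite, hcard]
      exact hfin K n 𝔮
    have hcard2 : Nat.card ι = rk 𝔮 := by
      unfold rk
      rw [← hcard]
      rfl
    let e : Fin (rk 𝔮) ≃ ι := (Finite.equivFinOfCardEq hcard2).symm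
    have hy1 : AlgebraicIndependent K (y ∘ e) := hy.1.comp e e.injective
    let π : CR 𝔭 →ₐ[K] CR 𝔮 := Ideal.Quotient.factorₐ K hlt.le
    have hπs : Function.Surjective π := Ideal.Quotient.factor_surjective hlt.le
    choose y' hy' using fun i => hπs ((y ∘ e) i)
    obtain ⟨G, hG𝔮, hG𝔭⟩ := SetLike.exists_of_lt hlt
    have hb : (Ideal.Quotient.mk 𝔭 G : CR 𝔭) ≠ 0 := fun h => hG𝔭 (Ideal.Quotient.eq_zero_iff_mem.1 h)
    have hπb : π (Ideal.Quotient.mk 𝔭 G) = 0 := by
      have h1 : π (Ideal.Quotient.mk 𝔭 G) = Ideal.Quotient.mk 𝔮 G := rfl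
      rw [h1]
      exact Ideal.Quotient.eq_zero_iff_mem.2 hG𝔮
    have h2 : AlgebraicIndependent K (π ∘ y') := by
      have h3 : π ∘ y' = y ∘ e := funext hy'
      rw [h3]
      exact hy1
    have h3 := hind K n 𝔭 (Option (Fin (rk 𝔮))) _ (cons_indep π hb hπb y' h2)
    rw [Fintype.card_option, Fintype.card_fin] at h3
    exact h3

end Pool.Agent.Lib.MP_16285c_agN
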