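import Pool.Agent.Lib.MP_16285c_agN.SpecR

/-!
# Dimension zero, dimension `n - 1`

Proof of `StmtRk3` from `StmtRk2`.
-/

set_option autoImplicit false

namespace Pool.Agent.Lib.MP_16285c_agN

open Pool.Agent.Lib.MP_16285c_ag

namespace Rk3M

/-- (a) Dimension zero. -/
theorem zero (h2 : StmtRk2) (K : Type) [Field K] (n : ℕ) (𝔭 : Ideal (Pl n K)) [𝔭.IsPrime]
    (x : Fin n → K) (hx : ∀ G ∈ 𝔭, MvPolynomial.eval x G = 0) (h0 : rk 𝔭 = 0) (G : Pl n K)
    (hG : MvPolynomial.eval x G = 0) : G ∈ 𝔭 := by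
  have hm : (RingHom.ker (MvPolynomial.eval x : Pl n K →+* K)).IsPrime := RingHom.ker_isPrime _
  have hle : 𝔭 ≤ RingHom.ker (MvPolynomial.eval x : Pl n K →+* K) := by
    intro H hH
    rw [RingHom.mem_ker]
    exact hx H hH
  rcases lt_or_eq_of_le hle with hlt | heq
  · exfalso
    have h3 := h2.2.2.2 K n 𝔭 (RingHom.ker (MvPolynomial.eval x : Pl n K →+* K)) hlt
    omega
  · rw [heq, RingHom.mem_ker]
    exact hG

/-- The ideal of an irreducible polynomial is prime. -/
theorem prm {K : Type} [Field K] {n : ℕ} {P : Pl n K} (hP : Prime P) :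
    (Ideal.span {P} : Ideal (Pl n K)).IsPrime :=
  (Ideal.span_singleton_prime hP.ne_zero).mpr hP

/-- The dimension of a hypersurface is smaller than `n`. -/
theorem lt (h2 : StmtRk2) (K : Type) [Field K] (n : ℕ) (P : Pl n K) (hP : Prime P) :
    rk (Ideal.span {P} : Ideal (Pl n K)) < n := by
  have h1 : (Ideal.span {P} : Ideal (Pl n K)).IsPrime := prm hP
  have hb : (⊥ : Ideal (Pl n K)).IsPrime := Ideal.isPrime_bot
  have hne : (Ideal.span {P} : Ideal (Pl n K)) ≠ ⊥ := by
    intro h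
    rw [Ideal.span_singleton_eq_bot] at h
    exact hP.ne_zero h
  have h3 := h2.2.2.2 K n ⊥ (Ideal.span {P}) (bot_lt_iff_ne_bot.mpr hne)
  rw [h2.1 K n] at h3
  exact h3

/-- (b) Dimension `n - 1`. -/
theorem one (h2 : StmtRk2) (K : Type) [Field K] (n : ℕ) (𝔭 : Ideal (Pl n K)) [𝔭.IsPrime]
    (h1 : rk 𝔭 + 1 = n) : ∃ P : Pl n K, Irreducible P ∧ 𝔭 = Ideal.span {P} := by
  have hne : 𝔭 ≠ ⊥ := by
    intro h
    rw [h, h2.1 K n] at h1
    omega
  obtain ⟨P, hP𝔭, hP⟩ := Ideal.IsPrime.exists_mem_prime_of_ne_bot (inferInstance : 𝔭.IsPrime) hne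
  refine ⟨P, hP.irreducible, ?_⟩
  have hle : Ideal.span {P} ≤ 𝔭 := (Ideal.span_singleton_le_iff_mem 𝔭).mpr hP𝔭
  have hp1 : (Ideal.span {P} : Ideal (Pl n K)).IsPrime := prm hP
  have hl := lt h2 K n P hP
  rcases lt_or_eq_of_le hle with hlt | heq
  · exfalso
    have h3 := h2.2.2.2 K n (Ideal.span {P}) 𝔭 hlt
    omega
  · exact heq.symm

/-- The degree in a variable which does not occur. -/
theorem deg_rename {K : Type} [Field K] {m : ℕ} (i : Fin (m + 1)) (p : MvPolynomial (Fin m) K) :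
    MvPolynomial.degreeOf i (MvPolynomial.rename i.succAbove p) = 0 := by
  by_contra h
  have h1 : i ∈ (MvPolynomial.rename i.succAbove p).vars :=
    MvPolynomial.mem_vars_iff_degreeOf_ne_zero.mpr h
  obtain ⟨j, _, hj⟩ := MvPolynomial.mem_vars_rename i.succAbove p h1
  exact Fin.succAbove_ne i j hj

/-- The other variables are independent modulo `P`. -/
theorem indep {K : Type} [Field K] {m : ℕ} (i : Fin (m + 1)) (P : Pl (m + 1) K) (hP0 : P ≠ 0)
    (hi : i ∈ P.vars) :
    AlgebraicIndependent K (fun j : Fin m =>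
      (cl (Ideal.span {P}) (MvPolynomial.X (i.succAbove j)) : CR (Ideal.span {P}))) := by
  rw [algebraicIndependent_iff]
  intro p hp
  have h1 : cl (Ideal.span {P}) (MvPolynomial.rename i.succAbove p) = 0 := by
    rw [← hp]
    have h2 : (Ideal.Quotient.mkₐ K (Ideal.span {P})).comp
        (MvPolynomial.rename i.succAbove : MvPolynomial (Fin m) K →ₐ[K] Pl (m + 1) K) =
        MvPolynomial.aeval (fun j : Fin m =>
          (cl (Ideal.span {P}) (MvPolynomial.X (i.succAbove j)) : CR (Ideal.span {P}))) := by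
      apply MvPolynomial.algHom_ext
      intro j
      rw [AlgHom.comp_apply, MvPolynomial.rename_X, MvPolynomial.aeval_X]
      rfl
    exact DFunLike.congr_fun h2 p
  have h3 : P ∣ MvPolynomial.rename i.succAbove p :=
    Ideal.mem_span_singleton.mp (Ideal.Quotient.eq_zero_iff_mem.mp h1)
  obtain ⟨Q, hQ⟩ := h3
  by_contra hp0
  have h4 : MvPolynomial.rename i.succAbove p ≠ 0 := by
    intro h
    exact hp0 ((MvPolynomial.rename_injective _ i.succAbove_right_injective)
      (h.trans (map_zero _).symm))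
  have hQ0 : Q ≠ 0 := by
    intro h
    rw [h, mul_zero] at hQ
    exact h4 hQ
  have h5 : MvPolynomial.degreeOf i (P * Q) = 0 := by
    rw [← hQ]
    exact deg_rename i p
  rw [MvPolynomial.degreeOf_mul_eq hP0 hQ0] at h5
  have h6 : MvPolynomial.degreeOf i P ≠ 0 := MvPolynomial.mem_vars_iff_degreeOf_ne_zero.mp hi
  omega

/-- An irreducible polynomial involves a variable. -/
theorem exists_var {K : Type} [Field K] {n : ℕ} (P : Pl n K) (hP : Irreducible P) :
    ∃ i, i ∈ P.vars := by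
  by_contra h
  push Not at h
  have h1 : P.vars = ∅ := Finset.eq_empty_of_forall_notMem h
  rw [MvPolynomial.vars_eq_empty_iff_eq_C] at h1
  have hc : P.coeff 0 ≠ 0 := by
    intro h0
    rw [h0, MvPolynomial.C_0] at h1
    exact hP.ne_zero h1
  apply hP.not_isUnit
  rw [h1]
  exact (IsUnit.mk0 _ hc).map MvPolynomial.C

/-- (c) The dimension of a hypersurface. -/
theorem hyp (h2 : StmtRk2) (K : Type) [Field K] (n : ℕ) (P : Pl n K) (hP : Irreducible P) :
    rk (Ideal.span {P} : Ideal (Pl n K)) + 1 = n := by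
  obtain ⟨i, hi⟩ := exists_var P hP
  have hPp : Prime P := hP.prime
  have hl := lt h2 K n P hPp
  have hp1 : (Ideal.span {P} : Ideal (Pl n K)).IsPrime := prm hPp
  obtain ⟨m, rfl⟩ : ∃ m, n = m + 1 := ⟨n - 1, by have := i.pos; omega⟩
  have h3 := h2.2.2.1 K (m + 1) (Ideal.span {P}) m _ (indep i P hPp.ne_zero hi)
  omega

end Rk3M

open Rk3M in
theorem tRk3 (h2 : StmtRk2) : StmtRk3 :=
  ⟨fun K _ n 𝔭 _ x hx h0 G hG => zero h2 K n 𝔭 x hx h0 G hG,
    fun K _ n 𝔭 _ h1 => one h2 K n 𝔭 h1,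
    fun K _ n P hP => hyp h2 K n P hP⟩

end Pool.Agent.Lib.MP_16285c_agN
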