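import Pool.Agent.Lib.MP_16285c_agN.SpecR

/-! # The Jacobian bound for the dimension -/

set_option autoImplicit false

namespace Pool.Agent.Lib.MP_16285c_agN

open Pool.Agent.Lib.MP_16285c_ag

namespace Rk4M

/-- linearly independent rows: a nonzero maximal minor -/
theorem exists_cols {K : Type} [Field K] {c n : ℕ} (A : Fin c → Fin n → K)
    (h : LinearIndependent K A) :
    ∃ β : Fin c → Fin n, Function.Injective β ∧ (Matrix.of fun j l => A j (β l)).det ≠ 0 := by
  classical
  have hr : (Matrix.of A).rank = c := by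
    have := LinearIndependent.rank_matrix (M := Matrix.of A) h
    simpa using this
  have hspan : Submodule.span K (Set.range (Matrix.of A).col) = ⊤ := by
    refine Submodule.eq_top_of_finrank_eq ?_
    rw [← Matrix.rank_eq_finrank_span_cols, hr, Module.finrank_fin_fun]
  obtain ⟨κ, a, ha, hspan', hli⟩ := exists_linearIndependent' K (Matrix.of A).col
  have hfin : Finite κ := Finite.of_injective a ha
  have := Fintype.ofFinite κ
  have hcard : Fintype.card κ = c := by
    have h1 := finrank_span_eq_card hli
    rw [hspan', hspan, finrank_top, Module.finrank_fin_fun] at h1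
    exact h1.symm
  have e : Fin c ≃ κ := (Fintype.equivFinOfCardEq hcard).symm
  refine ⟨fun l => a (e l), ha.comp e.injective, ?_⟩
  have hu : IsUnit (Matrix.of fun j l => A j (a (e l))) := by
    rw [← Matrix.linearIndependent_cols_iff_isUnit]
    exact hli.comp e e.injective
  rw [Matrix.isUnit_iff_isUnit_det] at hu
  exact hu.ne_zero

/-- the chain rule -/
theorem deriv_aeval {K : Type} [Field K] {n : ℕ} {L : Type} [Field L] [Algebra K L]
    {F : Type} [Field F] [Algebra F L] {Ω : Type} [AddCommGroup Ω] [Module L Ω] [Module F Ω]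
    [IsScalarTower F L Ω]
    (D : Derivation F L Ω) (hK : ∀ c : K, D (algebraMap K L c) = 0) (φ : MvPolynomial (Fin n) K →ₐ[K] L)
    (G : MvPolynomial (Fin n) K) :
    D (φ G) = ∑ i, φ (MvPolynomial.pderiv i G) • D (φ (MvPolynomial.X i)) := by
  classical
  induction G using MvPolynomial.induction_on with
  | C a =>
    have h1 : φ (MvPolynomial.C a) = algebraMap K L a := by
      rw [← MvPolynomial.algebraMap_eq, AlgHom.commutes]
    rw [h1, hK]
    simp
  | add p q hp hq =>
    rw [map_add, map_add, hp, hq, ← Finset.sum_add_distrib]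
    refine Finset.sum_congr rfl fun i _ => ?_
    rw [map_add, map_add, add_smul]
  | mul_X p j hp =>
    rw [map_mul, Derivation.leibniz, hp]
    have h1 : ∀ i, φ (MvPolynomial.pderiv i (p * MvPolynomial.X j)) =
        φ (MvPolynomial.X j) * φ (MvPolynomial.pderiv i p) + φ p * (if i = j then 1 else 0) := by
      intro i
      rw [Derivation.leibniz, smul_eq_mul, smul_eq_mul, map_add, map_mul, map_mul]
      rw [MvPolynomial.pderiv_X, add_comm]
      congr 1
      by_cases hij : i = j
      · subst hij
        simp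
      · have : (Pi.single i (1 : MvPolynomial (Fin n) K) : Fin n → MvPolynomial (Fin n) K) j = 0 :=
          Pi.single_eq_of_ne (Ne.symm hij) 1
        rw [this, if_neg hij, map_zero]
    simp_rw [h1, add_smul, Finset.sum_add_distrib, mul_smul, ← Finset.smul_sum]
    rw [add_comm]
    congr 1
    simp [ite_smul]

end Rk4M

open Rk4M

open scoped IntermediateField.algebraAdjoinAdjoin

theorem tRk4 : StmtRk4 := by
  intro K _ _ n 𝔭 _ x c hx hG
  classical
  obtain ⟨P, hP, hli⟩ := hG
  obtain ⟨β, hβ, hdet⟩ := exists_cols (fun j => grad (P j) x) hli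
  set L := FractionRing (CR 𝔭) with hL
  let φ : MvPolynomial (Fin n) K →ₐ[K] L := (IsScalarTower.toAlgHom K (CR 𝔭) L).comp (Ideal.Quotient.mkₐ K 𝔭)
  have hφ : ∀ G, φ G = algebraMap (CR 𝔭) L (cl 𝔭 G) := fun G => rfl
  have hinj : Function.Injective (algebraMap (CR 𝔭) L) := IsFractionRing.injective _ _
  have hφ0 : ∀ G, φ G = 0 ↔ G ∈ 𝔭 := by
    intro G
    rw [hφ, map_eq_zero_iff _ hinj]
    exact Ideal.Quotient.eq_zero_iff_mem
  set s : Set L := Set.range fun a : {i // i ∉ Set.range β} => φ (MvPolynomial.X (a : Fin n)) with hs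
  let F : IntermediateField K L := IntermediateField.adjoin K s
  let D := KaehlerDifferential.D F L
  have hDK : ∀ c : K, D (algebraMap K L c) = 0 := by
    intro c
    have : algebraMap K L c = algebraMap F L (algebraMap K F c) := rfl
    rw [this, Derivation.map_algebraMap]
  have hDa : ∀ i, i ∉ Set.range β → D (φ (MvPolynomial.X i)) = 0 := by
    intro i hi
    have hmem : φ (MvPolynomial.X i) ∈ F := IntermediateField.subset_adjoin K s ⟨⟨i, hi⟩, rfl⟩
    have : φ (MvPolynomial.X i) = algebraMap F L ⟨_, hmem⟩ := rfl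
    rw [this, Derivation.map_algebraMap]
  -- the minor over `L`
  let N : Matrix (Fin c) (Fin c) L := Matrix.of fun j l => φ (MvPolynomial.pderiv (β l) (P j))
  have hN : N.det ≠ 0 := by
    have h1 : N = φ.toRingHom.mapMatrix (Matrix.of fun j l => MvPolynomial.pderiv (β l) (P j)) := by
      ext j l
      rfl
    rw [h1, ← RingHom.map_det]
    intro h2
    have h3 := (hφ0 _).mp h2
    have h4 := hx _ h3
    rw [RingHom.map_det] at h4
    exact hdet h4
  have hDb : ∀ l, D (φ (MvPolynomial.X (β l))) = 0 := by
    have h1 : ∀ j, ∑ l, N j l • D (φ (MvPolynomial.X (β l))) = 0 := by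
      intro j
      have h2 := deriv_aeval D hDK φ (P j)
      rw [(hφ0 _).mpr (hP j), map_zero] at h2
      have h3 : ∑ i, φ (MvPolynomial.pderiv i (P j)) • D (φ (MvPolynomial.X i)) =
          ∑ i ∈ Finset.univ.image β, φ (MvPolynomial.pderiv i (P j)) • D (φ (MvPolynomial.X i)) := by
        refine (Finset.sum_subset (Finset.subset_univ _) fun i _ hi => ?_).symm
        rw [hDa i (fun h => hi (by
          obtain ⟨l, hl⟩ := h
          exact Finset.mem_image.mpr ⟨l, Finset.mem_univ _, hl⟩)), smul_zero]
      rw [h3, Finset.sum_image (fun a _ b _ h => hβ h)] at h2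
      exact h2.symm
    intro k
    obtain ⟨N', hN'⟩ : ∃ N' : Matrix (Fin c) (Fin c) L, N' * N = 1 :=
      ⟨N⁻¹, Matrix.nonsing_inv_mul _ hN.isUnit⟩
    have h2 : ∑ j, N' k j • ∑ l, N j l • D (φ (MvPolynomial.X (β l))) = 0 := by
      refine Finset.sum_eq_zero fun j _ => ?_
      rw [h1 j, smul_zero]
    have h3 : ∑ j, N' k j • ∑ l, N j l • D (φ (MvPolynomial.X (β l))) =
        ∑ l, (N' * N) k l • D (φ (MvPolynomial.X (β l))) := by
      have h4 : ∀ j, N' k j • ∑ l, N j l • D (φ (MvPolynomial.X (β l))) =
          ∑ l, (N' k j * N j l) • D (φ (MvPolynomial.X (β l))) := by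
        intro j
        rw [Finset.smul_sum]
        exact Finset.sum_congr rfl fun l _ => smul_smul _ _ _
      rw [Finset.sum_congr rfl fun j _ => h4 j, Finset.sum_comm]
      refine Finset.sum_congr rfl fun l _ => ?_
      rw [Matrix.mul_apply, Finset.sum_smul]
    rw [h3, hN'] at h2
    rw [Finset.sum_eq_single k (fun l _ hl => by rw [Matrix.one_apply_ne (Ne.symm hl), zero_smul])
      (fun h => absurd (Finset.mem_univ k) h), Matrix.one_apply_eq, one_smul] at h2
    exact h2
  have hDX : ∀ i, D (φ (MvPolynomial.X i)) = 0 := by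
    intro i
    by_cases hi : i ∈ Set.range β
    · obtain ⟨l, rfl⟩ := hi
      exact hDb l
    · exact hDa i hi
  have hDR : ∀ r : CR 𝔭, D (algebraMap (CR 𝔭) L r) = 0 := by
    intro r
    obtain ⟨G, rfl⟩ := Ideal.Quotient.mk_surjective r
    have h1 := deriv_aeval D hDK φ G
    rw [hφ] at h1
    rw [h1]
    exact Finset.sum_eq_zero fun i _ => by rw [hDX i, smul_zero]
  have hD : ∀ l : L, D l = 0 := by
    intro l
    obtain ⟨a, b, hb, rfl⟩ := IsFractionRing.div_surjective (A := CR 𝔭) l
    have hb0 : algebraMap (CR 𝔭) L b ≠ 0 := by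
      rw [Ne, map_eq_zero_iff _ hinj]
      exact nonZeroDivisors.ne_zero hb
    have h1 : D ((algebraMap (CR 𝔭) L a / algebraMap (CR 𝔭) L b) * algebraMap (CR 𝔭) L b) = 0 := by
      rw [div_mul_cancel₀ _ hb0]
      exact hDR a
    rw [Derivation.leibniz, hDR b, smul_zero, zero_add] at h1
    exact (smul_eq_zero.mp h1).resolve_left hb0
  have hun : Algebra.FormallyUnramified F L := by
    refine ⟨⟨fun a b => ?_⟩⟩
    have htop := KaehlerDifferential.span_range_derivation F L
    have hz : ∀ a : Ω[L⁄F], a = 0 := by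
      intro a
      have ha : a ∈ Submodule.span L (Set.range D) := by
        rw [htop]
        exact Submodule.mem_top
      have hr : Set.range D ⊆ {0} := by
        rintro _ ⟨l, rfl⟩
        exact hD l
      have := Submodule.span_mono hr ha
      rw [Submodule.span_zero_singleton] at this
      exact this
    rw [hz a, hz b]
  have hess : Algebra.EssFiniteType K L := by
    have : Algebra.EssFiniteType (CR 𝔭) L := Algebra.EssFiniteType.of_isLocalization L (nonZeroDivisors (CR 𝔭))
    exact Algebra.EssFiniteType.comp K (CR 𝔭) L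
  have hess' : Algebra.EssFiniteType F L := Algebra.EssFiniteType.of_comp K F L
  have hsep : Algebra.IsSeparable F L := Algebra.FormallyUnramified.isSeparable F L
  have halg : Algebra.IsAlgebraic F L := inferInstance
  have halg' : Algebra.IsAlgebraic (Algebra.adjoin K s) L := by
    have h1 : Algebra.IsAlgebraic (Algebra.adjoin K s) (IntermediateField.adjoin K s) :=
      inferInstance
    exact Algebra.IsAlgebraic.trans (Algebra.adjoin K s) (IntermediateField.adjoin K s) L
  have htr : Algebra.trdeg K L ≤ Cardinal.mk s := Algebra.IsAlgebraic.trdeg_le_cardinalMk K s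
  have htr2 : Algebra.trdeg K (CR 𝔭) ≤ Algebra.trdeg K L :=
    trdeg_le_of_injective (IsScalarTower.toAlgHom K (CR 𝔭) L) hinj
  have hcard : Cardinal.mk s ≤ ((n - c : ℕ) : Cardinal) := by
    refine Cardinal.mk_range_le.trans ?_
    have h1 : Cardinal.mk {i // i ∉ Set.range β} = ((n - c : ℕ) : Cardinal) := by
      rw [Cardinal.mk_fintype]
      congr 1
      have h2 := Fintype.card_subtype_compl (fun i => i ∈ Set.range β)
      rw [h2, Fintype.card_fin]
      congr 1
      have h3 : Fintype.card {i // i ∈ Set.range β} = Fintype.card (Fin c) :=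
        Fintype.card_congr (Equiv.ofInjective β hβ).symm
      rw [h3, Fintype.card_fin]
    exact h1.le
  have hcn : c ≤ n := by
    have := Fintype.card_le_of_injective β hβ
    simpa using this
  have hrk : rk 𝔭 ≤ n - c := by
    have h1 := (htr2.trans htr).trans hcard
    have h2 := Cardinal.toNat_le_toNat h1 (Cardinal.natCast_lt_aleph0)
    rwa [Cardinal.toNat_natCast] at h2
  omega

end Pool.Agent.Lib.MP_16285c_agN
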