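import Pool.Agent.Lib.MP_16285c_agN.SpecR

/-!
# One step of an orbit: the tangent spaces

Proof of `StmtT1`: directional derivatives of `D ^ e * (G ∘ f)`.
-/

set_option autoImplicit false

namespace Pool.Agent.Lib.MP_16285c_agN

open Pool.Agent.Lib.MP_16285c_ag

namespace T1M

open MvPolynomial

variable {n : ℕ} {K : Type} [Field K]

/-- The directional derivative. -/
noncomputable def dv (y v : Fin n → K) (A : Pl n K) : K := ∑ l, v l * grad A y l

theorem dv_C (y v : Fin n → K) (c : K) : dv y v (C c) = 0 := by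
  simp [dv, grad]

theorem dv_one (y v : Fin n → K) : dv y v (1 : Pl n K) = 0 := by
  have h := dv_C y v 1
  rwa [C_1] at h

theorem dv_add (y v : Fin n → K) (A B : Pl n K) : dv y v (A + B) = dv y v A + dv y v B := by
  simp only [dv, grad, map_add, mul_add, Finset.sum_add_distrib]

theorem dv_mul (y v : Fin n → K) (A B : Pl n K) :
    dv y v (A * B) = dv y v A * eval y B + eval y A * dv y v B := by
  simp only [dv, grad, Derivation.leibniz, smul_eq_mul, map_add, map_mul, Finset.sum_mul,
    Finset.mul_sum, ← Finset.sum_add_distrib]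
  refine Finset.sum_congr rfl fun l _ => ?_
  ring

theorem dv_X (y v : Fin n → K) (i : Fin n) : dv y v (X i) = v i := by
  classical
  simp only [dv, grad, pderiv_X]
  rw [Finset.sum_eq_single i]
  · simp
  · intro l _ hl
    rw [Pi.single_eq_of_ne (Ne.symm hl), map_zero, mul_zero]
  · intro h
    exact absurd (Finset.mem_univ i) h

/-- The derivative of `f` at `y` in the direction `v`. -/
noncomputable def Jv (f : RM K n) (y v : Fin n → K) (i : Fin n) : K :=
  ∑ l, ((eval y (f.den i))⁻¹ ^ 2 * eval y (wj f i l)) * v l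

theorem Jv_eq (f : RM K n) (y y' v : Fin n → K) (h : f.Next y y') (i : Fin n) :
    eval y (f.den i) * Jv f y v i = dv y v (f.num i) - y' i * dv y v (f.den i) := by
  obtain ⟨hne, heq⟩ := h i
  have h1 : Jv f y v i = (eval y (f.den i))⁻¹ ^ 2 *
      (dv y v (f.num i) * eval y (f.den i) - eval y (f.num i) * dv y v (f.den i)) := by
    simp only [Jv, dv, grad, wj, Pool.Agent.ZDO.Wd, map_sub, map_mul, Finset.sum_mul,
      Finset.mul_sum, ← Finset.sum_sub_distrib]
    refine Finset.sum_congr rfl fun l _ => ?_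
    ring
  rw [h1, ← heq]
  field_simp

theorem key (f : RM K n) (G : Pl n K) : ∃ (e : ℕ) (N : Pl n K), ∀ y y' : Fin n → K,
    f.Next y y' → eval y N = eval y (dn f) ^ e * eval y' G ∧
      ∀ v : Fin n → K, dv y v N = eval y (dn f) ^ e * dv y' (Jv f y v) G +
        dv y v (dn f ^ e) * eval y' G := by
  classical
  induction G using MvPolynomial.induction_on with
  | C a =>
    refine ⟨0, C a, fun y y' _ => ⟨by simp, fun v => ?_⟩⟩
    rw [dv_C, dv_C, pow_zero, pow_zero, dv_one, mul_zero, zero_mul, add_zero]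
  | add G₁ G₂ h₁ h₂ =>
    obtain ⟨e₁, N₁, hN₁⟩ := h₁
    obtain ⟨e₂, N₂, hN₂⟩ := h₂
    refine ⟨e₁ + e₂, dn f ^ e₂ * N₁ + dn f ^ e₁ * N₂, fun y y' h => ?_⟩
    obtain ⟨a₁, b₁⟩ := hN₁ y y' h
    obtain ⟨a₂, b₂⟩ := hN₂ y y' h
    refine ⟨?_, fun v => ?_⟩
    · rw [map_add, map_mul, map_mul, map_pow, map_pow, a₁, a₂, map_add, pow_add]
      ring
    · rw [dv_add, dv_mul, dv_mul, b₁ v, b₂ v, a₁, a₂, dv_add, map_add, pow_add (dn f) e₁ e₂,
        dv_mul, map_pow, map_pow, pow_add (eval y (dn f)) e₁ e₂]
      ring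
  | mul_X G i hG =>
    obtain ⟨e, N, hN⟩ := hG
    refine ⟨e + 1, N * (f.num i * ∏ l ∈ Finset.univ.erase i, f.den l), fun y y' h => ?_⟩
    obtain ⟨a, b⟩ := hN y y' h
    have hD : dn f = f.den i * ∏ l ∈ Finset.univ.erase i, f.den l :=
      (Finset.mul_prod_erase Finset.univ f.den (Finset.mem_univ i)).symm
    obtain ⟨hne, heq⟩ := h i
    have hJ := fun v => Jv_eq f y y' v h i
    set P : Pl n K := ∏ l ∈ Finset.univ.erase i, f.den l with hP
    have hDe : eval y (dn f) = eval y (f.den i) * eval y P := by rw [hD, map_mul]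
    refine ⟨?_, fun v => ?_⟩
    · rw [map_mul, map_mul, map_mul, a, eval_X, pow_succ, ← heq]
      rw [hDe]
      ring
    · have hDv : dv y v (dn f) = dv y v (f.den i) * eval y P + eval y (f.den i) * dv y v P := by
        rw [hD, dv_mul]
      rw [dv_mul, dv_mul, dv_mul, b v, a, dv_X, map_mul, map_mul, eval_X,
        pow_succ (dn f) e, pow_succ (eval y (dn f)) e, dv_mul, hDv, map_pow, ← heq]
      have h2 := hJ v
      have h3 : dv y v (f.num i) = eval y (f.den i) * Jv f y v i + y' i * dv y v (f.den i) := by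
        rw [h2]; ring
      rw [h3]
      generalize dv y v (dn f ^ e) = t
      rw [hDe]
      ring

end T1M

open T1M MvPolynomial in
theorem tT1 : StmtT1 := by
  classical
  intro K _ n f z M hz hjac m
  have hnext := hz m
  set x := z m with hx
  set x' := z (m + 1) with hx'
  let w : Fin n → K := fun i => (eval x (f.den i))⁻¹ ^ 2
  let A : Matrix (Fin n) (Fin n) K := Matrix.of fun i l => w i * eval x (wj f i l)
  have hdet : A.det ≠ 0 := by
    have h1 : A.det = (∏ i, w i) * eval x (jac f) := by
      have h2 : eval x (jac f) = (Matrix.of fun i l => eval x (wj f i l)).det := by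
        rw [jac, Pool.Agent.ZDO.Jc, RingHom.map_det]
        rfl
      rw [h2]
      exact Matrix.det_mul_column w _
    rw [h1]
    refine mul_ne_zero (Finset.prod_ne_zero_iff.2 fun i _ => ?_) (hjac m)
    exact pow_ne_zero _ (inv_ne_zero (hnext i).1)
  have hinj : Function.Injective (Matrix.mulVecLin A) := by
    intro u v huv
    have h1 : Function.Injective A.mulVec := Matrix.mulVec_injective_of_det_ne_zero hdet
    exact h1 huv
  have hmul : ∀ v i, A.mulVec v i = Jv f x v i := fun v i => rfl
  have hmap : ∀ v ∈ Tg (van (fun t => z (t + m)) M) x,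
      Matrix.mulVecLin A v ∈ Tg (van (fun t => z (t + (m + 1))) M) x' := by
    intro v hv G hG
    obtain ⟨e, N, hN⟩ := key f G
    have hG0 : eval x' G = 0 := by
      have h1 := hG 0
      simpa using h1
    have hNm : N ∈ van (fun t => z (t + m)) M := by
      intro t
      have h1 := (hN (z (M * t + m)) (z (M * t + m + 1)) (hz (M * t + m))).1
      have h2 : eval (z (M * t + (m + 1))) G = 0 := hG t
      rw [← add_assoc] at h2
      show eval (z (M * t + m)) N = 0
      rw [h1, h2, mul_zero]
    have h3 : dv x v N = 0 := hv N hNm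
    have h4 := (hN x x' hnext).2 v
    rw [h3, hG0, mul_zero, add_zero] at h4
    have h5 : eval x (dn f) ^ e ≠ 0 := by
      refine pow_ne_zero _ ?_
      rw [dn, map_prod]
      exact Finset.prod_ne_zero_iff.2 fun i _ => (hnext i).1
    have h6 : dv x' (Jv f x v) G = 0 := (mul_eq_zero.1 h4.symm).resolve_left h5
    exact h6
  exact LinearMap.finrank_le_finrank_of_injective
    (f := (Matrix.mulVecLin A).restrict hmap)
    (fun a b hab => Subtype.ext (hinj (congrArg Subtype.val hab)))

end Pool.Agent.Lib.MP_16285c_agN
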