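import Pool.Agent.Lib.MP_16285c_agN.SpecR

/-! # Independent gradients at general points -/

set_option autoImplicit false

namespace Pool.Agent.Lib.MP_16285c_agN

open Pool.Agent.Lib.MP_16285c_ag

namespace T2M

open MvPolynomial

theorem support_pderiv {K : Type} [Field K] {n : ℕ} (P : Pl n K) (j : Fin n) (e : Fin n →₀ ℕ)
    (he : e ∈ (pderiv j P).support) : e + Finsupp.single j 1 ∈ P.support := by
  rw [mem_support_iff, coeff_pderiv] at he
  rw [mem_support_iff]
  exact left_ne_zero_of_mul he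

theorem vars_pderiv {K : Type} [Field K] {n : ℕ} (P : Pl n K) (j i : Fin n)
    (hi : i ∈ (pderiv j P).vars) : i ∈ P.vars := by
  rw [mem_vars_iff_mem_support] at hi ⊢
  obtain ⟨e, he, hie⟩ := hi
  refine ⟨_, support_pderiv P j e he, ?_⟩
  rw [Finsupp.mem_support_iff] at hie ⊢
  rw [Finsupp.add_apply]
  omega

theorem totalDegree_pderiv {K : Type} [Field K] {n : ℕ} (P : Pl n K) (j : Fin n)
    (hP : pderiv j P ≠ 0) : (pderiv j P).totalDegree < P.totalDegree := by
  have h0 : 0 < P.totalDegree := by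
    obtain ⟨e, he⟩ : ∃ e, e ∈ (pderiv j P).support := by
      by_contra hcon
      push Not at hcon
      exact hP (support_eq_empty.mp (Finset.eq_empty_of_forall_notMem hcon))
    have h2 := le_totalDegree (support_pderiv P j e he)
    rw [Finsupp.sum_add_index' (by simp) (by simp), Finsupp.sum_single_index rfl] at h2
    omega
  rw [totalDegree, Finset.sup_lt_iff h0]
  intro e he
  have h2 := le_totalDegree (support_pderiv P j e he)
  rw [Finsupp.sum_add_index' (by simp) (by simp), Finsupp.sum_single_index rfl] at h2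
  exact h2

theorem not_mem_vars {K : Type} [Field K] [CharZero K] {n : ℕ} (P : Pl n K) (j : Fin n)
    (hP : pderiv j P = 0) : j ∉ P.vars := by
  classical
  intro hj
  rw [mem_vars_iff_mem_support] at hj
  obtain ⟨m, hm, hjm⟩ := hj
  rw [Finsupp.mem_support_iff] at hjm
  have h1 := coeff_pderiv (i := j) P (m - Finsupp.single j 1)
  have h2 : m - Finsupp.single j 1 + Finsupp.single j 1 = m := by
    ext i
    by_cases hi : i = j
    · subst hi
      simp
      omega
    · simp [Ne.symm hi]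
  rw [hP, coeff_zero, h2] at h1
  rw [mem_support_iff] at hm
  rcases mul_eq_zero.1 h1.symm with h | h
  · exact hm h
  · norm_cast at h

end T2M

open T2M

theorem tT2 (h1 : StmtRk1) : StmtT2 := by
  intro K _ _ n 𝔭 _
  classical
  obtain ⟨α, hα, hbas⟩ := h1 K n 𝔭
  -- no relation between the basis elements
  have hcl : ∀ (s : Set (Fin n)) (p : MvPolynomial s K),
      MvPolynomial.aeval (fun a : s => (cl 𝔭 (MvPolynomial.X (a : Fin n)) : CR 𝔭)) p =
        cl 𝔭 (MvPolynomial.rename (Subtype.val : s → Fin n) p) := by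
    intro s p
    have h2 : (Ideal.Quotient.mkₐ K 𝔭).comp (MvPolynomial.rename (Subtype.val : s → Fin n)) =
        MvPolynomial.aeval (fun a : s => (cl 𝔭 (MvPolynomial.X (a : Fin n)) : CR 𝔭)) := by
      ext a
      simp
    exact (AlgHom.congr_fun h2 p).symm
  have hno : ∀ G : Pl n K, G ∈ 𝔭 → (∀ i ∈ G.vars, i ∈ α) → G = 0 := by
    intro G hG hv
    obtain ⟨p, hp⟩ := MvPolynomial.exists_rename_eq_of_vars_subset_range G
      (Subtype.val : {i // i ∈ (α : Set (Fin n))} → Fin n) Subtype.val_injective (by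
        rw [Subtype.range_coe]
        exact fun i hi => hv i hi)
    have h2 := hcl (α : Set (Fin n)) p
    rw [hp] at h2
    have h3 : (cl 𝔭 G : CR 𝔭) = 0 := Ideal.Quotient.eq_zero_iff_mem.mpr hG
    rw [h3] at h2
    have h4 := (algebraicIndependent_iff.mp hbas.1) p h2
    rw [← hp, h4, map_zero]
  -- a relation for every other variable
  have hex : ∀ j, j ∉ α → ∃ G : Pl n K, G ≠ 0 ∧ G ∈ 𝔭 ∧ ∀ i ∈ G.vars, i = j ∨ i ∈ α := by
    intro j hj
    by_contra hcon
    push Not at hcon
    have hind : AlgebraicIndependent K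
        (fun a : ((insert j α : Finset (Fin n)) : Set (Fin n)) => (cl 𝔭 (MvPolynomial.X (a : Fin n)) : CR 𝔭)) := by
      rw [algebraicIndependent_iff]
      intro p hp
      by_contra hp0
      rw [hcl] at hp
      obtain ⟨i, hi, hij, hiα⟩ := hcon (MvPolynomial.rename Subtype.val p) (fun h => hp0 (by
        rwa [← map_zero (MvPolynomial.rename (R := K) (Subtype.val : ((insert j α : Finset (Fin n)) : Set (Fin n)) → Fin n)),
          (MvPolynomial.rename_injective _ Subtype.val_injective).eq_iff] at h))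
        (Ideal.Quotient.eq_zero_iff_mem.mp hp)
      have h2 := MvPolynomial.vars_rename (Subtype.val : ((insert j α : Finset (Fin n)) : Set (Fin n)) → Fin n) p hi
      obtain ⟨a, _, rfl⟩ := Finset.mem_image.mp h2
      have h3 : (a : Fin n) ∈ insert j α := a.2
      rcases Finset.mem_insert.mp h3 with h | h
      · exact hij h
      · exact hiα h
    have h2 := hind.cardinalMk_le_trdeg
    have h3 : Cardinal.mk ((insert j α : Finset (Fin n)) : Set (Fin n)) = ((rk 𝔭 + 1 : ℕ) : Cardinal) := by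
      rw [← hα, ← Finset.card_insert_of_notMem hj]
      exact Cardinal.mk_coe_finset
    have h4 : Algebra.trdeg K (CR 𝔭) = ((rk 𝔭 : ℕ) : Cardinal) := by
      rw [← hbas.cardinalMk_eq_trdeg, ← hα]
      exact Cardinal.mk_coe_finset
    rw [h3, h4] at h2
    have h5 : rk 𝔭 + 1 ≤ rk 𝔭 := by exact_mod_cast h2
    omega
  -- minimal relations
  have hmin : ∀ j, ∃ G : Pl n K, j ∉ α → G ∈ 𝔭 ∧ (∀ i ∈ G.vars, i = j ∨ i ∈ α) ∧
      MvPolynomial.pderiv j G ∉ 𝔭 := by
    intro j
    by_cases hj : j ∈ α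
    · exact ⟨0, fun h => absurd hj h⟩
    · have hex' : ∃ d : ℕ, ∃ G : Pl n K, (G ≠ 0 ∧ G ∈ 𝔭 ∧ ∀ i ∈ G.vars, i = j ∨ i ∈ α) ∧
          G.totalDegree = d := by
        obtain ⟨G, hG⟩ := hex j hj
        exact ⟨_, G, hG, rfl⟩
      obtain ⟨G, ⟨hG0, hG𝔭, hGv⟩, hGd⟩ := Nat.find_spec hex'
      refine ⟨G, fun _ => ⟨hG𝔭, hGv, fun hd => ?_⟩⟩
      have hne : MvPolynomial.pderiv j G ≠ 0 := by
        intro h0
        have h2 := not_mem_vars G j h0
        refine hG0 (hno G hG𝔭 fun i hi => ?_)
        rcases hGv i hi with rfl | h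
        · exact absurd hi h2
        · exact h
      have hlt := totalDegree_pderiv G j hne
      rw [hGd] at hlt
      exact Nat.find_min hex' hlt ⟨_, ⟨hne, hd, fun i hi => hGv i (vars_pderiv G j i hi)⟩, rfl⟩
  choose G hG using hmin
  have hcard : (αᶜ : Finset (Fin n)).card = n - rk 𝔭 := by
    rw [Finset.card_compl, Fintype.card_fin, hα]
  let e : Fin (n - rk 𝔭) ≃ (αᶜ : Finset (Fin n)) := ((αᶜ : Finset (Fin n)).equivFinOfCardEq hcard).symm
  have he : ∀ k, (e k : Fin n) ∉ α := fun k => Finset.mem_compl.mp (e k).2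
  refine ⟨fun k => G (e k), ∏ j ∈ αᶜ, MvPolynomial.pderiv j (G j), fun k => (hG _ (he k)).1, ?_, ?_⟩
  · intro h2
    obtain ⟨j, hj, hj2⟩ := (Ideal.IsPrime.prod_mem_iff).mp h2
    exact (hG j (Finset.mem_compl.mp hj)).2.2 hj2
  · intro x hx
    rw [map_prod, Finset.prod_ne_zero_iff] at hx
    rw [Fintype.linearIndependent_iff]
    intro g hg k
    have h2 := congrFun hg (e k : Fin n)
    rw [Finset.sum_apply, Finset.sum_eq_single k (fun k' _ hk' => by
      rw [Pi.smul_apply, grad, MvPolynomial.pderiv_eq_zero_of_notMem_vars (fun hv => ?_), map_zero, smul_zero]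
      rcases (hG _ (he k')).2.1 _ hv with h | h
      · exact hk' (e.injective (Subtype.ext h.symm))
      · exact he k h) (fun h => absurd (Finset.mem_univ k) h)] at h2
    rw [Pi.smul_apply, smul_eq_mul, Pi.zero_apply] at h2
    exact (mul_eq_zero.mp h2).resolve_right (hx _ (Finset.mem_compl.mpr (he k)))

end Pool.Agent.Lib.MP_16285c_agN
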