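import Pool.Agent.Lib.MP_16285c_agN.SpecR

/-!
# The first point of the orbit is a smooth point of its closure (T3)
-/

set_option autoImplicit false

namespace Pool.Agent.Lib.MP_16285c_agN

open Pool.Agent.Lib.MP_16285c_ag

namespace TanM

open MvPolynomial Module

variable {n : ℕ} {K : Type} [Field K]

/-- The gradient as a linear map. -/
noncomputable def gradL (x : Fin n → K) : Pl n K →ₗ[K] (Fin n → K) where
  toFun G := grad G x
  map_add' a b := by
    funext i
    simp [grad]
  map_smul' c a := by
    funext i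
    simp [grad]

theorem gradL_apply (x : Fin n → K) (G : Pl n K) : gradL x G = grad G x := rfl

/-- The gradients of the elements of the ideal. -/
noncomputable def gs (I : Ideal (Pl n K)) (x : Fin n → K) : Submodule K (Fin n → K) :=
  (I.restrictScalars K).map (gradL x)

theorem mem_gs (I : Ideal (Pl n K)) (x : Fin n → K) (v : Fin n → K) :
    v ∈ gs I x ↔ ∃ G ∈ I, grad G x = v := by
  simp only [gs, Submodule.mem_map, Submodule.restrictScalars_mem, gradL_apply]

theorem tg_eq (I : Ideal (Pl n K)) (x : Fin n → K) :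
    Tg I x = (gs I x).dualAnnihilator.comap (dotProductEquiv K (Fin n)).toLinearMap := by
  ext v
  rw [Submodule.mem_comap, Submodule.mem_dualAnnihilator]
  constructor
  · intro h w hw
    obtain ⟨G, hG, rfl⟩ := (mem_gs I x w).1 hw
    exact h G hG
  · intro h G hG
    exact h (grad G x) ((mem_gs I x _).2 ⟨G, hG, rfl⟩)

theorem dim_tg (I : Ideal (Pl n K)) (x : Fin n → K) :
    finrank K (gs I x) + finrank K (Tg I x) = n := by
  have h := Subspace.finrank_add_finrank_dualAnnihilator_eq (gs I x)
  rw [finrank_fin_fun] at h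
  have h2 : finrank K (Tg I x) = finrank K (gs I x).dualAnnihilator := by
    rw [tg_eq]
    exact LinearEquiv.finrank_eq
      ((dotProductEquiv K (Fin n)).ofSubmodule' (gs I x).dualAnnihilator)
  rw [h2]
  exact h

/-- Independent gradients bound the dimension of the tangent space. -/
theorem le_gs (I : Ideal (Pl n K)) (x : Fin n → K) (c : ℕ) (P : Fin c → Pl n K)
    (hP : ∀ j, P j ∈ I) (hl : LinearIndependent K fun j => grad (P j) x) :
    c ≤ finrank K (gs I x) := by
  have h1 : Submodule.span K (Set.range fun j => grad (P j) x) ≤ gs I x := by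
    rw [Submodule.span_le]
    rintro _ ⟨j, rfl⟩
    exact (mem_gs I x _).2 ⟨P j, hP j, rfl⟩
  have h2 := Submodule.finrank_mono h1
  rw [finrank_span_eq_card hl, Fintype.card_fin] at h2
  exact h2

theorem grd_of_le (I : Ideal (Pl n K)) (x : Fin n → K) (c : ℕ) (h : c ≤ finrank K (gs I x)) :
    Grd I x c := by
  let b := finBasis K (gs I x)
  have hb : ∀ j, ∃ G ∈ I, grad G x = (b j : Fin n → K) := fun j => (mem_gs I x _).1 (b j).2
  choose G hG hG2 using hb
  refine ⟨fun j => G (Fin.castLE h j), fun j => hG _, ?_⟩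
  have h1 : LinearIndependent K (fun j => ((b j : gs I x) : Fin n → K)) :=
    b.linearIndependent.map' (gs I x).subtype (Submodule.ker_subtype _)
  have h2 := h1.comp (Fin.castLE h) (Fin.castLE_injective h)
  have h3 : (fun j : Fin c => grad (G (Fin.castLE h j)) x) =
      (fun j => ((b j : gs I x) : Fin n → K)) ∘ Fin.castLE h := by
    funext j
    exact hG2 _
  rw [h3]
  exact h2

end TanM

theorem tTan (h1 : StmtT1) (h2 : StmtT2) : StmtTan := by
  intro K _ _ n f z M _ hf hj
  obtain ⟨P, D, hP, hD, hlin⟩ := h2 K n (van z M)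
  have hD2 : ∃ t, MvPolynomial.eval (z (M * t)) D ≠ 0 := by
    by_contra hc
    push Not at hc
    exact hD hc
  obtain ⟨t, ht⟩ := hD2
  have hit : ∀ m : ℕ, Module.finrank K (Tg (van (fun t => z (t + 0)) M) (z 0)) ≤
      Module.finrank K (Tg (van (fun t => z (t + m)) M) (z m)) := by
    intro m
    induction m with
    | zero => exact le_rfl
    | succ m ih => exact ih.trans (h1 K n f z M hf hj m)
  have h3 := hit (M * t)
  have h4 : (n - rk (van z M)) ≤
      Module.finrank K (TanM.gs (van (fun s => z (s + M * t)) M) (z (M * t))) := by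
    refine TanM.le_gs _ _ _ P (fun j => ?_) (hlin _ ht)
    intro s
    have h5 := hP j (s + t)
    rw [mul_add] at h5
    exact h5
  have h5 := TanM.dim_tg (van (fun s => z (s + M * t)) M) (z (M * t))
  have h6 := TanM.dim_tg (van (fun s => z (s + 0)) M) (z 0)
  refine TanM.grd_of_le _ _ _ ?_
  have h7 : (fun s => z (s + 0)) = z := rfl
  rw [h7] at h6 h3
  omega

end Pool.Agent.Lib.MP_16285c_agN
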