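import Pool.Agent.Lib.MP_16285c_agN.Iface
import Pool.Agent.Lib.MP_16285c_agN.DEG4a.All
import Pool.Agent.Lib.MP_16285c_agN.Rk1
import Pool.Agent.Lib.MP_16285c_agN.Rk2
import Pool.Agent.Lib.MP_16285c_agN.Rk3
import Pool.Agent.Lib.MP_16285c_agN.Rk4
import Pool.Agent.Lib.MP_16285c_agN.T1
import Pool.Agent.Lib.MP_16285c_agN.T2
import Pool.Agent.Lib.MP_16285c_agN.Tan
import Pool.Agent.Lib.MP_16285c_agN.A1
import Pool.Agent.Lib.MP_16285c_agN.A2
import Pool.Agent.Lib.MP_16285c_agN.A3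
import Pool.Agent.Lib.MP_16285c_agN.A4
import Pool.Agent.Lib.MP_16285c_agN.Arc
import Pool.Agent.Lib.MP_16285c_agN.I1
import Pool.Agent.Lib.MP_16285c_agN.I2
import Pool.Agent.Lib.MP_16285c_agN.Irr
import Pool.Agent.Lib.MP_16285c_agN.Pres
import Pool.Agent.Lib.MP_16285c_agN.Move
import Pool.Agent.Lib.MP_16285c_agN.Prim
import Pool.Agent.Lib.MP_16285c_agN.Low
import Pool.Agent.Lib.MP_16285c_agN.G1
import Pool.Agent.Lib.MP_16285c_agN.CoreN
import Pool.Agent.Lib.MP_16285c_agN.HitPt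
import Pool.Agent.Lib.MP_16285c_agN.TpPos
import Pool.Agent.Lib.MP_16285c_agN.Degr.NFD
import Pool.Agent.Lib.MP_16285c_agN.Degr.Bk
import Pool.Agent.Lib.MP_16285c_agN.Degr.Cnt
import Pool.Agent.Lib.MP_16285c_agN.Degr.DegrDesc
import Pool.Agent.Lib.MP_16285c_agN.Degr.DegrG
import Pool.Agent.Lib.MP_16285c_agN.Degr.DegrP
import Pool.Agent.Lib.MP_16285c_agN.Degr.Low1
import Pool.Agent.Lib.MP_16285c_agN.Degr.Low2
import Pool.Agent.Lib.MP_16285c_agN.Degr.Low3
import Pool.Agent.Lib.MP_16285c_agN.Degr.NN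
import Pool.Agent.Lib.MP_16285c_agN.Degr.Num
import Pool.Agent.Lib.MP_16285c_agN.Degr.Real2
import Pool.Agent.Lib.MP_16285c_agN.Degr.Rel
import Pool.Agent.Lib.MP_16285c_agN.Degr.Res
import Pool.Agent.Lib.MP_16285c_agN.Degr.Theta
import Pool.Agent.Lib.MP_16285c_agN.Degr.Trd
import Pool.Agent.Lib.MP_16285c_agN.Degr.Up
import Pool.Agent.Lib.MP_16285c_agN.Degr.UpF
import Pool.Agent.Lib.MP_16285c_agN.Degr.Vd

/-!
# The strong Zariski dense orbit conjecture for rational self-maps of affine space: assembly of the parts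

All the statements of `SpecR`, `SpecG`, `SpecN`, `Degr/Spec` which do not depend on Hilbert's irreducibility theorem, without hypotheses.
-/

set_option autoImplicit false

namespace Pool.Agent.Lib.MP_16285c_agN

theorem aRk3 : StmtRk3 := tRk3 tRk2

theorem aTan : StmtTan := tTan tT1 (tT2 tRk1)

theorem aArc : StmtArc := tArc tA1 tA2 (tA4 tA3) tRk2 tRk4

theorem aIrr : StmtIrr := tIrr aArc tI1 tI2

theorem aPres : StmtPres := tPres iVal

theorem aCoreN : StmtCoreN :=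
  tCoreN tRk2 aRk3 aTan aIrr stmtResF degP_all can_all iNoIPow iTpPow iVal iRepE aPres tMove tPrim
    tLow tG1 iJac

theorem aDegrP : StmtDegrP :=
  tDegrP tRk1 (tNum tCnt) tNN tUpF (tUp tVd) (tLow3 tVd (tLow2 tLow1)) tRel (tRes tG1) tTheta tTrd tBk

theorem aNFD : StmtNFD := tNFD (tDegrG tG1 aDegrP) tDegrDesc tReal2

end Pool.Agent.Lib.MP_16285c_agN
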