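import Pool.Agent.Lib.MP_16285c_agN.AllA
import Pool.Agent.Lib.MP_16285c_agN.Hit.Main
import Pool.Agent.Lib.MP_16285c_agN.FinNN

/-!
# The strong Zariski dense orbit conjecture for rational self-maps of affine space: assembly
-/

set_option autoImplicit false

namespace Pool.Agent.Lib.MP_16285c_agN

theorem aHITK : StmtHITK := Hit.hit

theorem aHitPt : StmtHitPt := tHitPt aHITK

theorem finNN : StmtFinNN := tFinNN aCoreN aHitPt iLiftC2 iDesc iTpGe iTpPow iJac

theorem allNFD : StmtNFD := aNFD

end Pool.Agent.Lib.MP_16285c_agN
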