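import Pool.Agent.ZDO.Box2
import Pool.Agent.ZDO.Prm

/-!
# The strong Zariski dense orbit conjecture for rational self-maps of affine space: definitions

`Pl n K = K[x_0, …, x_{n-1}]`, `RF n K` its field of fractions. A dominant rational self-map `f` of affine `n`-space over `K` is a
homomorphism `σ : RF n K →ₐ[K] RF n K` (`σ = f*`); `f ^ m` is `σ ^ m`. The topological degree of `f` is
`tp σ = [RF n K : σ (RF n K)]`.
-/

set_option autoImplicit false

namespace Pool.Agent.Lib.MP_16285c_agN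

open Pool.Agent.Lib.MP_16285c_ag

/-- The coordinate ring of affine space. -/
abbrev Pl (n : ℕ) (K : Type) [Field K] : Type := MvPolynomial (Fin n) K

/-- The function field of affine space. -/
abbrev RF (n : ℕ) (K : Type) [Field K] : Type := FractionRing (MvPolynomial (Fin n) K)

/-- A polynomial as a rational function. -/
noncomputable abbrev fr {n : ℕ} {K : Type} [Field K] (G : Pl n K) : RF n K :=
  algebraMap (MvPolynomial (Fin n) K) (FractionRing (MvPolynomial (Fin n) K)) G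

/-- The coordinate functions. -/
noncomputable def gen (n : ℕ) (K : Type) [Field K] (i : Fin n) : RF n K := fr (MvPolynomial.X i)

section

variable {n : ℕ} {K : Type} [Field K]

/-- The components of the `m`-th iterate. -/
noncomputable def it (σ : RF n K →ₐ[K] RF n K) (m : ℕ) (i : Fin n) : RF n K :=
  (σ ^ m) (gen n K i)

/-- The topological degree. -/
noncomputable def tp (σ : RF n K →ₐ[K] RF n K) : ℕ :=
  Module.finrank σ.fieldRange (RF n K)

/-- `g = (F₁ / F₀, …, F_n / F₀)`. -/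
structure Wk (g : Fin n → RF n K) (F : Fin (n + 1) → Pl n K) : Prop where
  ne : F 0 ≠ 0
  eq : ∀ i : Fin n, fr (F i.succ) = g i * fr (F 0)

/-- `g = (F₁ / F₀, …, F_n / F₀)` with `F₀, …, F_n` without common factor. -/
structure Rep (g : Fin n → RF n K) (F : Fin (n + 1) → Pl n K) : Prop extends Wk g F where
  cop : ∀ c : Pl n K, (∀ i, c ∣ F i) → IsUnit c

/-- The degree of a rational map (as a map of projective space). -/
noncomputable def dg (g : Fin n → RF n K) : ℕ :=
  sInf {D : ℕ | ∃ F : Fin (n + 1) → Pl n K, Rep g F ∧ ∀ i, (F i).totalDegree ≤ D}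

/-- The vectors `D ∂ⱼ Nᵢ - Nᵢ ∂ⱼ D`. -/
noncomputable abbrev wj {R : Type} [CommRing R] (f : RM R n) (i j : Fin n) :
    MvPolynomial (Fin n) R := Pool.Agent.ZDO.Wd f i j

/-- The numerator of the Jacobian determinant. -/
noncomputable abbrev jac {R : Type} [CommRing R] (f : RM R n) : MvPolynomial (Fin n) R :=
  Pool.Agent.ZDO.Jc f

/-- The product of the denominators. -/
noncomputable def dn {R : Type} [CommRing R] (f : RM R n) : MvPolynomial (Fin n) R := ∏ i, f.den i

/-- `σ` is the homomorphism of the rational map `f`. -/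
def Of (f : RM K n) (σ : RF n K →ₐ[K] RF n K) : Prop :=
  ∀ i, f.den i ≠ 0 ∧ σ (gen n K i) * fr (f.den i) = fr (f.num i)

/-- `ρ` is defined at the point `x` and has the value `x'`. -/
def Val (ρ : RF n K →ₐ[K] RF n K) (x x' : Fin n → K) : Prop :=
  ∀ H : Pl n K, ∃ E N : Pl n K, MvPolynomial.eval x E ≠ 0 ∧ fr N = fr E * ρ (fr H) ∧
    MvPolynomial.eval x N = MvPolynomial.eval x E * MvPolynomial.eval x' H

/-- `z 0, z 1, …` is an orbit of `ρ`. -/
def Flow (ρ : RF n K →ₐ[K] RF n K) (z : ℕ → Fin n → K) : Prop :=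
  ∀ m, Val ρ (z m) (z (m + 1))

/-- No invariant rational functions. -/
def NoI (σ : RF n K →ₐ[K] RF n K) : Prop :=
  ∀ g : RF n K, σ g = g → ∃ c : K, g = algebraMap K (RF n K) c

/-- The polynomials vanishing at the points `z (M t)`, `t ≥ 0`. -/
def van (z : ℕ → Fin n → K) (M : ℕ) : Ideal (Pl n K) where
  carrier := {G | ∀ t : ℕ, MvPolynomial.eval (z (M * t)) G = 0}
  add_mem' := by
    intro a b ha hb t
    rw [map_add, ha t, hb t, add_zero]
  zero_mem' := by
    intro t
    rw [map_zero]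
  smul_mem' := by
    intro c a ha t
    rw [smul_eq_mul, map_mul, ha t, mul_zero]

theorem mem_van (z : ℕ → Fin n → K) (M : ℕ) (G : Pl n K) :
    G ∈ van z M ↔ ∀ t : ℕ, MvPolynomial.eval (z (M * t)) G = 0 := Iff.rfl

/-! ## Residue fields of subvarieties -/

/-- The ring `K[x] / 𝔭`. -/
abbrev CR (𝔭 : Ideal (Pl n K)) : Type := MvPolynomial (Fin n) K ⧸ 𝔭

/-- The class of a polynomial in `K[x] / 𝔭`. -/
noncomputable abbrev cl (𝔭 : Ideal (Pl n K)) (G : Pl n K) : CR 𝔭 := Ideal.Quotient.mk 𝔭 G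

/-- `ρ` maps the local ring of the subvariety `V(𝔭)` into itself, by a local homomorphism. -/
def Pres (ρ : RF n K →ₐ[K] RF n K) (𝔭 : Ideal (Pl n K)) : Prop :=
  ∀ H : Pl n K, ∃ E N : Pl n K, E ∉ 𝔭 ∧ fr N = fr E * ρ (fr H) ∧ (H ∈ 𝔭 ↔ N ∈ 𝔭)

/-- The rational function `g` is regular along `V(𝔭)` and its restriction is `u`; `L` is the field of fractions of
`K[x] / 𝔭`. -/
def Rsd (𝔭 : Ideal (Pl n K)) (L : Type) [Field L] [Algebra (CR 𝔭) L] (g : RF n K) (u : L) :
    Prop :=
  ∃ N E : Pl n K, E ∉ 𝔭 ∧ g * fr E = fr N ∧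
    u * algebraMap (CR 𝔭) L (cl 𝔭 E) = algebraMap (CR 𝔭) L (cl 𝔭 N)

/-- `ρb` is the restriction of `ρ` to `V(𝔭)`. -/
def Rst (ρ : RF n K →ₐ[K] RF n K) (𝔭 : Ideal (Pl n K)) (L : Type) [Field L] [Algebra (CR 𝔭) L]
    [Algebra K L] (ρb : L →ₐ[K] L) : Prop :=
  ∀ (g : RF n K) (u : L), Rsd 𝔭 L g u → Rsd 𝔭 L (ρ g) (ρb u)

/-- The dimension of `V(𝔭)`. -/
noncomputable def rk (𝔭 : Ideal (Pl n K)) : ℕ := Cardinal.toNat (Algebra.trdeg K (CR 𝔭))

/-- The image in `K[x] / 𝔭` of the polynomials of degree `≤ j`. -/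
noncomputable def Vj (𝔭 : Ideal (Pl n K)) (j : ℕ) : Submodule K (CR 𝔭) :=
  (MvPolynomial.restrictTotalDegree (Fin n) K j).map (Ideal.Quotient.mkₐ K 𝔭).toLinearMap

/-- The gradient of a polynomial at a point. -/
noncomputable def grad (G : Pl n K) (x : Fin n → K) (i : Fin n) : K :=
  MvPolynomial.eval x (MvPolynomial.pderiv i G)

/-- `c` elements of `𝔭` with linearly independent gradients at `x`. -/
def Grd (𝔭 : Ideal (Pl n K)) (x : Fin n → K) (c : ℕ) : Prop :=
  ∃ P : Fin c → Pl n K, (∀ j, P j ∈ 𝔭) ∧ LinearIndependent K fun j => grad (P j) x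

end

end Pool.Agent.Lib.MP_16285c_agN
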