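import Pool.Agent.Lib.MP_16285c_agN.SpecF

/-!
# Degrees over smaller fields
-/

set_option autoImplicit false

namespace Pool.Agent.Lib.MP_16285c_agN

open Pool.Agent.Lib.MP_16285c_ag

namespace DgDescM

section basic

variable {n : ℕ} {K : Type} [Field K]

theorem fr_ne_zero {G : Pl n K} (h : G ≠ 0) : fr G ≠ 0 := by
  intro h0
  exact h (fr_injective (h0.trans (map_zero _).symm))

theorem fr_mul (A B : Pl n K) : fr (A * B) = fr A * fr B := map_mul _ _ _

theorem fr_C (c : K) : fr (MvPolynomial.C c : Pl n K) = algebraMap K (RF n K) c := by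
  rw [IsScalarTower.algebraMap_apply K (MvPolynomial (Fin n) K) (RF n K)]
  rfl

/-- Two homomorphisms on `RF n K` which agree on the constants and on the variables are equal. -/
theorem hom_ext {A : Type} [Field A] (u v : RF n K →+* A)
    (hK : ∀ c : K, u (algebraMap K (RF n K) c) = v (algebraMap K (RF n K) c))
    (hg : ∀ i, u (gen n K i) = v (gen n K i)) : u = v := by
  apply IsFractionRing.injective_comp_algebraMap (A := MvPolynomial (Fin n) K)
  change u.comp _ = v.comp _
  apply MvPolynomial.ringHom_ext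
  · intro c
    change u (fr (MvPolynomial.C c)) = v (fr (MvPolynomial.C c))
    rw [fr_C]
    exact hK c
  · exact hg

/-- A common denominator. -/
theorem common (g : Fin n → RF n K) :
    ∃ (E : Pl n K) (N : Fin n → Pl n K), E ≠ 0 ∧ ∀ i, fr (N i) = g i * fr E := by
  obtain ⟨b, hb⟩ := IsLocalization.exist_integer_multiples_of_finite
    (nonZeroDivisors (MvPolynomial (Fin n) K)) g
  choose N hN using hb
  refine ⟨(b : Pl n K), N, nonZeroDivisors.ne_zero b.2, fun i => ?_⟩
  have h := hN i
  rw [Algebra.smul_def] at h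
  rw [mul_comm]
  exact h

theorem wk_exists (g : Fin n → RF n K) : ∃ F : Fin (n + 1) → Pl n K, Wk g F := by
  obtain ⟨E, N, hE, h⟩ := common g
  refine ⟨Fin.cons E N, ?_, fun i => ?_⟩
  · rw [Fin.cons_zero]
    exact hE
  · rw [Fin.cons_succ, Fin.cons_zero]
    exact h i

/-- A representative with the denominator of least degree has no common factor. -/
theorem rep_exists (g : Fin n → RF n K) : ∃ F : Fin (n + 1) → Pl n K, Rep g F := by
  have hne : {D : ℕ | ∃ F : Fin (n + 1) → Pl n K, Wk g F ∧ (F 0).totalDegree = D}.Nonempty := by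
    obtain ⟨F, hF⟩ := wk_exists g
    exact ⟨_, F, hF, rfl⟩
  obtain ⟨F, hF, hd⟩ := Nat.sInf_mem hne
  refine ⟨F, ⟨hF, fun c hc => ?_⟩⟩
  choose G hG using hc
  have hc0 : c ≠ 0 := by
    intro h0
    apply hF.ne
    rw [hG 0, h0, zero_mul]
  have hG0 : G 0 ≠ 0 := by
    intro h0
    apply hF.ne
    rw [hG 0, h0, mul_zero]
  have hW : Wk g G := by
    refine ⟨hG0, fun i => ?_⟩
    have h1 := hF.eq i
    rw [hG, hG 0, fr_mul, fr_mul] at h1
    have h2 : fr c * fr (G i.succ) = fr c * (g i * fr (G 0)) := by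
      rw [h1]
      ring
    exact mul_left_cancel₀ (fr_ne_zero hc0) h2
  have h1 : (F 0).totalDegree ≤ (G 0).totalDegree := by
    rw [hd]
    exact Nat.sInf_le ⟨G, hW, rfl⟩
  rw [hG 0, MvPolynomial.totalDegree_mul_of_isDomain hc0 hG0] at h1
  have h2 : c.totalDegree = 0 := by omega
  have h3 := MvPolynomial.totalDegree_eq_zero_iff_eq_C.1 h2
  have h4 : MvPolynomial.coeff 0 c ≠ 0 := by
    intro h0
    apply hc0
    rw [h3, h0, map_zero]
  rw [h3]
  exact (isUnit_iff_ne_zero.2 h4).map MvPolynomial.C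

theorem dg_attained (g : Fin n → RF n K) :
    ∃ F : Fin (n + 1) → Pl n K, Rep g F ∧ ∀ i, (F i).totalDegree ≤ dg g := by
  have hne : {D : ℕ | ∃ F : Fin (n + 1) → Pl n K, Rep g F ∧
      ∀ i, (F i).totalDegree ≤ D}.Nonempty := by
    obtain ⟨G, hG⟩ := rep_exists g
    exact ⟨∑ i, (G i).totalDegree, G, hG, fun i =>
      Finset.single_le_sum (f := fun i => (G i).totalDegree) (fun _ _ => Nat.zero_le _)
        (Finset.mem_univ i)⟩
  exact Nat.sInf_mem hne

end basic

section bc

variable {n : ℕ} {K L : Type} [Field K] [Field L] [Algebra K L]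

theorem bc_gen (i : Fin n) : bc n K L (gen n K i) = gen n L i := by
  rw [gen, bc_fr, MvPolynomial.map_X, gen]

theorem bc_algebraMap (c : K) :
    bc n K L (algebraMap K (RF n K) c) = algebraMap L (RF n L) (algebraMap K L c) := by
  rw [← fr_C, bc_fr, MvPolynomial.map_C, fr_C]

theorem cmp_apply {σK : RF n K →ₐ[K] RF n K} {σL : RF n L →ₐ[L] RF n L} (h : Cmp σK σL)
    (g : RF n K) : σL (bc n K L g) = bc n K L (σK g) := by
  have : (σL : RF n L →+* RF n L).comp (bc n K L) =
      (bc n K L).comp (σK : RF n K →+* RF n K) := by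
    apply hom_ext
    · intro c
      change σL (bc n K L (algebraMap K (RF n K) c)) = bc n K L (σK (algebraMap K (RF n K) c))
      rw [bc_algebraMap, AlgHom.commutes, AlgHom.commutes, bc_algebraMap]
    · intro i
      change σL (bc n K L (gen n K i)) = bc n K L (σK (gen n K i))
      rw [bc_gen, h]
  exact congrArg (fun u : RF n K →+* RF n L => u g) this

theorem cmp_pow {σK : RF n K →ₐ[K] RF n K} {σL : RF n L →ₐ[L] RF n L} (h : Cmp σK σL) (m : ℕ) :
    Cmp (σK ^ m) (σL ^ m) := by
  induction m with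
  | zero =>
    intro i
    rw [pow_zero, pow_zero, AlgHom.one_apply, AlgHom.one_apply, bc_gen]
  | succ m ih =>
    intro i
    rw [pow_succ', pow_succ', AlgHom.mul_apply, AlgHom.mul_apply, ih i, cmp_apply h]

theorem cmp_it {σK : RF n K →ₐ[K] RF n K} {σL : RF n L →ₐ[L] RF n L} (h : Cmp σK σL) (m : ℕ)
    (i : Fin n) : it σL m i = bc n K L (it σK m i) :=
  cmp_pow h m i

/-! ### A linear form applied to the coefficients -/

/-- The linear form `l` applied to the coefficients. -/
noncomputable def lam (l : L →ₗ[K] K) (B : Pl n L) : Pl n K :=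
  ∑ u ∈ B.support, MvPolynomial.monomial u (l (MvPolynomial.coeff u B))

theorem coeff_lam (l : L →ₗ[K] K) (B : Pl n L) (u : Fin n →₀ ℕ) :
    MvPolynomial.coeff u (lam l B) = l (MvPolynomial.coeff u B) := by
  classical
  unfold lam
  rw [MvPolynomial.coeff_sum]
  simp only [MvPolynomial.coeff_monomial]
  rw [Finset.sum_ite_eq']
  split_ifs with h
  · rfl
  · rw [MvPolynomial.notMem_support_iff.1 h, map_zero]

theorem lam_mul (l : L →ₗ[K] K) (A : Pl n K) (B : Pl n L) :
    lam l (MvPolynomial.map (algebraMap K L) A * B) = A * lam l B := by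
  classical
  ext u
  rw [coeff_lam, MvPolynomial.coeff_mul, MvPolynomial.coeff_mul, map_sum]
  refine Finset.sum_congr rfl fun x _ => ?_
  rw [coeff_lam, MvPolynomial.coeff_map, ← Algebra.smul_def, map_smul, smul_eq_mul]

theorem lam_deg (l : L →ₗ[K] K) (B : Pl n L) : (lam l B).totalDegree ≤ B.totalDegree := by
  unfold MvPolynomial.totalDegree
  apply Finset.sup_mono
  intro u hu
  rw [MvPolynomial.mem_support_iff, coeff_lam] at hu
  rw [MvPolynomial.mem_support_iff]
  intro h0
  exact hu (by rw [h0, map_zero])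

/-- Representatives over the smaller field. -/
theorem desc (g : Fin n → RF n K) (F : Fin (n + 1) → Pl n L)
    (hF : Wk (fun i => bc n K L (g i)) F) :
    ∃ G : Fin (n + 1) → Pl n K, Wk g G ∧ ∀ i, (G i).totalDegree ≤ (F i).totalDegree := by
  obtain ⟨E, N, hE, hN⟩ := common g
  obtain ⟨u, hu⟩ := MvPolynomial.ne_zero_iff.1 hF.ne
  have hl : ∃ l : L →ₗ[K] K, l (MvPolynomial.coeff u (F 0)) ≠ 0 := by
    by_contra h
    push Not at h
    exact hu ((Module.forall_dual_apply_eq_zero_iff K _).1 h)
  obtain ⟨l, hl⟩ := hl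
  refine ⟨fun i => lam l (F i), ⟨?_, fun i => ?_⟩, fun i => lam_deg l (F i)⟩
  · intro h0
    apply hl
    rw [← coeff_lam]
    change lam l (F 0) = 0 at h0
    rw [h0, MvPolynomial.coeff_zero]
  · have h1 : MvPolynomial.map (algebraMap K L) E * F i.succ =
        MvPolynomial.map (algebraMap K L) (N i) * F 0 := by
      apply fr_injective (n := n) (K := L)
      rw [fr_mul, fr_mul, hF.eq i, ← bc_fr, ← bc_fr, hN i, map_mul]
      ring
    have h2 := congrArg (lam l) h1
    rw [lam_mul, lam_mul] at h2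
    have h3 := congrArg (fr (n := n) (K := K)) h2
    rw [fr_mul, fr_mul, hN i] at h3
    have h4 : fr E * fr (lam l (F i.succ)) = fr E * (g i * fr (lam l (F 0))) := by
      rw [h3]
      ring
    exact mul_left_cancel₀ (fr_ne_zero hE) h4

end bc

end DgDescM

theorem tDgDesc : StmtDgDesc := by
  intro hS K L _ _ _ n σK σL h m
  obtain ⟨F, hF, hd⟩ := DgDescM.dg_attained (it σL m)
  have hg : it σL m = fun i => bc n K L (it σK m i) := by
    funext i
    exact DgDescM.cmp_it h m i
  have hW : Wk (fun i => bc n K L (it σK m i)) F := by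
    rw [← hg]
    exact hF.toWk
  obtain ⟨G, hG, hGd⟩ := DgDescM.desc (it σK m) F hW
  exact hS K n (it σK m) G (dg (it σL m)) hG fun i => (hGd i).trans (hd i)

end Pool.Agent.Lib.MP_16285c_agN
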