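import Pool.Agent.Lib.MP_16285c_agN.SpecF

/-!
# The degrees of the iterates are positive
-/

set_option autoImplicit false

namespace Pool.Agent.Lib.MP_16285c_agN

open Pool.Agent.Lib.MP_16285c_ag

theorem tDgPos (hr : StmtRepE) : StmtDgPos := by
  intro K _ n σ m hn
  by_contra hcon
  have h0 : dg (it σ m) = 0 := by omega
  obtain ⟨F, hF, hdeg⟩ := hr.1 K n (it σ m)
  rw [h0] at hdeg
  have hC : ∀ i, ∃ c : K, F i = MvPolynomial.C c := by
    intro i
    have h1 : (F i).totalDegree = 0 := Nat.le_zero.mp (hdeg i)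
    exact ⟨_, MvPolynomial.totalDegree_eq_zero_iff_eq_C.mp h1⟩
  choose c hc using hC
  have hfC : ∀ a : K, fr (n := n) (K := K) (MvPolynomial.C a) = algebraMap K (RF n K) a := by
    intro a
    exact (IsScalarTower.algebraMap_apply K (MvPolynomial (Fin n) K)
      (FractionRing (MvPolynomial (Fin n) K)) a).symm
  have hc0 : c 0 ≠ 0 := by
    intro h
    apply hF.ne
    rw [hc 0, h, map_zero]
  let i0 : Fin n := ⟨0, hn⟩
  have he := hF.eq i0
  rw [hc i0.succ, hc 0, hfC, hfC] at he
  have hc0' : algebraMap K (RF n K) (c 0) ≠ 0 := by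
    intro h
    exact hc0 ((map_eq_zero _).mp h)
  have hit : (σ ^ m) (gen n K i0) = algebraMap K (RF n K) (c i0.succ / c 0) := by
    have h2 : (σ ^ m) (gen n K i0) * algebraMap K (RF n K) (c 0) =
        algebraMap K (RF n K) (c i0.succ) := he.symm
    rw [map_div₀]
    exact (eq_div_iff hc0').mpr h2
  have hinj : Function.Injective (σ ^ m) := (σ ^ m).toRingHom.injective
  have hg : gen n K i0 = algebraMap K (RF n K) (c i0.succ / c 0) := by
    apply hinj
    rw [hit, AlgHom.commutes]
  have hX : (MvPolynomial.X i0 : Pl n K) = MvPolynomial.C (c i0.succ / c 0) := by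
    apply fr_injective (n := n) (K := K)
    rw [hfC]
    exact hg
  have h3 := congrArg MvPolynomial.totalDegree hX
  rw [MvPolynomial.totalDegree_X, MvPolynomial.totalDegree_C] at h3
  exact one_ne_zero h3

end Pool.Agent.Lib.MP_16285c_agN
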