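import Pool.Agent.Lib.MP_16285c_agN.SpecG

/-!
# (G2) Upper bound for the Hilbert function

Noether normalization: `K[x] / 𝔭` is a finite module over a polynomial ring in `s ≤ rk 𝔭` variables; a generator times a
variable is a combination of the generators with coefficients of bounded degree.
-/

set_option autoImplicit false

namespace Pool.Agent.Lib.MP_16285c_agN

open Pool.Agent.Lib.MP_16285c_ag

namespace G2M

open MvPolynomial

/-- The dimension of the space of polynomials of degree `≤ N` in `s` variables. -/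
theorem finrank_rtd (K : Type) [Field K] (s N : ℕ) :
    Module.Finite K (restrictTotalDegree (Fin s) K N) ∧
      Module.finrank K (restrictTotalDegree (Fin s) K N) ≤ (N + 1) ^ s := by
  let T : Set (Fin s →₀ ℕ) := {n | (n.sum fun _ e => e) ≤ N}
  have hT : ∀ n : T, ∀ i, (n : Fin s →₀ ℕ) i < N + 1 := by
    intro n i
    have h1 : ((n : Fin s →₀ ℕ).sum fun _ e => e) ≤ N := n.2
    rw [Finsupp.sum_fintype _ _ (fun _ => rfl)] at h1
    have h2 : (n : Fin s →₀ ℕ) i ≤ ∑ j, (n : Fin s →₀ ℕ) j :=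
      Finset.single_le_sum (f := fun j => (n : Fin s →₀ ℕ) j) (fun j _ => Nat.zero_le _)
        (Finset.mem_univ i)
    omega
  let f : T → (Fin s → Fin (N + 1)) := fun n i => ⟨(n : Fin s →₀ ℕ) i, hT n i⟩
  have hf : Function.Injective f := by
    intro a b hab
    refine Subtype.ext (Finsupp.ext fun i => ?_)
    exact Fin.mk.inj_iff.1 (congrFun hab i)
  have hfin : Finite T := Finite.of_injective f hf
  have hb : Module.Basis T K (restrictTotalDegree (Fin s) K N) := basisRestrictSupport K T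
  refine ⟨Module.Finite.of_basis hb, ?_⟩
  rw [Module.finrank_eq_nat_card_basis hb]
  refine (Nat.card_le_card_of_injective f hf).trans ?_
  rw [Nat.card_eq_fintype_card, Fintype.card_fun, Fintype.card_fin, Fintype.card_fin]

theorem gens {S A : Type} [CommRing S] [CommRing A] (g : S →+* A) (hg : g.Finite) :
    ∃ (δ : ℕ) (W : Fin δ → A), ∀ a, ∃ c : Fin δ → S, ∑ l, g (c l) * W l = a := by
  letI := g.toAlgebra
  haveI : Module.Finite S A := hg
  obtain ⟨δ, W, hW⟩ := Module.Finite.exists_fin (R := S) (M := A)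
  refine ⟨δ, W, fun a => ?_⟩
  have ha : a ∈ Submodule.span S (Set.range W) := hW ▸ Submodule.mem_top
  obtain ⟨c, hc⟩ := (Submodule.mem_span_range_iff_exists_fun S).1 ha
  exact ⟨c, hc⟩

section

variable {K A : Type} [Field K] [CommRing A] [Algebra K A] {s δ : ℕ}
  (g : MvPolynomial (Fin s) K →ₐ[K] A) (W : Fin δ → A)

/-- The combinations of the `W l` with coefficients of degree `≤ N`. -/
noncomputable def Phi (N : ℕ) : (Fin δ → restrictTotalDegree (Fin s) K N) →ₗ[K] A where
  toFun c := ∑ l, g (c l : MvPolynomial (Fin s) K) * W l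
  map_add' c c' := by
    rw [← Finset.sum_add_distrib]
    refine Finset.sum_congr rfl fun l _ => ?_
    rw [Pi.add_apply, Submodule.coe_add, map_add, add_mul]
  map_smul' k c := by
    rw [RingHom.id_apply, Finset.smul_sum]
    refine Finset.sum_congr rfl fun l _ => ?_
    rw [Pi.smul_apply, Submodule.coe_smul, map_smul, smul_mul_assoc]

theorem mem_U (N : ℕ) (a : A) : a ∈ LinearMap.range (Phi g W N) ↔
    ∃ c : Fin δ → MvPolynomial (Fin s) K, (∀ l, (c l).totalDegree ≤ N) ∧
      ∑ l, g (c l) * W l = a := by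
  constructor
  · rintro ⟨c, rfl⟩
    exact ⟨fun l => c l, fun l => (mem_restrictTotalDegree _ _ _).1 (c l).2, rfl⟩
  · rintro ⟨c, hc, rfl⟩
    exact ⟨fun l => ⟨c l, (mem_restrictTotalDegree _ _ _).2 (hc l)⟩, rfl⟩

theorem mono_U {N N' : ℕ} (h : N ≤ N') :
    LinearMap.range (Phi g W N) ≤ LinearMap.range (Phi g W N') := by
  intro a ha
  obtain ⟨c, hc, rfl⟩ := (mem_U g W N a).1 ha
  exact (mem_U g W N' _).2 ⟨c, fun l => (hc l).trans h, rfl⟩

theorem mul_U (x : A) (e : ℕ) (b : Fin δ → Fin δ → MvPolynomial (Fin s) K)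
    (hb : ∀ l m, (b l m).totalDegree ≤ e) (hx : ∀ l, ∑ m, g (b l m) * W m = x * W l)
    (N : ℕ) (a : A) (ha : a ∈ LinearMap.range (Phi g W N)) :
    x * a ∈ LinearMap.range (Phi g W (N + e)) := by
  obtain ⟨c, hc, rfl⟩ := (mem_U g W N a).1 ha
  refine (mem_U g W _ _).2 ⟨fun m => ∑ l, c l * b l m, fun m => ?_, ?_⟩
  · refine (mem_restrictTotalDegree _ _ _).1 (Submodule.sum_mem _ fun l _ => ?_)
    exact (mem_restrictTotalDegree _ _ _).2
      ((totalDegree_mul _ _).trans (add_le_add (hc l) (hb l m)))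
  · calc ∑ m, g (∑ l, c l * b l m) * W m = ∑ m, ∑ l, g (c l) * (g (b l m) * W m) := by
          refine Finset.sum_congr rfl fun m _ => ?_
          rw [map_sum, Finset.sum_mul]
          refine Finset.sum_congr rfl fun l _ => ?_
          rw [map_mul, mul_assoc]
      _ = ∑ l, g (c l) * (x * W l) := by
          rw [Finset.sum_comm]
          refine Finset.sum_congr rfl fun l _ => ?_
          rw [← Finset.mul_sum, hx]
      _ = x * ∑ l, g (c l) * W l := by
          rw [Finset.mul_sum]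
          exact Finset.sum_congr rfl fun l _ => by ring

theorem finrank_U (N : ℕ) : Module.finrank K (LinearMap.range (Phi g W N)) ≤
    δ * (N + 1) ^ s := by
  obtain ⟨h1, h2⟩ := finrank_rtd K s N
  refine (LinearMap.finrank_range_le _).trans ?_
  rw [Module.finrank_pi_fintype, Finset.sum_const, Finset.card_univ, Fintype.card_fin, smul_eq_mul]
  exact Nat.mul_le_mul_left _ h2

theorem fin_U (N : ℕ) : Module.Finite K (LinearMap.range (Phi g W N)) := by
  have h1 := (finrank_rtd K s N).1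
  infer_instance

end

theorem main (K : Type) [Field K] (n : ℕ) (𝔭 : Ideal (Pl n K)) [𝔭.IsPrime] : ∃ C : ℕ, ∀ j : ℕ,
    Module.finrank K (Vj 𝔭 j) ≤ C * (j + 1) ^ rk 𝔭 := by
  obtain ⟨s, g, hg, hfin⟩ := exists_finite_inj_algHom_of_fg K (CR 𝔭)
  obtain ⟨δ, W, hW⟩ := gens g.toRingHom hfin
  choose c1 hc1 using hW
  -- the number of variables
  have hs : s ≤ rk 𝔭 := by
    have h1 : AlgebraicIndependent K (fun i : Fin s => g (X i)) :=
      (MvPolynomial.algebraicIndependent_X (Fin s) K).map' hg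
    have h2 := h1.cardinalMk_le_trdeg
    rw [Cardinal.mk_fin] at h2
    have h3 := Cardinal.toNat_le_toNat h2 (trdeg_lt_aleph0_of_finiteType (R := K) (S := CR 𝔭))
    rwa [Cardinal.toNat_natCast] at h3
  -- the degrees of the coefficients
  obtain ⟨e, he⟩ : ∃ e, e = ∑ l, (c1 1 l).totalDegree +
      ∑ i : Fin n, ∑ l, ∑ m, (c1 (cl 𝔭 (X i) * W l) m).totalDegree := ⟨_, rfl⟩
  have he1 : ∀ l, (c1 1 l).totalDegree ≤ e := by
    intro l
    rw [he]
    exact (Finset.single_le_sum (f := fun l => (c1 1 l).totalDegree) (fun _ _ => Nat.zero_le _)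
      (Finset.mem_univ l)).trans (Nat.le_add_right _ _)
  have he2 : ∀ i l m, (c1 (cl 𝔭 (X i) * W l) m).totalDegree ≤ e := by
    intro i l m
    rw [he]
    refine le_trans ?_ (Nat.le_add_left _ _)
    refine le_trans ?_ (Finset.single_le_sum (f := fun i : Fin n =>
      ∑ l, ∑ m, (c1 (cl 𝔭 (X i) * W l) m).totalDegree) (fun _ _ => Nat.zero_le _)
      (Finset.mem_univ i))
    refine le_trans ?_ (Finset.single_le_sum (f := fun l =>
      ∑ m, (c1 (cl 𝔭 (X i) * W l) m).totalDegree) (fun _ _ => Nat.zero_le _) (Finset.mem_univ l))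
    exact Finset.single_le_sum (f := fun m => (c1 (cl 𝔭 (X i) * W l) m).totalDegree)
      (fun _ _ => Nat.zero_le _) (Finset.mem_univ m)
  -- the monomials
  have hmon : ∀ k : ℕ, ∀ m : Fin n →₀ ℕ, (m.sum fun _ e => e) = k →
      (cl 𝔭 (monomial m 1) : CR 𝔭) ∈ LinearMap.range (Phi g W (e * (k + 1))) := by
    intro k
    induction k with
    | zero =>
      intro m hm
      have hm0 : m = 0 := by
        rw [Finsupp.sum_fintype _ _ (fun _ => rfl), Finset.sum_eq_zero_iff] at hm
        exact Finsupp.ext fun i => hm i (Finset.mem_univ i)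
      rw [hm0]
      refine (mem_U g W _ _).2 ⟨c1 1, fun l => ?_, ?_⟩
      · rw [zero_add, mul_one]
        exact he1 l
      · exact hc1 1
    | succ k ih =>
      intro m hm
      obtain ⟨i, hi⟩ : ∃ i, 1 ≤ m i := by
        by_contra hcon
        push Not at hcon
        rw [Finsupp.sum_fintype _ _ (fun _ => rfl), Finset.sum_eq_zero fun i _ => by
          have := hcon i
          omega] at hm
        omega
      obtain ⟨m', hm'⟩ : ∃ m' : Fin n →₀ ℕ, m = m' + Finsupp.single i 1 :=
        ⟨m - Finsupp.single i 1, (tsub_add_cancel_of_le (Finsupp.single_le_iff.2 hi)).symm⟩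
      have hk : (m'.sum fun _ e => e) = k := by
        rw [hm', Finsupp.sum_add_index' (fun _ => rfl) (fun _ _ _ => rfl),
          Finsupp.sum_single_index rfl] at hm
        omega
      have h1 : (cl 𝔭 (monomial m 1) : CR 𝔭) = cl 𝔭 (X i) * cl 𝔭 (monomial m' 1) := by
        rw [hm', monomial_add_single, pow_one]
        show Ideal.Quotient.mk 𝔭 _ = Ideal.Quotient.mk 𝔭 _ * Ideal.Quotient.mk 𝔭 _
        rw [map_mul, mul_comm]
      rw [h1]
      have h2 := mul_U g W (cl 𝔭 (X i)) e (fun l => c1 (cl 𝔭 (X i) * W l)) (fun l m => he2 i l m)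
        (fun l => hc1 _) (e * (k + 1)) _ (ih m' hk)
      rwa [show e * (k + 1 + 1) = e * (k + 1) + e by ring]
  have hV : ∀ j, Vj 𝔭 j ≤ LinearMap.range (Phi g W (e * (j + 1))) := by
    intro j
    unfold Vj restrictTotalDegree
    rw [restrictSupport_eq_span, Submodule.map_le_iff_le_comap, Submodule.span_le]
    rintro _ ⟨m, hm, rfl⟩
    exact mono_U g W (Nat.mul_le_mul_left e (Nat.succ_le_succ hm)) (hmon _ m rfl)
  refine ⟨δ * (e + 1) ^ s, fun j => ?_⟩
  have h1 := fin_U g W (e * (j + 1))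
  refine (Submodule.finrank_mono (hV j)).trans ((finrank_U g W _).trans ?_)
  have h2 : e * (j + 1) + 1 ≤ (e + 1) * (j + 1) := by nlinarith
  calc δ * (e * (j + 1) + 1) ^ s ≤ δ * ((e + 1) * (j + 1)) ^ s :=
        Nat.mul_le_mul_left _ (Nat.pow_le_pow_left h2 s)
    _ = δ * (e + 1) ^ s * (j + 1) ^ s := by rw [mul_pow, mul_assoc]
    _ ≤ δ * (e + 1) ^ s * (j + 1) ^ rk 𝔭 :=
        Nat.mul_le_mul_left _ (Nat.pow_le_pow_right (Nat.succ_pos j) hs)

end G2M

theorem tG2 (_ : StmtRk1) : StmtG2 := fun K _ n 𝔭 _ => G2M.main K n 𝔭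

end Pool.Agent.Lib.MP_16285c_agN
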