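import Pool.Agent.Lib.MP_16285c_agN.SpecG

/-!
# The denominator of a reduced representative does not vanish along `V(𝔭)`
-/

set_option autoImplicit false

namespace Pool.Agent.Lib.MP_16285c_agN

namespace G3M

/-- A divisor of all `W * F j`, where the `F j` have no common factor, divides `W`. -/
theorem dvd_of_cop {A : Type} [CommRing A] [IsDomain A] [UniqueFactorizationMonoid A] {ι : Type}
    (F : ι → A) (hc : ∀ c : A, (∀ i, c ∣ F i) → IsUnit c) (a W : A) (ha : a ≠ 0)
    (h : ∀ j, a ∣ W * F j) : a ∣ W := by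
  obtain ⟨a', b', c', hrel, h1, h2⟩ := UniqueFactorizationMonoid.exists_reduced_factors a ha W
  have hc0 : c' ≠ 0 := by
    rintro rfl
    exact ha (by rw [← h1, zero_mul])
  have hu : IsUnit a' := by
    refine hc a' fun j => ?_
    have h3 : c' * a' ∣ c' * (b' * F j) := by
      rw [h1, ← mul_assoc, h2]
      exact h j
    have h4 : a' ∣ b' * F j := (mul_dvd_mul_iff_left hc0).1 h3
    exact hrel.dvd_of_dvd_mul_left h4
  obtain ⟨w, hw⟩ := hu.exists_right_inv
  refine ⟨w * b', ?_⟩
  rw [← h1, ← h2]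
  calc c' * b' = c' * (a' * w) * b' := by rw [hw, mul_one]
    _ = c' * a' * (w * b') := by ring

end G3M

theorem tG3 : StmtG3 := by
  intro K _ n ρ 𝔭 _ hP F hF
  choose E N hE hEN _ using fun i : Fin n => hP (MvPolynomial.X i)
  have hinj : Function.Injective
      (algebraMap (MvPolynomial (Fin n) K) (FractionRing (MvPolynomial (Fin n) K))) :=
    IsFractionRing.injective _ _
  have key : ∀ i : Fin n, E i * F i.succ = N i * F 0 := by
    intro i
    apply hinj
    have h1 := hF.eq i
    have h2 := hEN i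
    rw [map_mul, map_mul]
    change fr (E i) * fr (F i.succ) = fr (N i) * fr (F 0)
    rw [h1, h2]
    change fr (E i) * (ρ (fr (MvPolynomial.X i)) * fr (F 0)) =
      fr (E i) * ρ (fr (MvPolynomial.X i)) * fr (F 0)
    ring
  have hdv : ∀ j : Fin (n + 1), F 0 ∣ (∏ i, E i) * F j := by
    intro j
    refine Fin.cases ?_ (fun i => ?_) j
    · exact dvd_mul_left _ _
    · have h1 : E i ∣ ∏ i, E i := Finset.dvd_prod_of_mem E (Finset.mem_univ i)
      obtain ⟨w, hw⟩ := h1
      refine ⟨w * N i, ?_⟩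
      rw [hw]
      calc E i * w * F i.succ = w * (E i * F i.succ) := by ring
        _ = w * (N i * F 0) := by rw [key i]
        _ = F 0 * (w * N i) := by ring
  have hd : F 0 ∣ ∏ i, E i := G3M.dvd_of_cop F hF.cop (F 0) (∏ i, E i) hF.ne hdv
  intro hmem
  have h1 : (∏ i, E i) ∈ 𝔭 := Ideal.mem_of_dvd 𝔭 hd hmem
  rw [Ideal.IsPrime.prod_mem_iff] at h1
  obtain ⟨i, _, hi⟩ := h1
  exact hE i hi

end Pool.Agent.Lib.MP_16285c_agN
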