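import Pool.Agent.Lib.MP_16285c_agN.SpecG

/-!
# Growth of the degrees on a subvariety
-/

set_option autoImplicit false

namespace Pool.Agent.Lib.MP_16285c_agN

open Pool.Agent.Lib.MP_16285c_ag

namespace G4M

open MvPolynomial

section

variable {n : ℕ} {K : Type} [Field K] (𝔭 : Ideal (Pl n K)) [𝔭.IsPrime] (L : Type) [Field L]
  [Algebra (CR 𝔭) L] [Algebra K L] [IsScalarTower K (CR 𝔭) L]

/-- The class of a polynomial in the field of fractions of `K[x] / 𝔭`. -/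
noncomputable def cb : Pl n K →ₐ[K] L :=
  (IsScalarTower.toAlgHom K (CR 𝔭) L).comp (Ideal.Quotient.mkₐ K 𝔭)

omit [𝔭.IsPrime] in
theorem cb_apply (G : Pl n K) : cb 𝔭 L G = algebraMap (CR 𝔭) L (cl 𝔭 G) := rfl

omit [𝔭.IsPrime] in
theorem cb_ne [IsFractionRing (CR 𝔭) L] {G : Pl n K} (hG : G ∉ 𝔭) : cb 𝔭 L G ≠ 0 := by
  rw [cb_apply]
  intro h
  apply hG
  have h1 := (IsFractionRing.injective (CR 𝔭) L) (h.trans (map_zero _).symm)
  exact Ideal.Quotient.eq_zero_iff_mem.mp h1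

theorem res [IsFractionRing (CR 𝔭) L] {ρ : RF n K →ₐ[K] RF n K} {ρb : L →ₐ[K] L}
    (hR : Rst ρ 𝔭 L ρb) {F : Fin (n + 1) → Pl n K} (hW : Wk (fun i => ρ (gen n K i)) F)
    (i : Fin n) : ρb (cb 𝔭 L (X i)) * cb 𝔭 L (F 0) = cb 𝔭 L (F i.succ) := by
  have h1 : (1 : Pl n K) ∉ 𝔭 := fun h => (inferInstance : 𝔭.IsPrime).ne_top ((Ideal.eq_top_iff_one 𝔭).mpr h)
  have h0 : Rsd 𝔭 L (gen n K i) (cb 𝔭 L (X i)) := by
    refine ⟨X i, 1, h1, ?_, ?_⟩
    · rw [gen, ← map_mul, mul_one]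
    · rw [cb_apply, ← map_mul, ← map_mul, mul_one]
  obtain ⟨N, E, hE, hN, hu⟩ := hR _ _ h0
  have h2 : fr (F i.succ * E) = fr (N * F 0) := by
    have e1 : fr (F i.succ * E) = fr (F i.succ) * fr E := map_mul _ _ _
    have e2 : fr (N * F 0) = fr N * fr (F 0) := map_mul _ _ _
    rw [e1, e2, hW.eq i, ← hN]
    ring
  have h3 : F i.succ * E = N * F 0 :=
    (IsFractionRing.injective (MvPolynomial (Fin n) K) (FractionRing (MvPolynomial (Fin n) K))) h2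
  have h4 : cb 𝔭 L (F i.succ) * cb 𝔭 L E = cb 𝔭 L N * cb 𝔭 L (F 0) := by
    rw [← map_mul, h3, map_mul]
  have h5 : ρb (cb 𝔭 L (X i)) * cb 𝔭 L E = cb 𝔭 L N := hu
  have hE0 : cb 𝔭 L E ≠ 0 := cb_ne 𝔭 L hE
  apply mul_right_cancel₀ hE0
  rw [h4, ← h5]
  ring

omit [𝔭.IsPrime] in
theorem span_top [IsFractionRing (CR 𝔭) L] (E : IntermediateField K L) [Module.Finite E L] :
    Submodule.span E (Set.range (cb 𝔭 L)) = ⊤ := by
  have h1 : (Submonoid.closure (Set.range (cb 𝔭 L)) : Set L) = Set.range (cb 𝔭 L) := by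
    have h := Submonoid.closure_eq (MonoidHom.mrange ((cb 𝔭 L : Pl n K →ₐ[K] L) : Pl n K →* L))
    have h' : ((MonoidHom.mrange ((cb 𝔭 L : Pl n K →ₐ[K] L) : Pl n K →* L) : Submonoid L) : Set L) =
        Set.range (cb 𝔭 L) := by
      rw [MonoidHom.coe_mrange]
      rfl
    rw [h'] at h
    rw [h, h']
  have h2 : Subalgebra.toSubmodule (Algebra.adjoin E (Set.range (cb 𝔭 L))) =
      Submodule.span E (Set.range (cb 𝔭 L)) := by
    rw [Algebra.adjoin_eq_span, h1]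
  rw [← h2, eq_top_iff]
  intro x _
  obtain ⟨a, b, hb, rfl⟩ := IsFractionRing.div_surjective (A := CR 𝔭) x
  obtain ⟨A, rfl⟩ := Ideal.Quotient.mk_surjective a
  obtain ⟨B, rfl⟩ := Ideal.Quotient.mk_surjective b
  have hA : cb 𝔭 L A ∈ Algebra.adjoin E (Set.range (cb 𝔭 L)) :=
    Algebra.subset_adjoin ⟨A, rfl⟩
  have hB : cb 𝔭 L B ∈ Algebra.adjoin E (Set.range (cb 𝔭 L)) :=
    Algebra.subset_adjoin ⟨B, rfl⟩
  have hB' : (cb 𝔭 L B)⁻¹ ∈ Algebra.adjoin E (Set.range (cb 𝔭 L)) :=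
    Subalgebra.inv_mem_of_algebraic (Algebra.adjoin E (Set.range (cb 𝔭 L)))
      (x := (⟨cb 𝔭 L B, hB⟩ : Algebra.adjoin E (Set.range (cb 𝔭 L))))
      (Algebra.IsAlgebraic.isAlgebraic _)
  change cb 𝔭 L A / cb 𝔭 L B ∈ Algebra.adjoin E (Set.range (cb 𝔭 L))
  rw [div_eq_mul_inv]
  exact mul_mem hA hB'

omit [𝔭.IsPrime] in
/-- Polynomials whose classes form a basis of `L` over `E`. -/
theorem exists_basis [IsFractionRing (CR 𝔭) L] (E : IntermediateField K L) [Module.Finite E L] :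
    ∃ (W : Fin (Module.finrank E L) → Pl n K), LinearIndependent E (fun l => cb 𝔭 L (W l)) := by
  obtain ⟨b, hb, hs, hl⟩ := exists_linearIndependent E (Set.range (cb 𝔭 L))
  rw [span_top] at hs
  have hfin : Finite b := hl.finite
  have : Fintype b := Fintype.ofFinite b
  let B : Module.Basis b E L := Module.Basis.mk hl (by rw [Subtype.range_coe, hs])
  have hc : Module.finrank E L = Fintype.card b := Module.finrank_eq_card_basis B
  let e : Fin (Module.finrank E L) ≃ b := (finCongr hc).trans (Fintype.equivFin b).symm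
  have h1 : ∀ w : b, ∃ W : Pl n K, cb 𝔭 L W = (w : L) := fun w => hb w.2
  choose W hW using h1
  refine ⟨fun l => W (e l), ?_⟩
  have h2 := hl.comp e e.injective
  have h3 : (fun l => cb 𝔭 L (W (e l))) = (Subtype.val : b → L) ∘ e := by
    funext l
    exact hW (e l)
  rw [h3]
  exact h2

end

/-- Monomials with bounded exponents in an algebraically independent family. -/
theorem li_mon {K E : Type} [Field K] [Field E] [Algebra K E] {ι : Type} [Fintype ι] (Y : ι → E)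
    (hY : AlgebraicIndependent K Y) (J : ℕ) :
    LinearIndependent K (fun u : ι → Fin (J + 1) => ∏ a, Y a ^ (u a : ℕ)) := by
  have h1 := (MvPolynomial.basisMonomials ι K).linearIndependent
  have h2 : Function.Injective (fun u : ι → Fin (J + 1) =>
      (Finsupp.equivFunOnFinite.symm (fun a => (u a : ℕ)) : ι →₀ ℕ)) := by
    intro u u' h
    funext a
    have h' := DFunLike.congr_fun h a
    exact Fin.ext h'
  have h3 := h1.comp _ h2
  have h4 := h3.map' (MvPolynomial.aeval Y).toLinearMap (LinearMap.ker_eq_bot.mpr hY)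
  have h5 : (fun u : ι → Fin (J + 1) => ∏ a, Y a ^ (u a : ℕ)) =
      (MvPolynomial.aeval Y).toLinearMap ∘ (⇑(basisMonomials ι K) ∘ fun u : ι → Fin (J + 1) =>
      (Finsupp.equivFunOnFinite.symm (fun a => (u a : ℕ)) : ι →₀ ℕ)) := by
    funext u
    simp only [Function.comp_apply, coe_basisMonomials, AlgHom.toLinearMap_apply, aeval_monomial,
      map_one, one_mul]
    rw [Finsupp.prod_fintype _ _ (fun i => pow_zero _)]
    rfl
  rw [h5]
  exact h4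

theorem arith {C₀ r d e Δ : ℕ} (hd : 1 ≤ d)
    (h : (e + 1 + 1) ^ r * Δ ≤ C₀ * (d * (r * (e + 1)) + e + 1) ^ r) :
    Δ ≤ C₀ * (r + 1) ^ r * d ^ r := by
  have h1 : d * (r * (e + 1)) + e + 1 ≤ (r + 1) * d * (e + 1 + 1) := by
    nlinarith [Nat.zero_le (r * d), Nat.zero_le (d * e), Nat.mul_le_mul_right (e + 1) hd]
  have h2 : (d * (r * (e + 1)) + e + 1) ^ r ≤ ((r + 1) * d * (e + 1 + 1)) ^ r :=
    Nat.pow_le_pow_left h1 r
  have h3 : (e + 1 + 1) ^ r * Δ ≤ (e + 1 + 1) ^ r * (C₀ * (r + 1) ^ r * d ^ r) := by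
    calc (e + 1 + 1) ^ r * Δ ≤ C₀ * (d * (r * (e + 1)) + e + 1) ^ r := h
      _ ≤ C₀ * ((r + 1) * d * (e + 1 + 1)) ^ r := Nat.mul_le_mul_left _ h2
      _ = (e + 1 + 1) ^ r * (C₀ * (r + 1) ^ r * d ^ r) := by
        rw [mul_pow, mul_pow]
        ring
  exact Nat.le_of_mul_le_mul_left h3 (by positivity)

end G4M

open MvPolynomial in
theorem tG4 (h1 : StmtG1) (h2 : StmtG2) (hr : StmtRk1) : StmtG4 := by
  intro K _ n 𝔭 _ L _ _ _ _ _
  obtain ⟨C₀, hC₀⟩ := h2 K n 𝔭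
  obtain ⟨α, hα, hT⟩ := hr K n 𝔭
  refine ⟨C₀ * (rk 𝔭 + 1) ^ rk 𝔭, ?_⟩
  intro ρ ρb hR F d hd hW hF0 hdeg
  have hfin : Module.Finite ρb.fieldRange L := h1.1 K n 𝔭 L ρb
  obtain ⟨W, hWl⟩ := G4M.exists_basis 𝔭 L ρb.fieldRange
  have hF0' : G4M.cb 𝔭 L (F 0) ≠ 0 := G4M.cb_ne 𝔭 L hF0
  -- a bound for the degrees of the basis
  obtain ⟨e, he⟩ : ∃ e : ℕ, ∀ l, (W l).totalDegree ≤ e :=
    ⟨Finset.univ.sup fun l => (W l).totalDegree,
      fun l => Finset.le_sup (f := fun l => (W l).totalDegree) (Finset.mem_univ l)⟩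
  -- the transcendence basis
  let Y : α → ρb.fieldRange := fun a => ⟨ρb (G4M.cb 𝔭 L (X (a : Fin n))), ⟨_, rfl⟩⟩
  have hY : AlgebraicIndependent K Y := by
    have h3 : AlgebraicIndependent K (fun a : α => ρb (G4M.cb 𝔭 L (X (a : Fin n)))) := by
      have h4 := (hT.1.map' (f := IsScalarTower.toAlgHom K (CR 𝔭) L)
        (IsFractionRing.injective (CR 𝔭) L)).map' (f := ρb) ρb.injective
      exact h4
    exact AlgebraicIndependent.of_comp (IntermediateField.val ρb.fieldRange) h3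
  apply G4M.arith (e := e) hd
  refine le_trans ?_ (hC₀ (d * (rk 𝔭 * (e + 1)) + e))
  -- the independent family
  let P : (α → Fin (e + 1 + 1)) × Fin (Module.finrank ρb.fieldRange L) → Pl n K := fun p =>
    F 0 ^ (rk 𝔭 * (e + 1) - ∑ a, (p.1 a : ℕ)) * (∏ a : α, F (a : Fin n).succ ^ (p.1 a : ℕ)) * W p.2
  have hsum : ∀ u : α → Fin (e + 1 + 1), ∑ a, (u a : ℕ) ≤ rk 𝔭 * (e + 1) := by
    intro u
    calc ∑ a, (u a : ℕ) ≤ ∑ _a : α, (e + 1) := Finset.sum_le_sum fun a _ => by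
          have := (u a).2
          omega
      _ = rk 𝔭 * (e + 1) := by
          rw [Finset.sum_const, smul_eq_mul, Finset.card_univ, Fintype.card_coe, hα]
  have hPdeg : ∀ p, (P p).totalDegree ≤ d * (rk 𝔭 * (e + 1)) + e := by
    intro p
    have e1 : (F 0 ^ (rk 𝔭 * (e + 1) - ∑ a, (p.1 a : ℕ))).totalDegree ≤
        (rk 𝔭 * (e + 1) - ∑ a, (p.1 a : ℕ)) * d :=
      (totalDegree_pow _ _).trans (Nat.mul_le_mul_left _ (hdeg 0))
    have e2 : (∏ a : α, F (a : Fin n).succ ^ (p.1 a : ℕ)).totalDegree ≤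
        (∑ a, (p.1 a : ℕ)) * d := by
      refine (totalDegree_finsetProd _ _).trans ?_
      rw [Finset.sum_mul]
      exact Finset.sum_le_sum fun a _ =>
        (totalDegree_pow _ _).trans (Nat.mul_le_mul_left _ (hdeg _))
    have e3 : ((rk 𝔭 * (e + 1) - ∑ a, (p.1 a : ℕ)) + (∑ a, (p.1 a : ℕ))) * d =
        d * (rk 𝔭 * (e + 1)) := by
      rw [Nat.sub_add_cancel (hsum p.1), mul_comm]
    calc (P p).totalDegree ≤
        (F 0 ^ (rk 𝔭 * (e + 1) - ∑ a, (p.1 a : ℕ))).totalDegree +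
          (∏ a : α, F (a : Fin n).succ ^ (p.1 a : ℕ)).totalDegree + (W p.2).totalDegree :=
        (totalDegree_mul _ _).trans (Nat.add_le_add_right (totalDegree_mul _ _) _)
      _ ≤ (rk 𝔭 * (e + 1) - ∑ a, (p.1 a : ℕ)) * d + (∑ a, (p.1 a : ℕ)) * d + e :=
        Nat.add_le_add (Nat.add_le_add e1 e2) (he p.2)
      _ = d * (rk 𝔭 * (e + 1)) + e := by rw [← add_mul, e3]
  have hPval : ∀ p, G4M.cb 𝔭 L (P p) = G4M.cb 𝔭 L (F 0) ^ (rk 𝔭 * (e + 1)) *
      ((∏ a, Y a ^ (p.1 a : ℕ)) • G4M.cb 𝔭 L (W p.2)) := by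
    intro p
    have e0 : ((∏ a, Y a ^ (p.1 a : ℕ) : ρb.fieldRange) : L) =
        ∏ a : α, ρb (G4M.cb 𝔭 L (X (a : Fin n))) ^ (p.1 a : ℕ) := by
      exact map_prod (IntermediateField.val ρb.fieldRange) (fun a => Y a ^ (p.1 a : ℕ)) Finset.univ
    rw [IntermediateField.smul_def, e0]
    have e1 : G4M.cb 𝔭 L (∏ a : α, F (a : Fin n).succ ^ (p.1 a : ℕ)) =
        (∏ a : α, ρb (G4M.cb 𝔭 L (X (a : Fin n))) ^ (p.1 a : ℕ)) *
          G4M.cb 𝔭 L (F 0) ^ (∑ a, (p.1 a : ℕ)) := by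
      rw [map_prod, ← Finset.prod_pow_eq_pow_sum, ← Finset.prod_mul_distrib]
      refine Finset.prod_congr rfl fun a _ => ?_
      rw [map_pow, ← G4M.res 𝔭 L hR hW, mul_pow]
    change G4M.cb 𝔭 L (F 0 ^ (rk 𝔭 * (e + 1) - ∑ a, (p.1 a : ℕ)) *
      (∏ a : α, F (a : Fin n).succ ^ (p.1 a : ℕ)) * W p.2) = _
    rw [map_mul, map_mul, e1, map_pow, smul_eq_mul]
    conv_rhs => rw [← Nat.sub_add_cancel (hsum p.1), pow_add]
    ring
  have hli : LinearIndependent K (fun p => G4M.cb 𝔭 L (P p)) := by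
    have h3 := linearIndependent_smul (G4M.li_mon Y hY (e + 1)) hWl
    have h4 := h3.map' (LinearMap.mulLeft K (G4M.cb 𝔭 L (F 0) ^ (rk 𝔭 * (e + 1))))
      (LinearMap.ker_eq_bot.mpr (mul_right_injective₀ (pow_ne_zero _ hF0')))
    have h5 : (fun p => G4M.cb 𝔭 L (P p)) =
        (LinearMap.mulLeft K (G4M.cb 𝔭 L (F 0) ^ (rk 𝔭 * (e + 1)))) ∘
        (fun p : (α → Fin (e + 1 + 1)) × Fin (Module.finrank ρb.fieldRange L) =>
          (∏ a, Y a ^ (p.1 a : ℕ)) • G4M.cb 𝔭 L (W p.2)) := by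
      funext p
      exact hPval p
    rw [h5]
    exact h4
  have hli2 : LinearIndependent K (fun p => cl 𝔭 (P p)) :=
    LinearIndependent.of_comp (IsScalarTower.toAlgHom K (CR 𝔭) L).toLinearMap hli
  have hmem : ∀ p, cl 𝔭 (P p) ∈ Vj 𝔭 (d * (rk 𝔭 * (e + 1)) + e) := by
    intro p
    refine Submodule.mem_map.mpr ⟨P p, ?_, rfl⟩
    rw [mem_restrictTotalDegree]
    exact hPdeg p
  have hli3 : LinearIndependent K (fun p =>
      (⟨cl 𝔭 (P p), hmem p⟩ : Vj 𝔭 (d * (rk 𝔭 * (e + 1)) + e))) :=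
    LinearIndependent.of_comp (Vj 𝔭 (d * (rk 𝔭 * (e + 1)) + e)).subtype hli2
  have hfinV : Module.Finite K (Vj 𝔭 (d * (rk 𝔭 * (e + 1)) + e)) := by
    unfold Vj
    infer_instance
  have hcard := hli3.fintype_card_le_finrank
  rw [Fintype.card_prod, Fintype.card_fun, Fintype.card_fin, Fintype.card_fin, Fintype.card_coe,
    hα] at hcard
  exact hcard

end Pool.Agent.Lib.MP_16285c_agN
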