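import Pool.Agent.Lib.MP_16285c_agN.SpecF

/-!
# Hilbert points in a progression
-/

set_option autoImplicit false

namespace Pool.Agent.Lib.MP_16285c_agN

open Pool.Agent.Lib.MP_16285c_ag

namespace HitPtM

/-- The substitution `X i ↦ c i + q X i`. -/
noncomputable def fwd {n : ℕ} {K : Type} [Field K] (c : Fin n → K) (q : K) : Pl n K →ₐ[K] Pl n K :=
  MvPolynomial.aeval fun i => MvPolynomial.C (c i) + MvPolynomial.C q * MvPolynomial.X i

/-- The substitution `X i ↦ q⁻¹ (X i - c i)`. -/
noncomputable def bwd {n : ℕ} {K : Type} [Field K] (c : Fin n → K) (q : K) : Pl n K →ₐ[K] Pl n K :=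
  MvPolynomial.aeval fun i => MvPolynomial.C q⁻¹ * (MvPolynomial.X i - MvPolynomial.C (c i))

theorem fwd_X {n : ℕ} {K : Type} [Field K] (c : Fin n → K) (q : K) (i : Fin n) :
    fwd c q (MvPolynomial.X i) = MvPolynomial.C (c i) + MvPolynomial.C q * MvPolynomial.X i := by
  rw [fwd, MvPolynomial.aeval_X]

theorem bwd_X {n : ℕ} {K : Type} [Field K] (c : Fin n → K) (q : K) (i : Fin n) :
    bwd c q (MvPolynomial.X i) = MvPolynomial.C q⁻¹ * (MvPolynomial.X i - MvPolynomial.C (c i)) := by
  rw [bwd, MvPolynomial.aeval_X]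

theorem hom_C {n : ℕ} {K : Type} [Field K] (φ : Pl n K →ₐ[K] Pl n K) (a : K) :
    φ (MvPolynomial.C a) = MvPolynomial.C a := by
  rw [← MvPolynomial.algebraMap_eq]
  exact φ.commutes a

/-- The substitution as an automorphism. -/
noncomputable def tau {n : ℕ} {K : Type} [Field K] (c : Fin n → K) (q : K) (hq : q ≠ 0) :
    Pl n K ≃ₐ[K] Pl n K :=
  AlgEquiv.ofAlgHom (fwd c q) (bwd c q)
    (by
      refine MvPolynomial.algHom_ext fun i => ?_
      rw [AlgHom.comp_apply, bwd_X, map_mul, map_sub, hom_C, hom_C, fwd_X, AlgHom.id_apply,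
        add_sub_cancel_left, ← mul_assoc, ← MvPolynomial.C_mul, inv_mul_cancel₀ hq, MvPolynomial.C_1,
        one_mul])
    (by
      refine MvPolynomial.algHom_ext fun i => ?_
      rw [AlgHom.comp_apply, fwd_X, map_add, map_mul, hom_C, hom_C, bwd_X, AlgHom.id_apply,
        ← mul_assoc, ← MvPolynomial.C_mul, mul_inv_cancel₀ hq, MvPolynomial.C_1, one_mul,
        add_sub_cancel])

theorem tau_apply {n : ℕ} {K : Type} [Field K] (c : Fin n → K) (q : K) (hq : q ≠ 0) (H : Pl n K) :
    tau c q hq H = fwd c q H := rfl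

theorem eval_tau {n : ℕ} {K : Type} [Field K] (c : Fin n → K) (q : K) (hq : q ≠ 0) (x : Fin n → K) :
    (MvPolynomial.eval x).comp (tau c q hq).toRingEquiv.toRingHom =
      MvPolynomial.eval fun i => c i + q * x i := by
  refine MvPolynomial.ringHom_ext (fun a => ?_) (fun i => ?_)
  · change MvPolynomial.eval x (fwd c q (MvPolynomial.C a)) = _
    rw [hom_C, MvPolynomial.eval_C, MvPolynomial.eval_C]
  · change MvPolynomial.eval x (fwd c q (MvPolynomial.X i)) = _
    rw [fwd_X, map_add, map_mul, MvPolynomial.eval_C, MvPolynomial.eval_C, MvPolynomial.eval_X,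
      MvPolynomial.eval_X]

end HitPtM

open HitPtM in
theorem tHitPt (h : StmtHITK) : StmtHitPt := by
  intro K _ _ hS n F G hF hirr hG c q hq
  have hq0 : (q : K) ≠ 0 := by
    exact_mod_cast Nat.pos_iff_ne_zero.mp hq
  let τ := tau c (q : K) hq0
  let e : RF n K ≃+* RF n K :=
    IsFractionRing.ringEquivOfRingEquiv (K := RF n K) (L := RF n K) τ.toRingEquiv
  have hcomp : (algebraMap (Pl n K) (RF n K)).comp τ.toRingEquiv.toRingHom =
      (e : RF n K →+* RF n K).comp (algebraMap (Pl n K) (RF n K)) := by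
    refine RingHom.ext fun H => ?_
    exact (IsFractionRing.ringEquivOfRingEquiv_algebraMap (K := RF n K) (L := RF n K)
      τ.toRingEquiv H).symm
  have hirr' : Irreducible ((F.map τ.toRingEquiv.toRingHom).map
      (algebraMap (Pl n K) (RF n K))) := by
    rw [Polynomial.map_map, hcomp, ← Polynomial.map_map]
    have := (MulEquiv.irreducible_iff (Polynomial.mapEquiv e)
      (x := F.map (algebraMap (Pl n K) (RF n K)))).mpr hirr
    exact this
  have hG' : τ G ≠ 0 := fun h0 => hG (by
    have := τ.injective (h0.trans (map_zero τ).symm)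
    exact this)
  obtain ⟨j, hj1, hj2⟩ := h K hS n (F.map τ.toRingEquiv.toRingHom) (τ G) (hF.map _) hirr' hG'
  refine ⟨j, ?_, ?_⟩
  · rw [Polynomial.map_map, eval_tau] at hj1
    exact hj1
  · have := congrArg (fun φ : Pl n K →+* K => φ G) (eval_tau c (q : K) hq0 fun i => (j i : K))
    intro h0
    apply hj2
    exact this.trans h0

end Pool.Agent.Lib.MP_16285c_agN
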