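import Pool.Agent.Lib.MP_16285c_agN.SpecN

/-!
# The growth hypothesis for `λ₁` implies `NoFull`
-/

set_option autoImplicit false

namespace Pool.Agent.Lib.MP_16285c_agN

open Pool.Agent.Lib.MP_16285c_ag

theorem tNF (h5 : StmtG5) : StmtNF := by
  intro K _ n σ M hBig 𝔭 _ hPr hr hrn L _ _ _ _ _ ρb hρb
  by_contra hcon
  push Not at hcon
  obtain ⟨C, hC⟩ := h5 K n (σ ^ M) 𝔭 hPr L ρb hρb
  obtain ⟨m, hm⟩ := hBig (rk 𝔭) hr hrn C
  have e1 := hC m
  have e0 : it (σ ^ M) m = it σ (M * m) := by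
    funext i
    unfold it
    rw [pow_mul]
  rw [e0] at e1
  have e2 : tp σ ^ (M * m) ≤ Module.finrank ρb.fieldRange L ^ m := by
    rw [pow_mul]
    exact Nat.pow_le_pow_left hcon m
  omega

end Pool.Agent.Lib.MP_16285c_agN
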