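import Pool.Agent.Lib.MP_16285c_agN.SpecG
import Pool.Agent.Lib.MP_16285c_agN.KLV.Spec

/-!
# Final assembly: statements

Notation: see `Defs.lean`, `SpecR.lean`, `SpecG.lean`; base change (`bc`, `Cmp`): `KLV/Spec.lean`. `StmtHITK` is the interface of the package of helper67, `StmtLiftC2`, `StmtDesc`, `StmtTpGe`, `StmtDgMul` of the package of helper5.
-/

set_option autoImplicit false

namespace Pool.Agent.Lib.MP_16285c_agN

open Pool.Agent.Lib.MP_16285c_ag

/-! ## Interfaces -/

/-- Hilbert's irreducibility theorem over finitely generated fields, integral points (helper67). -/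
def StmtHITK : Prop :=
  ∀ (K : Type) [Field K] [CharZero K], (∃ S : Finset K, Subfield.closure (S : Set K) = ⊤) →
    ∀ (n : ℕ) (F : Polynomial (MvPolynomial (Fin n) K)) (G : MvPolynomial (Fin n) K), F.Monic →
    Irreducible (F.map (algebraMap (MvPolynomial (Fin n) K) (FractionRing (MvPolynomial (Fin n) K)))) →
    G ≠ 0 → ∃ x : Fin n → ℤ, Irreducible (F.map (MvPolynomial.eval fun i => (x i : K))) ∧
      MvPolynomial.eval (fun i => (x i : K)) G ≠ 0

/-- A common lift for two places (helper5; `LiftC2.lean` in `Lib/MP_16285c_agZ`, coordinatewise). -/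
def StmtLiftC2 : Prop :=
  ∀ (k : Type) [Field k] [IsAlgClosed k] [CharZero k] (n : ℕ)
    (V V' : ValuationSubring k) (p p' : ℕ), p.Prime → p'.Prime → p ≠ p' →
    CharP (IsLocalRing.ResidueField V) p → CharP (IsLocalRing.ResidueField V') p' →
    ∀ (a : Fin n → IsLocalRing.ResidueField V) (a' : Fin n → IsLocalRing.ResidueField V'),
      (∃ r : ℕ, 1 ≤ r ∧ ∀ i, a i ^ (p ^ r) = a i) → (∃ r : ℕ, 1 ≤ r ∧ ∀ i, a' i ^ (p' ^ r) = a' i) →
      ∃ c : Fin n → k, (∀ i, Lies V (c i) (a i)) ∧ ∀ i, Lies V' (c i) (a' i)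

/-- Descent of the field of definition (helper5). -/
def StmtDesc : Prop :=
  (∀ (K L : Type) [Field K] [Field L] [Algebra K L] (n : ℕ) (f : RM K n) (σL : RF n L →ₐ[L] RF n L),
    Of (f.map (algebraMap K L)) σL → ∃ σK : RF n K →ₐ[K] RF n K, Of f σK ∧ Cmp σK σL) ∧
  ∀ (K L : Type) [Field K] [Field L] [Algebra K L] (n : ℕ) (σK : RF n K →ₐ[K] RF n K)
    (σL : RF n L →ₐ[L] RF n L), Cmp σK σL → NoI σL → NoI σK

/-- The topological degree does not change (helper5). -/
def StmtTpGe : Prop :=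
  ∀ (L : Type) [Field L] (n : ℕ) (σL : RF n L →ₐ[L] RF n L), Module.Finite σL.fieldRange (RF n L) →
    ∃ S : Finset L, ∀ (K : Type) [Field K] [Algebra K L] (σK : RF n K →ₐ[K] RF n K),
      (∀ s ∈ S, s ∈ Set.range (algebraMap K L)) → Cmp σK σL → tp σK = tp σL

/-- Degrees of compositions (helper5). -/
def StmtDgMul : Prop :=
  ∀ (K : Type) [Field K] (n : ℕ) (σ : RF n K →ₐ[K] RF n K) (a b : ℕ),
    dg (it σ (a + b)) ≤ dg (it σ a) * dg (it σ b)

/-! ## Statements -/

/-- (F1) PROOF. `σ : RF n K → RF n K` is injective, `trdeg K (RF n K) = n` is finite, so `RF n K` is algebraic over `σ.fieldRange` (the image of the transcendence basis `gen` is algebraically independent with `n` elements, so it is a transcendence basis), and it is generated as a field over `K` by the `gen i`,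
so it is finite over `σ.fieldRange`; `finrank ≥ 1`. (Same as the first part of `StmtG1`.) -/
def StmtTpPos : Prop :=
  ∀ (K : Type) [Field K] (n : ℕ) (σ : RF n K →ₐ[K] RF n K), 1 ≤ tp σ

/-- (F2) PROOF. If `dg (it σ m) = 0` then `it σ m` has a representative `F` (the infimum is attained: `Nat.sInf_mem`; the set is not empty by `StmtRepE`, used as a hypothesis) with all `F i` constants, so `(σ ^ m) (gen n K 0)` is a constant `c` and `gen n K 0 - c` is in the kernel of the field homomorphism `σ ^ m`: a contradiction (`X 0` is not constant). -/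
def StmtDgPos : Prop :=
  ∀ (K : Type) [Field K] (n : ℕ) (σ : RF n K →ₐ[K] RF n K) (m : ℕ), 1 ≤ n → 1 ≤ dg (it σ m)

/-- (F3) Degrees over smaller fields. PROOF. (`it σL m i = bc (it σK m i)` by induction: `σL (bc g) = bc (σK g)`, as in `cmp_apply`, `cmp_it` in `Lib/MP_16285c_agZ/KLV/Spec.lean`.) Let `D = dg (it σL m)`, `F : Fin (n+1) → Pl n L` a representative of `it σL m` with degrees `≤ D` (`Nat.sInf_mem`, nonempty set: `StmtRepE` may be used as a
hypothesis). Write `it σK m i = fr (N i) / fr E` with a common denominator `E ≠ 0` in `Pl n K`. Then `map E * F i.succ = map (N i) * F 0` (`fr_injective`). Let `u` be an exponent with `c = coeff u (F 0) ≠ 0` and `l : L →ₗ[K] K` linear with `l c ≠ 0` (`exists_dual_map_eq_bot_of_..`, `Module.exists_dual_forall_apply_eq_zero_iff`, or a basis containing `c`).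
Let `Λ : Pl n L → Pl n K` be the application of `l` to the coefficients (`Finsupp.mapRange` / `MvPolynomial` as `Finsupp`): `Λ (map A * B) = A * Λ B`, `totalDegree (Λ B) ≤ totalDegree B`, `coeff u (Λ (F 0)) = l c ≠ 0`. So `E * Λ (F i.succ) = N i * Λ (F 0)`: `Wk (it σK m) (Λ ∘ F)`, with degrees `≤ D`. Dividing by the greatest common divisor of the
`Λ (F i)` gives a `Rep` with degrees `≤ D` (degrees of divisors; see `Rep.lean` in `Lib/MP_16285c_agZ/KLV`, or take `SRep` (2) as a hypothesis: `∀ K n g F D, Wk g F → (∀ i, (F i).totalDegree ≤ D) → dg g ≤ D`). -/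
def StmtDgDesc : Prop :=
  (∀ (K : Type) [Field K] (n : ℕ) (g : Fin n → RF n K) (F : Fin (n + 1) → Pl n K) (D : ℕ), Wk g F →
    (∀ i, (F i).totalDegree ≤ D) → dg g ≤ D) →
  ∀ (K L : Type) [Field K] [Field L] [Algebra K L] (n : ℕ) (σK : RF n K →ₐ[K] RF n K)
    (σL : RF n L →ₐ[L] RF n L), Cmp σK σL → ∀ m, dg (it σK m) ≤ dg (it σL m)

/-- (F4) Hilbert points in a progression. PROOF (uses `StmtHITK`). Let `τ : Pl n K ≃ₐ[K] Pl n K` be `X i ↦ C (c i) + C q * X i` (inverse: `X i ↦ C q⁻¹ * (X i - C (c i))`, `q ≠ 0` in `K`). `F' = F.map τ` is monic and irreducible over `RF n K` (`τ` extends to an automorphism of the field of fractions: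
`IsFractionRing.ringEquivOfRingEquiv` or `IsLocalization.ringEquivOfRingEquiv`; irreducibility is preserved by `Polynomial.mapEquiv`), `G' = τ G ≠ 0`. `StmtHITK` for `F', G'` gives `j`, and `eval j (τ H) = eval (c + q j) H`. -/
def StmtHitPt : Prop :=
  ∀ (K : Type) [Field K] [CharZero K], (∃ S : Finset K, Subfield.closure (S : Set K) = ⊤) →
    ∀ (n : ℕ) (F : Polynomial (Pl n K)) (G : Pl n K), F.Monic →
    Irreducible (F.map (algebraMap (Pl n K) (RF n K))) → G ≠ 0 → ∀ (c : Fin n → K) (q : ℕ), 1 ≤ q →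
    ∃ j : Fin n → ℤ, Irreducible (F.map (MvPolynomial.eval fun i => c i + (q : K) * (j i : K))) ∧
      MvPolynomial.eval (fun i => c i + (q : K) * (j i : K)) G ≠ 0

/-- (F5) PROOF (uses `StmtCore`, `StmtHitPt`, `StmtLiftC2`, `StmtDesc`, `StmtTpGe`, `StmtTpPow` (finiteness), `StmtDgDesc` (its conclusion), `StmtJac`, and from the library `Pool.Agent.ZDO.box2`, `prime_of_cl` (inside `StmtCore`), `descP`, `orb_unique`). Model: `Lib/MP_16285c_agZ/Fin2.lean` (`stmtFin2`) and `Fin.lean` (`desc_rm`, `map_map_rm`, `eval_coe`, `descP`, …), almost the same text.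
(1) `f.comp` is injective since `σ (fr G) = f.comp G` (`Of`), `jac f ≠ 0`. Apply `box2` twice with `B = b * jac f` (`p₀ = 0` and `p₀ = p`): `V, p, a, N` and `V', p', a', N'`. (2) `c : Fin n → k` from `StmtLiftC2`. (3) `S` = the set from `StmtTpGe` for `σ` (finiteness of `RF n k` over `σ.fieldRange` since `tp σ ≥ 1`), the coefficients of `f.num i`, `f.den i`, and
the `c i`; `K = Subfield.closure S`, a finitely generated field (`∃ S' : Finset K, Subfield.closure (S' : Set K) = ⊤`: `S'` = preimage of `S`; `Subfield.map` / `Subfield.closure_preimage..`, induction `Subfield.closure_induction`). `f_K`, `σ_K` with `Cmp σ_K σ`, `tp σ_K = tp σ`, `NoI σ_K`, `Big σ_K M` from `Big σ M` for `M = N * N'` (`StmtDgDesc`: the degrees over `K` are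
`≤` the degrees over `k`). (4) `F, G` from `StmtCore` for `f_K, σ_K, M`. `StmtHitPt` for `c` (as a point of `K ^ n`) and `q = p * p'`: `x₀ i = c i + p p' j i`. `Lies V (x₀ i) (a i)`: `p p' j i` is in `V` with residue `0` (the characteristic is `p`); the same for `V'`. (5) the orbits of `box2` through `x₀` coincide (`orb_unique`): `x`; it lies in `K ^ n` (induction), gives
`xK` with `f_K.Orb xK`, `jac f_K` does not vanish on it, `ClN` holds for `xK` (a polynomial over `K` is a polynomial over `k`). `StmtCore`: `van xK M = ⊥`, so `xK` is dense over `K`, hence `x` is dense over `k` (`descP`). -/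
def StmtFinN : Prop :=
  ∀ (k : Type) [Field k] [IsAlgClosed k] [CharZero k] (n : ℕ) (σ : RF n k →ₐ[k] RF n k), 1 ≤ n →
    1 ≤ tp σ → NoI σ → (∀ M, 1 ≤ M → Big σ M) → ∀ f : RM k n, Of f σ → ∀ b : Pl n k, b ≠ 0 →
    ∃ x : ℕ → Fin n → k, f.Orb x ∧ (∀ m, MvPolynomial.eval (x m) b ≠ 0) ∧ Dns x

/-- (F6) PROOF. By Fekete's lemma (`Subadditive`, see `pow_le_degree` in `Results/MP_16285c_ag/SurfaceMaps.lean`: copy) `(d m) ^ (1/m)` converges to its limit superior `l`, and `l ≥ 1` as `d m ≥ 1`. `a m := (C : ℝ) * (d (M * m) + 1) ^ r`. For `m ≥ 1`: `d (M m) + 1 ≤ 2 d (M m)`, so `a m ≤ C 2 ^ r (d (M m)) ^ r`, and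
`(a m) ^ (1/(M m)) ≤ (C 2 ^ r) ^ (1/(M m)) * ((d (M m)) ^ (1/(M m))) ^ r → l ^ r ≤ l ^ (n - 2) < τ` (if `C = 0` the claim is trivial: `τ ≥ 1` since `l ^ (n-2) ≥ 0`… `> 0`). So for large `m`: `(a m) ^ (1/(M m)) < τ`, `a m < τ ^ (M m)`. (Or with logarithms: `log (C 2 ^ r) + r log d (M m) < M m log τ` for large `m`, since `log d (M m) / (M m) → log l` and `r log l < log τ`.) -/
def StmtReal : Prop :=
  ∀ (d : ℕ → ℕ) (τ n : ℕ), (∀ a b, d (a + b) ≤ d a * d b) → (∀ m, 1 ≤ d m) →
    (Filter.limsup (fun m : ℕ => (d m : ℝ) ^ ((m : ℝ)⁻¹)) Filter.atTop) ^ (n - 2) < (τ : ℝ) →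
    ∀ r M C : ℕ, 1 ≤ r → r + 2 ≤ n → 1 ≤ M → ∃ m : ℕ, C * (d (M * m) + 1) ^ r < τ ^ (M * m)

end Pool.Agent.Lib.MP_16285c_agN
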