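import Pool.Agent.Lib.MP_16285c_agN.SpecR
import Pool.Agent.Lib.MP_16285c_agN.DEG4a.Spec

/-!
# Restriction to the closure of the orbit, degrees, growth, core: statements

Notation: see `Defs.lean` and `SpecR.lean` (please read them first). Every lemma is a `Prop` with its complete proof in the docstring; the files proving them are
independent: used statements are hypotheses. `StmtResF`, `StmtDegP`, `StmtCan` are in `DEG4a/Spec.lean` (package of helper63); `StmtNoIPow`, `StmtTpPow`, `StmtVal`,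
`StmtRepE` of the package of helper5 (they are special cases of the statements there).
-/

set_option autoImplicit false

namespace Pool.Agent.Lib.MP_16285c_agN

open Pool.Agent.Lib.MP_16285c_ag

/-! ## Interfaces -/

/-- The Jacobian (helper5; from `jac_ne_zero`). -/
def StmtJac : Prop :=
  ∀ (K : Type) [Field K] [CharZero K] (n : ℕ) (f : RM K n) (σ : RF n K →ₐ[K] RF n K), Of f σ → jac f ≠ 0

/-- Powers and invariants (helper5). -/
def StmtNoIPow : Prop :=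
  ∀ (K : Type) [Field K] (n : ℕ) (σ : RF n K →ₐ[K] RF n K) (M : ℕ), 1 ≤ M → NoI σ → NoI (σ ^ M)

/-- Powers and topological degrees (helper5). -/
def StmtTpPow : Prop :=
  (∀ (K : Type) [Field K] (n : ℕ) (σ : RF n K →ₐ[K] RF n K) (m : ℕ), tp (σ ^ m) = tp σ ^ m) ∧
  ∀ (K : Type) [Field K] (n : ℕ) (σ : RF n K →ₐ[K] RF n K), 1 ≤ tp σ ↔ Module.Finite σ.fieldRange (RF n K)

/-- Values along orbits (helper5). -/
def StmtVal : Prop :=
  (∀ (K : Type) [Field K] (n : ℕ) (f : RM K n) (σ : RF n K →ₐ[K] RF n K) (z : ℕ → Fin n → K), Of f σ →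
    f.Orb z → ∀ m j : ℕ, Val (σ ^ m) (z j) (z (j + m))) ∧
  ∀ (K : Type) [Field K] (n : ℕ) (ρ : RF n K →ₐ[K] RF n K) (x x' : Fin n → K) (H E N : Pl n K),
    Val ρ x x' → fr N = fr E * ρ (fr H) →
    MvPolynomial.eval x N = MvPolynomial.eval x E * MvPolynomial.eval x' H

/-- Representatives (helper5). -/
def StmtRepE : Prop :=
  (∀ (K : Type) [Field K] (n : ℕ) (g : Fin n → RF n K), ∃ F : Fin (n + 1) → Pl n K, Rep g F ∧
    (∀ i, (F i).totalDegree ≤ dg g)) ∧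
  ∀ (K : Type) [Field K] (n : ℕ) (ρ : RF n K →ₐ[K] RF n K), ∃ f : RM K n, Of f ρ

/-! ## Small statements -/

/-- (P1) PROOF (uses `StmtVal`, second part). Put `M = N * N'`, `𝔭 = van z M`. Let `H` be given and `E, N₁` as in `Val ρ (z 0) (z M)` for `H`, so `E(z 0) ≠ 0`, `E ∉ 𝔭`; by the second part of `StmtVal`
`N₁(z (M t)) = E(z (M t)) H(z (M (t+1)))` for all `t`. If `H ∈ 𝔭` then `N₁ ∈ 𝔭`. If `H ∉ 𝔭` let `H(z (M t₀)) ≠ 0`. `ClN N p` gives `J` with `H(z (M t₀ + N p ^ J s)) ≠ 0` for all `s`, and `ClN N' p'` (at `j = 0`) gives `J'` with `E(z (N' p' ^ J' s')) ≠ 0`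
for all `s'`. Choose `t` with `t + 1 = t₀ + p ^ J * s₁` and `t = p' ^ J' * s₂` (`crt_aux` in `ZDO/Prm.lean` for `t₁ = t₀`, `t₂ = 1` gives `u = t₀ + p ^ J s₁ = 1 + p' ^ J' s₂`, `t = u - 1`). Take `s = N' s₁`, `s' = N s₂`: `N₁(z (M t)) ≠ 0`, so `N₁ ∉ 𝔭`. -/
def StmtPres : Prop :=
  ∀ (K : Type) [Field K] (n : ℕ) (ρ : RF n K →ₐ[K] RF n K) (z : ℕ → Fin n → K) (N N' p p' : ℕ),
    p.Prime → p'.Prime → p ≠ p' → Pool.Agent.ZDO.ClN N p z → Pool.Agent.ZDO.ClN N' p' z →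
    (∀ t, Val ρ (z (N * N' * t)) (z (N * N' * (t + 1)))) → Pres ρ (van z (N * N'))

/-- (P2) Points which are not fixed. PROOF. There is `i` with `ρ (gen n K i) ≠ gen n K i`: otherwise `ρ` is the identity (`IsFractionRing` / `MvPolynomial` extensionality), and `gen n K i`, which is not a constant, is invariant (`n ≥ 1`, and `X i` is not a constant: if `fr (X i) = algebraMap K _ c = fr (C c)`
then `X i = C c`; evaluate at two points). Write `ρ (gen n K i) = fr N / fr E`, `E ≠ 0`, and `G = N - X i * E ≠ 0`. Let `Val ρ x x'` with `x' = x`: for `H = X i` there are `E', N'` with `E'(x) ≠ 0`, `fr N' = fr E' * ρ (fr (X i))`, `N'(x) = E'(x) x i`. `N * E' = N' * E`, so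
`N(x) E'(x) = N'(x) E(x) = E'(x) x i E(x)`, so `N(x) = x i * E(x)`, `G(x) = 0`. -/
def StmtMove : Prop :=
  ∀ (K : Type) [Field K] (n : ℕ) (ρ : RF n K →ₐ[K] RF n K), 1 ≤ n → NoI ρ →
    ∃ G : Pl n K, G ≠ 0 ∧ ∀ x x' : Fin n → K, Val ρ x x' → MvPolynomial.eval x G ≠ 0 → x' ≠ x

/-- (P3) The primitive element. PROOF. `E = RF n K` is finite over `ρ E = ρ.fieldRange` (`tp ρ ≠ 0`: `Module.finite_of_finrank_pos`), separable (characteristic zero): `E = (ρ E)(θ)` (`Field.exists_primitive_element`), the minimal polynomial `μ` of `θ` over `ρ E` is irreducible of degree `tp ρ`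
(`IntermediateField.finrank_top`, `Field.primitive_element_iff_minpoly_natDegree_eq`). Transport it along the isomorphism `E ≃ ρ E`: `μ' ∈ E[Y]` monic irreducible of degree `T = tp ρ` with `eval₂ ρ θ μ' = 0`. Let `D ∈ Pl n K`, `D ≠ 0`, be a common denominator of the coefficients of `μ'`, and
`F' = ∑ i, D ^ (T - i) μ'_i Y ^ i` (`Polynomial.scaleRoots μ' (fr D)`): monic of degree `T`, irreducible over `E` (scaling of roots by a unit of `E`: `μ'(Y / D) D ^ T`), with coefficients in the image of `Pl n K` (for `i = T` it is `1`, for `i < T` a multiple of `fr D * μ'_i`),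
and `eval₂ ρ (ρ (fr D) * θ) F' = ρ (fr D) ^ T * eval₂ ρ θ μ' = 0` (`Polynomial.scaleRoots_eval₂_mul` or the like). `F` = the lift of `F'` (`Polynomial.lifts_and_natDegree_eq_and_monic`). `ρ (fr D) * θ = fr u / fr v`. -/
def StmtPrim : Prop :=
  ∀ (K : Type) [Field K] [CharZero K] (n : ℕ) (ρ : RF n K →ₐ[K] RF n K), 1 ≤ tp ρ →
    ∃ (F : Polynomial (Pl n K)) (u v : Pl n K), F.Monic ∧ F.natDegree = tp ρ ∧
      Irreducible (F.map (algebraMap (Pl n K) (RF n K))) ∧ v ≠ 0 ∧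
      Polynomial.eval₂ ((ρ : RF n K →+* RF n K).comp (algebraMap (Pl n K) (RF n K))) (fr u / fr v) F = 0

/-- (P4) The residue degree is at least the degree. PROOF. Residues (`Rsd`) are unique (if `Rsd 𝔭 L g u` and `Rsd 𝔭 L g u'` then `u = u'`: `N E' = N' E`), additive and multiplicative, `Rsd 𝔭 L (fr H) (class of H)`, and `Rsd 𝔭 L (fr u / fr v) ū/v̄` for `v ∉ 𝔭`. Put `θ = fr u / fr v`, `θb = ū / v̄ ∈ L`. With
`φ = algebraMap (CR 𝔭) L ∘ mk`: `Rsd 𝔭 L (ρ (fr (F.coeff i))) (ρb (φ (F.coeff i)))` by `Rst`, so `0 = eval₂ (ρ ∘ fr) θ F` has the residue `eval₂ (ρb ∘ φ) θb F`, so `eval₂ ρb θb (F.map φ) = 0` (uniqueness of the residue of `0`). `F.map φ` is irreducible over `L`, so `(F.map φ).map (L ≃ ρb.fieldRange)` is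
monic, irreducible over `ρb.fieldRange` and has the root `θb`: it is the minimal polynomial of `θb` over `ρb.fieldRange` (`minpoly.eq_of_irreducible_of_monic`), of degree `F.natDegree ≤ [L : ρb L]` (`minpoly.natDegree_le`, needs finiteness). -/
def StmtLow : Prop :=
  ∀ (K : Type) [Field K] (n : ℕ) (ρ : RF n K →ₐ[K] RF n K) (𝔭 : Ideal (Pl n K)) [𝔭.IsPrime]
    (L : Type) [Field L] [Algebra (CR 𝔭) L] [IsFractionRing (CR 𝔭) L] [Algebra K L]
    [IsScalarTower K (CR 𝔭) L] (ρb : L →ₐ[K] L), Rst ρ 𝔭 L ρb → Module.Finite ρb.fieldRange L →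
    ∀ (F : Polynomial (Pl n K)) (u v : Pl n K), F.Monic → v ∉ 𝔭 →
      Irreducible (F.map ((algebraMap (CR 𝔭) L).comp (Ideal.Quotient.mk 𝔭))) →
      Polynomial.eval₂ ((ρ : RF n K →+* RF n K).comp (algebraMap (Pl n K) (RF n K))) (fr u / fr v) F = 0 →
      F.natDegree ≤ Module.finrank ρb.fieldRange L

/-! ## Growth -/

/-- (G1) PROOF. (a) `trdeg K L` is finite (`L` is algebraic over `CR 𝔭`, of finite type), and `trdeg K (ρb.fieldRange) = trdeg K L` (isomorphism), so `L` is algebraic over `ρb.fieldRange` (additivity of the transcendence degree `Algebra.trdeg_add_eq`, or: the image under `ρb` of a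
transcendence basis of `L` is algebraically independent of the right cardinality, so a transcendence basis: `AlgebraicIndependent.isTranscendenceBasis_of_trdeg_le`). `L` is generated as a field over `K` by the classes of the variables, so it is finite over `ρb.fieldRange`
(`IntermediateField.finiteDimensional_adjoin` / `IntermediateField.adjoin` of finitely many algebraic elements which is everything). (b) `(φ ^ (m+1)).fieldRange = (φ ^ m) (φ L) ⊆ (φ ^ m) L`; `[L : φ^(m+1) L] = [L : φ^m L] [φ^m L : φ^m (φ L)]` and the second factor is `[L : φ L]` (isomorphism `φ ^ m`). Induction.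
(Same proof as `STpPow` in `Lib/MP_16285c_agZ/KLV/TpPow.lean`.) (c) induction on `m`: `ρ ^ (m+1) = ρ * ρ ^ m`. -/
def StmtG1 : Prop :=
  (∀ (K : Type) [Field K] (n : ℕ) (𝔭 : Ideal (Pl n K)) [𝔭.IsPrime] (L : Type) [Field L]
    [Algebra (CR 𝔭) L] [IsFractionRing (CR 𝔭) L] [Algebra K L] [IsScalarTower K (CR 𝔭) L]
    (ρb : L →ₐ[K] L), Module.Finite ρb.fieldRange L) ∧
  (∀ (K : Type) [Field K] (L : Type) [Field L] [Algebra K L] (φ : L →ₐ[K] L) (m : ℕ),
    Module.finrank (φ ^ m).fieldRange L = Module.finrank φ.fieldRange L ^ m) ∧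
  ∀ (K : Type) [Field K] (n : ℕ) (ρ : RF n K →ₐ[K] RF n K) (𝔭 : Ideal (Pl n K)) (L : Type) [Field L]
    [Algebra (CR 𝔭) L] [Algebra K L] (ρb : L →ₐ[K] L), Rst ρ 𝔭 L ρb → ∀ m : ℕ, Rst (ρ ^ m) 𝔭 L (ρb ^ m)

/-- (G2) Upper bound for the Hilbert function. PROOF (uses `StmtRk1`). Let `L = FractionRing (CR 𝔭)`, `α`, `r = #α = rk 𝔭` as in `StmtRk1`, `S = K[x̄_a : a ∈ α] ⊆ CR 𝔭`, a polynomial ring; `L` is finite over the field `F = Frac S` (algebraic, generated by the `x̄_i`). Let `w_1 = 1, …, w_δ ∈ L` be a basis of `L` over `F`. There are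
`q ∈ S`, `q ≠ 0`, and `e : ℕ` with `q x̄_i w_l = ∑ s, a_(i l s) w_s` for all `i : Fin n`, `l`, where `a_(i l s), q` are images of polynomials of degree `≤ e` in the variables `X a`, `a ∈ α`. So for `B_j` = image of the polynomials in the `X a` of degree `≤ j`:
`q ^ j * (image of a monomial of degree ≤ j) ∈ ∑ s, B_(e j) w_s` (induction on `j`; multiply by `q` as often as necessary). So multiplication by `q ^ j` embeds the image of `Vj 𝔭 j` in `L` (`CR 𝔭 → L` is injective) into `∑ s, B_(e j) w_s`, of dimension `≤ δ * dim B_(e j) ≤ δ * (e j + 1) ^ r ≤ δ (e + 1) ^ r (j + 1) ^ r`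
(the number of monomials of degree `≤ m` in `r` variables is `≤ (m + 1) ^ r`: the exponents are functions `α → {0, …, m}`). -/
def StmtG2 : Prop :=
  ∀ (K : Type) [Field K] (n : ℕ) (𝔭 : Ideal (Pl n K)) [𝔭.IsPrime], ∃ C : ℕ, ∀ j : ℕ,
    Module.finrank K (Vj 𝔭 j) ≤ C * (j + 1) ^ rk 𝔭

/-- (G3) PROOF. For every `i` there are `E i, N i` with `E i ∉ 𝔭`, `fr (N i) = fr (E i) * ρ (gen n K i)` (`Pres` for `X i`). So `E i * F i.succ = N i * F 0` in `Pl n K`, and `F 0` divides `(∏ i, E i) * F j` for all `j : Fin (n + 1)` (also for `j = 0`). The `F j` have no common factor, so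
`F 0 ∣ ∏ i, E i` (factorial ring: `F 0 / gcd (F 0, ∏ E)` divides all `F j`: let `g` be a gcd of `F 0` and `W = ∏ E i`, `F 0 = g * a`, `W = g * b` with `a`, `b` relatively prime; `a ∣ b * F j`, so `a ∣ F j` for all `j`, so `a` is a unit). `∏ E i ∉ 𝔭`, so `F 0 ∉ 𝔭`. -/
def StmtG3 : Prop :=
  ∀ (K : Type) [Field K] (n : ℕ) (ρ : RF n K →ₐ[K] RF n K) (𝔭 : Ideal (Pl n K)) [𝔭.IsPrime], Pres ρ 𝔭 →
    ∀ F : Fin (n + 1) → Pl n K, Rep (fun i => ρ (gen n K i)) F → F 0 ∉ 𝔭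

/-- (G4) Growth of the degrees on a subvariety of dimension `r = rk 𝔭`. PROOF (uses `StmtG1`, `StmtG2`, `StmtRk1`). Let `α` be as in `StmtRk1`, `y_a = x̄_a ∈ L` for `a ∈ α` (algebraically independent over `K` also in `L`). `L` is finite over `F' = ρb.fieldRange`, `Δ = [L : F']`, and is generated by the `x̄_i` as a ring over `F'`
(finite extension: the subalgebra generated by the `x̄_i` is a field and contains `CR 𝔭`), so the monomials in the `x̄_i` span `L` over `F'` and there are `Δ` monomials `w_1, …, w_Δ` which form a basis of `L` over `F'` (`exists_linearIndependent` in the span); let `e` bound their degrees. For `J : ℕ` the elements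
`F̄_0 ^ J * (∏ a, ρb (y_a) ^ (u a)) * w_l`, `u : α → ℕ`, `∑ u a ≤ J`, `1 ≤ l ≤ Δ`, of `L` are linearly independent over `K` (the monomials in the `ρb (y_a)` are `K`-independent elements of `F'`, the `w_l` are `F'`-independent, `F̄_0 ≠ 0`), and they are classes of polynomials of degree `≤ d J + e`
(`F̄_0 * ρb (y_a) = F̄_(a+1)`: the residue of `ρ (gen a) * fr (F 0) = fr (F a.succ)`; residues are unique). There are `≥ (J/r)^r`-many `u`; precisely: for `J = r J'` the `u : α → {0, …, J'}` all satisfy `∑ u ≤ J`, so there are at least `(J' + 1) ^ r` of them (for `r = 0` take `J = 0`). So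
`(J' + 1) ^ r * Δ ≤ dim Vj 𝔭 (d r J' + e) ≤ C₀ (d r J' + e + 1) ^ r` for all `J'`. Here `e` depends on `ρb` but `C₀` does not. Take `J' + 1 = e + 1 + …` large: for `J' ≥ e + 1`: `d r J' + e + 1 ≤ d r J' + J' ≤ (r + 1) d (J' + 1)`, so `Δ ≤ C₀ (r + 1) ^ r d ^ r`. `C = C₀ (r + 1) ^ r`. -/
def StmtG4 : Prop :=
  ∀ (K : Type) [Field K] (n : ℕ) (𝔭 : Ideal (Pl n K)) [𝔭.IsPrime] (L : Type) [Field L]
    [Algebra (CR 𝔭) L] [IsFractionRing (CR 𝔭) L] [Algebra K L] [IsScalarTower K (CR 𝔭) L],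
    ∃ C : ℕ, ∀ (ρ : RF n K →ₐ[K] RF n K) (ρb : L →ₐ[K] L), Rst ρ 𝔭 L ρb →
      ∀ (F : Fin (n + 1) → Pl n K) (d : ℕ), 1 ≤ d → Wk (fun i => ρ (gen n K i)) F → F 0 ∉ 𝔭 →
        (∀ i, (F i).totalDegree ≤ d) → Module.finrank ρb.fieldRange L ≤ C * d ^ rk 𝔭

/-- (G5) PROOF (uses `StmtG1`, `StmtG3`, `StmtG4`, `StmtRepE`, and that `Pres ρ 𝔭` implies `Pres (ρ ^ m) 𝔭`: if `fr N = fr E * ρ (fr H)` with `E ∉ 𝔭` and `N', E'` are as in `Pres (ρ ^ m)` for `N`, `N'', E''` for `E` then `(ρ ^ (m+1)) (fr H) = ρ ^ m (ρ (fr H)) = (fr N' / fr E') / (fr N'' / fr E'')`, `N'' ∉ 𝔭`;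
take `E' * N''` and `N' * E''`). `C` from `StmtG4`. For every `m` let `F` be a representative of `it ρ m` with degrees `≤ dg (it ρ m)`; `F 0 ∉ 𝔭` by `StmtG3` for `ρ ^ m`; `StmtG4` for `ρ ^ m`, `ρb ^ m` with `d = max 1 (dg (it ρ m))`. `dg (it ρ m) ≥ 1`? It is not needed if we use `max`; state the bound with `dg + 1 ≥ max 1 dg`. -/
def StmtG5 : Prop :=
  ∀ (K : Type) [Field K] (n : ℕ) (ρ : RF n K →ₐ[K] RF n K) (𝔭 : Ideal (Pl n K)) [𝔭.IsPrime], Pres ρ 𝔭 →
    ∀ (L : Type) [Field L] [Algebra (CR 𝔭) L] [IsFractionRing (CR 𝔭) L] [Algebra K L]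
      [IsScalarTower K (CR 𝔭) L] (ρb : L →ₐ[K] L), Rst ρ 𝔭 L ρb →
    ∃ C : ℕ, ∀ m : ℕ, Module.finrank ρb.fieldRange L ^ m ≤ C * (dg (it ρ m) + 1) ^ rk 𝔭

/-! ## Core -/

/-- The growth hypothesis: the topological degree is larger than the growth on subvarieties of dimension `1 ≤ r ≤ n - 2`. -/
def Big {n : ℕ} {K : Type} [Field K] (σ : RF n K →ₐ[K] RF n K) (M : ℕ) : Prop :=
  ∀ r : ℕ, 1 ≤ r → r + 2 ≤ n → ∀ C : ℕ, ∃ m : ℕ, C * (dg (it σ (M * m)) + 1) ^ r < tp σ ^ (M * m)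

/-- (C) Core. PROOF (uses all the statements above except `StmtJac`; `StmtRk2`, `StmtRk3`, `StmtTan`, `StmtIrr`, `StmtResF`, `StmtDegP`, `StmtCan`, `StmtNoIPow`, `StmtTpPow`, `StmtVal`, `StmtRepE`, `StmtPres`, `StmtMove`, `StmtPrim`, `StmtLow`, `StmtG1`, `StmtG5`, and `jac ≠ 0` = `StmtJac` for the representative of `ρ`). Let `ρ = σ ^ M`, `T = tp ρ = tp σ ^ M ≥ 1`, `NoI ρ`, `g` with `Of g ρ` (`StmtRepE`),
`F, u, v` from `StmtPrim` for `ρ`, `G₁` from `StmtMove`, `Γ` from `StmtCan` for `B = dn g * jac g` (`≠ 0`: `Of` gives `g.den i ≠ 0`; `StmtJac`). `G = v * G₁ * Γ`. Now let `z` etc. be given, `𝔭 = van z M`, `M = N * N'`. Suppose `𝔭 ≠ ⊥`. `𝔭` is prime (`prime_of_cl` in `ZDO/Prm.lean`; `1 ∉ 𝔭`). `Val ρ (z (M t)) (z (M (t+1)))` by `StmtVal`, so `Pres ρ 𝔭` (`StmtPres`).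
`𝔭` vanishes at `z 0`. `L = FractionRing (CR 𝔭)`, `ρb` from `StmtResF`. `Grd 𝔭 (z 0) (n - rk 𝔭)` (`StmtTan`), so the image of `F` in `L[Y]` is irreducible (`StmtIrr`). `v(z 0) ≠ 0`, so `v ∉ 𝔭`; `StmtLow`, `StmtG1`: `T ≤ [L : ρb L]`. `rk 𝔭 ≠ 0`: otherwise by `StmtRk3` (a) the polynomials `X i - C (z 0 i)` are in `𝔭`, so `z M = z 0`, but `G₁(z 0) ≠ 0` and
`Val ρ (z 0) (z M)`. `rk 𝔭 < n` by `StmtRk2` (`⊥ < 𝔭`). If `rk 𝔭 + 2 ≤ n`: `StmtG5` gives `C` with `T ^ m ≤ [L : ρb L] ^ m ≤ C * (dg (it ρ m) + 1) ^ rk 𝔭` for all `m`, `it ρ m = it σ (M * m)` (`pow_mul`), `T ^ m = tp σ ^ (M * m)`: a contradiction to `Big`. So `rk 𝔭 + 1 = n`, `𝔭 = span {P}` (`StmtRk3` (b); substitute), `StmtDegP` gives `a, b`, so `P ∣ Γ` by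
the choice of `Γ`, but `P(z 0) = 0` and `Γ(z 0) ≠ 0`. -/
def StmtCore : Prop :=
  ∀ (K : Type) [Field K] [CharZero K] (n : ℕ) (f : RM K n) (σ : RF n K →ₐ[K] RF n K), 1 ≤ n → Of f σ →
    1 ≤ tp σ → NoI σ → ∀ M : ℕ, 1 ≤ M → Big σ M →
    ∃ (F : Polynomial (Pl n K)) (G : Pl n K), F.Monic ∧
      Irreducible (F.map (algebraMap (Pl n K) (RF n K))) ∧ G ≠ 0 ∧
      ∀ (N N' p p' : ℕ), p.Prime → p'.Prime → p ≠ p' → N * N' = M →
      ∀ z : ℕ → Fin n → K, f.Orb z → (∀ m, MvPolynomial.eval (z m) (jac f) ≠ 0) →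
        Pool.Agent.ZDO.ClN N p z → Pool.Agent.ZDO.ClN N' p' z →
        Irreducible (F.map (MvPolynomial.eval (z 0))) → MvPolynomial.eval (z 0) G ≠ 0 → van z M = ⊥

end Pool.Agent.Lib.MP_16285c_agN
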