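import Pool.Agent.Lib.MP_16285c_agN.SpecF

/-!
# Core and final assembly, independent of the growth estimate

`NoFull σ M`: no preserved subvariety of dimension `1 ≤ r ≤ n - 2` has full degree. The last assembly plugs in either `Big` (`StmtG5`) or the version with
`λ_r` (package of helper47).
-/

set_option autoImplicit false

namespace Pool.Agent.Lib.MP_16285c_agN

open Pool.Agent.Lib.MP_16285c_ag

/-- No subvariety of dimension `r`, `1 ≤ r ≤ n - 2`, which is preserved by `f ^ M`, has full degree. -/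
def NoFull {n : ℕ} {K : Type} [Field K] (σ : RF n K →ₐ[K] RF n K) (M : ℕ) : Prop :=
  ∀ (𝔭 : Ideal (Pl n K)) [𝔭.IsPrime], Pres (σ ^ M) 𝔭 → 1 ≤ rk 𝔭 → rk 𝔭 + 2 ≤ n →
    ∀ (L : Type) [Field L] [Algebra (CR 𝔭) L] [IsFractionRing (CR 𝔭) L] [Algebra K L]
      [IsScalarTower K (CR 𝔭) L] (ρb : L →ₐ[K] L), Rst (σ ^ M) 𝔭 L ρb →
      Module.finrank ρb.fieldRange L < tp σ ^ M

/-- (N1) PROOF (uses `StmtG5`). Suppose `tp σ ^ M ≤ [L : ρb L] =: Δ`, `r = rk 𝔭`. `StmtG5` gives `C` with `Δ ^ m ≤ C * (dg (it (σ ^ M) m) + 1) ^ r` for all `m`, `it (σ ^ M) m = it σ (M * m)`. So `tp σ ^ (M * m) ≤ Δ ^ m ≤ C * (dg (it σ (M * m)) + 1) ^ r` for all `m`,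
a contradiction to `Big` for `r, C`. -/
def StmtNF : Prop :=
  ∀ (K : Type) [Field K] (n : ℕ) (σ : RF n K →ₐ[K] RF n K) (M : ℕ), Big σ M → NoFull σ M

/-- (N2) Core, as `StmtCore`, with `NoFull σ M` in place of `Big σ M`. -/
def StmtCoreN : Prop :=
  ∀ (K : Type) [Field K] [CharZero K] (n : ℕ) (f : RM K n) (σ : RF n K →ₐ[K] RF n K), 1 ≤ n → Of f σ →
    1 ≤ tp σ → NoI σ → ∀ M : ℕ, 1 ≤ M → NoFull σ M →
    ∃ (F : Polynomial (Pl n K)) (G : Pl n K), F.Monic ∧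
      Irreducible (F.map (algebraMap (Pl n K) (RF n K))) ∧ G ≠ 0 ∧
      ∀ (N N' p p' : ℕ), p.Prime → p'.Prime → p ≠ p' → N * N' = M →
      ∀ z : ℕ → Fin n → K, f.Orb z → (∀ m, MvPolynomial.eval (z m) (jac f) ≠ 0) →
        Pool.Agent.ZDO.ClN N p z → Pool.Agent.ZDO.ClN N' p' z →
        Irreducible (F.map (MvPolynomial.eval (z 0))) → MvPolynomial.eval (z 0) G ≠ 0 → van z M = ⊥

/-- (N3) Final assembly, as `StmtFinN`, with the hypothesis `NoFull` over all fields of definition over which the topological degree is the same. (In the proof of `StmtFinN`: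
`StmtCoreN` in place of `StmtCore`; `StmtDgDesc` is not needed.) -/
def StmtFinNN : Prop :=
  ∀ (k : Type) [Field k] [IsAlgClosed k] [CharZero k] (n : ℕ) (σ : RF n k →ₐ[k] RF n k), 1 ≤ n →
    1 ≤ tp σ → NoI σ →
    (∀ M, 1 ≤ M → ∀ (K : Type) [Field K] [CharZero K] [Algebra K k] (σK : RF n K →ₐ[K] RF n K),
      Cmp σK σ → tp σK = tp σ → NoFull σK M) →
    ∀ f : RM k n, Of f σ → ∀ b : Pl n k, b ≠ 0 →
    ∃ x : ℕ → Fin n → k, f.Orb x ∧ (∀ m, MvPolynomial.eval (x m) b ≠ 0) ∧ Dns x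

end Pool.Agent.Lib.MP_16285c_agN
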