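import Pool.Agent.Lib.MP_16285c_agN.Defs

/-!
# Dimension, smooth points, arcs, irreducibility at a smooth point: statements

Notation: see `Defs.lean` (please read it first). `A = Pl n K`. `rk 𝔭` is the transcendence degree of `A / 𝔭` over `K` (a natural
number: the dimension of `V(𝔭)`). Every lemma is a `Prop` with its complete proof in the docstring; the files proving them are
independent: used statements are hypotheses. Useful Mathlib files: `RingTheory/AlgebraicIndependent/TranscendenceBasis.lean`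
(`trdeg_lt_aleph0_of_finiteType`, `IsTranscendenceBasis.cardinalMk_eq_trdeg`, `trdeg_le_cardinalMk`, `exists_isTranscendenceBasis_subset`, …),
`RingTheory/AlgebraicIndependent/Basic.lean` (`AlgebraicIndependent.cardinalMk_le_trdeg`, `trdeg_le_of_surjective`).
-/

set_option autoImplicit false

namespace Pool.Agent.Lib.MP_16285c_agN

open Pool.Agent.Lib.MP_16285c_ag

/-! ## RK. Dimension -/

/-- (RK1) Coordinates form a transcendence basis. PROOF. `CR 𝔭` is a domain of finite type over `K`, generated by the classes of the variables; some set of the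
classes of variables is a transcendence basis (`exists_isTranscendenceBasis_subset` or the like, or `exists_isTranscendenceBasis_between`, applied to the range of `i ↦ cl 𝔭 (X i)`, over the adjoin of which
everything is algebraic); choose for every element of it one index `i`; its cardinality is `trdeg` (`IsTranscendenceBasis.cardinalMk_eq_trdeg`). -/
def StmtRk1 : Prop :=
  ∀ (K : Type) [Field K] (n : ℕ) (𝔭 : Ideal (Pl n K)) [𝔭.IsPrime], ∃ α : Finset (Fin n),
    α.card = rk 𝔭 ∧
    IsTranscendenceBasis K (fun a : α => (cl 𝔭 (MvPolynomial.X (a : Fin n)) : CR 𝔭))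

/-- (RK2) PROOF. (a) `rk ⊥ = n`: `A ⧸ ⊥ ≃ₐ[K] A` (`AlgEquiv.trdeg_eq`, `MvPolynomial.trdeg_of_isDomain`). `rk 𝔭 ≤ n`: surjection from `A` (`trdeg_le_of_surjective`; the cardinals are finite).
(b) An algebraically independent family in `CR 𝔭` has at most `rk 𝔭` members (`AlgebraicIndependent.cardinalMk_le_trdeg`,
`trdeg_lt_aleph0_of_finiteType`). (c) `𝔭 < 𝔮` implies `rk 𝔮 < rk 𝔭`: let `y : Fin r → CR 𝔮`, `r = rk 𝔮`, be algebraically independent (a transcendence basis), `y'` a lift of `y` to `CR 𝔭`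
(`Ideal.Quotient.factor` is surjective), and `b ∈ CR 𝔭` a nonzero element which maps to `0` in `CR 𝔮`. CLAIM: `(b, y')` (`Fin.cons b y'`) is algebraically independent, so `r + 1 ≤ rk 𝔭` by (b). Suppose
`G(b, y') = 0`, `G ≠ 0` in `K[T, Y_1, …, Y_r]`. Write `G = T ^ e * G₁` with `T ∤ G₁` (work in `(MvPolynomial (Fin r) K)[T]`, `MvPolynomial.finSuccEquiv`; `e` = order at `T = 0`). `b ^ e * G₁(b, y') = 0` so
`G₁(b, y') = 0` (domain), and in `CR 𝔮`: `G₁(0, y) = 0`, `G₁(0, Y) ≠ 0`, a contradiction to the independence of `y`. -/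
def StmtRk2 : Prop :=
  (∀ (K : Type) [Field K] (n : ℕ), rk (⊥ : Ideal (Pl n K)) = n) ∧
  (∀ (K : Type) [Field K] (n : ℕ) (𝔭 : Ideal (Pl n K)) [𝔭.IsPrime], rk 𝔭 ≤ n) ∧
  (∀ (K : Type) [Field K] (n : ℕ) (𝔭 : Ideal (Pl n K)) [𝔭.IsPrime] (m : ℕ) (y : Fin m → CR 𝔭),
    AlgebraicIndependent K y → m ≤ rk 𝔭) ∧
  (∀ (K : Type) [Field K] (n : ℕ) (𝔭 𝔮 : Ideal (Pl n K)) [𝔭.IsPrime] [𝔮.IsPrime], 𝔭 < 𝔮 →
    rk 𝔮 < rk 𝔭)

/-- (RK3) PROOF (uses `StmtRk2`). (a) `rk 𝔭 = 0` and `𝔭` contained in the maximal ideal `𝔪` of the point `x`: if `𝔭 < 𝔪` then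
`rk 𝔪 < rk 𝔭 = 0`. So `𝔭 = 𝔪` (`𝔪` is prime: kernel of `eval x`). (b) If `rk 𝔭 + 1 = n` then `𝔭 ≠ ⊥` (`rk ⊥ = n`); a nonzero element of `𝔭` has an irreducible factor `P ∈ 𝔭` (factorial ring, `𝔭` prime;
`WfDvdMonoid` induction, or `exists_irr` in `Lib/MP_16285c_agZ`), `Ideal.span {P}` is prime, not `⊥`, so `⊥ < span {P}` gives `rk (span {P}) < n`, and if `span {P} < 𝔭` then `rk 𝔭 < rk (span {P}) < n`,
a contradiction. So `𝔭 = span {P}`. (c) the converse of (b), an inequality: `rk (span {P}) < n` by (c) of `StmtRk2` from `⊥`; `n ≤ rk (span {P}) + 1`: some variable `X i` occurs in `P` (`P` is irreducible, so not a constant: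
`i ∈ P.vars`). The classes of the other variables are algebraically independent: a relation is a nonzero multiple of `P` in which `X i` does
not occur, but `degreeOf i` is additive on products of nonzero polynomials over a field. -/
def StmtRk3 : Prop :=
  (∀ (K : Type) [Field K] (n : ℕ) (𝔭 : Ideal (Pl n K)) [𝔭.IsPrime] (x : Fin n → K),
    (∀ G ∈ 𝔭, MvPolynomial.eval x G = 0) → rk 𝔭 = 0 →
    ∀ G : Pl n K, MvPolynomial.eval x G = 0 → G ∈ 𝔭) ∧
  (∀ (K : Type) [Field K] (n : ℕ) (𝔭 : Ideal (Pl n K)) [𝔭.IsPrime], rk 𝔭 + 1 = n →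
    ∃ P : Pl n K, Irreducible P ∧ 𝔭 = Ideal.span {P}) ∧
  (∀ (K : Type) [Field K] (n : ℕ) (P : Pl n K), Irreducible P → rk (Ideal.span {P}) + 1 = n)

/-- (RK4) The Jacobian bound for the dimension. PROOF. Let `L` be the field of fractions of `CR 𝔭`, `x̄_i ∈ L` the classes of the variables. The `c` rows
`(∂_i P_j)(x̄) ∈ L^n` are linearly independent (a `c × c` minor is not zero at the point `x`, so it is not in `𝔭`, as `𝔭` vanishes at `x`; so its class is not
zero). Choose `β : Fin c → Fin n` injective with `det (∂_{β l} P_j)(x̄) ≠ 0` and let `α` be the complement of the range, `F = K(x̄_a : a ∈ α) ⊆ L` (`IntermediateField.adjoin`). `Ω[L⁄F] = 0`: it is generated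
by the `D x̄_i` (`L` is generated by them as a field: `KaehlerDifferential` of a localisation / `KaehlerDifferential.span_range_derivation`, every element of `L` is a quotient of polynomials in the `x̄_i`), `D x̄_a = 0`
for `a ∈ α`, and `∑ l, (∂_{β l} P_j)(x̄) D x̄_{β l} = 0` for all `j` (apply `D` to `P_j(x̄) = 0`), so `D x̄_{β l} = 0`. So `L / F` is formally unramified and essentially of finite
type, hence algebraic (`Algebra.FormallyUnramified.isSeparable`, `Mathlib/RingTheory/Unramified/Field.lean`). So `trdeg K L ≤ #α = n - c` and `trdeg K (CR 𝔭) ≤ trdeg K L`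
(`trdeg_le_of_injective`). (Instead of `Ω` one may show that every `F`-derivation `L → L` is zero.) -/
def StmtRk4 : Prop :=
  ∀ (K : Type) [Field K] [CharZero K] (n : ℕ) (𝔭 : Ideal (Pl n K)) [𝔭.IsPrime] (x : Fin n → K) (c : ℕ),
    (∀ G ∈ 𝔭, MvPolynomial.eval x G = 0) → Grd 𝔭 x c → rk 𝔭 + c ≤ n

/-! ## TAN. The point `z 0` is a smooth point of the closure of the orbit -/

/-- The tangent space at `x` of the ideal `I`. -/
def Tg {n : ℕ} {K : Type} [Field K] (I : Ideal (Pl n K)) (x : Fin n → K) : Submodule K (Fin n → K) where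
  carrier := {v | ∀ G ∈ I, ∑ i, v i * grad G x i = 0}
  add_mem' := by
    intro a b ha hb G hG
    simp only [Pi.add_apply, add_mul, Finset.sum_add_distrib, ha G hG, hb G hG, add_zero]
  zero_mem' := by
    intro G _
    simp
  smul_mem' := by
    intro c a ha G hG
    simp only [Pi.smul_apply, smul_eq_mul, mul_assoc, ← Finset.mul_sum, ha G hG, mul_zero]

/-- (T1) One step. `van (fun t => z (t + m)) M` is the ideal of the points `z (m + M t)`. PROOF. Let `I_m` be this ideal, `x = z m`, `x' = z (m+1)`, `h i = (f.den i) x ≠ 0`. The matrix `J i l = h i ^ (-2) * eval x (wj f i l)` (the derivative of `f` at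
`x`) is invertible: `det J = (∏ h i ^ (-2)) * eval x (jac f)` (`Matrix.det_mul_column`; compare `closed_place` in `ZDO/Clo.lean`). CLAIM: `v ∈ Tg I_m x` implies `J v ∈ Tg I_(m+1) x'`; then `J` maps the first space injectively into the
second one. Let `G ∈ I_(m+1)` of total degree `≤ e`, `D = ∏ i, f.den i`. There is `N : Pl n K` with: `N(y) = D(y) ^ e * G(y')` for all `y, y'` with `f.Next y y'` and, more precisely, the identity of gradients: for
`y, y'` with `f.Next y y'`: `grad N y l = ∑ i, D(y) ^ e * grad G y' i * (h i ^ (-2) * eval y (wj f i l)) + e * D(y) ^ (e-1) * grad D y l * G(y')`. (Prove the existence of `(e, N)` with these two properties by induction on `G`, `MvPolynomial.induction_on`: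
constants `e = 0`, `N = C c`; sums: multiply by powers of `D` to get the same `e` (if `(e, N)` is good for `G` so is `(e+1, N * D)`); products with `X i`: `e + 1`, `N * f.num i * ∏ l ≠ i, f.den l`. Another way: work with the
quotient rule in the field `RF n K`, or let `N` be arbitrary and compare. A third way: dual numbers: for `v` fixed, the `K`-algebra homomorphism `A → K[ε]`, `X i ↦ y i + ε v i` (`TrivSqZeroExt` or `DualNumber`), maps `G` to `G(y) + ε ∑ v i grad G y i`; `f.den i` maps
to a unit, and `f` maps the point `y + ε v` to `y' + ε J v`; so `G ∘ f` evaluated there is `G(y' + ε J v)`.) Then `N` vanishes at all `z (m + M t)`, since `G` vanishes at `z (m + 1 + M t)`. So `∑ v l * grad N x l = 0`, where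
`G(x') = 0`: `D(x) ^ e * ∑ i (J v) i * grad G x' i = 0`. -/
def StmtT1 : Prop :=
  ∀ (K : Type) [Field K] (n : ℕ) (f : RM K n) (z : ℕ → Fin n → K) (M : ℕ), f.Orb z →
    (∀ m, MvPolynomial.eval (z m) (jac f) ≠ 0) → ∀ m : ℕ,
    Module.finrank K (Tg (van (fun t => z (t + m)) M) (z m)) ≤
      Module.finrank K (Tg (van (fun t => z (t + (m + 1))) M) (z (m + 1)))

/-- (T2) Independent gradients at general points. PROOF (uses `StmtRk1`). Let `α` be as in `StmtRk1`, `#α = rk 𝔭`. For `j ∉ α` the class of `X j` is algebraic over the classes of the `X a`, `a ∈ α`: there is a nonzero polynomial `P_j` in `𝔭` which involves only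
the variables in `α ∪ {j}` (as the basis family is algebraically independent and `Fin.cons`/`Option` family is not: `IsTranscendenceBasis` is maximal; rename the relation into the variables of `A`). Take it with minimal `degreeOf j`
(`Nat.find`). `degreeOf j P_j ≥ 1` since otherwise `P_j` is a nonzero relation between the `X a`, `a ∈ α`. Then `pderiv j P_j` is not zero (characteristic zero), involves only the variables in `α ∪ {j}`, and has smaller `degreeOf j`, so it is not in `𝔭`.
`D = ∏ j ∉ α, pderiv j P_j ∉ 𝔭` (prime). If `D(x) ≠ 0` then the gradients of the `P_j`, `j ∉ α`, are linearly independent: for `j, l ∉ α` the matrix `grad (P_j) x l` is diagonal (`X l` does not occur in `P_j` for `l ≠ j`) with nonzero diagonal. There are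
`n - rk 𝔭` of them: number them by `Fin (n - rk 𝔭)`. -/
def StmtT2 : Prop :=
  ∀ (K : Type) [Field K] [CharZero K] (n : ℕ) (𝔭 : Ideal (Pl n K)) [𝔭.IsPrime],
    ∃ (P : Fin (n - rk 𝔭) → Pl n K) (D : Pl n K), (∀ j, P j ∈ 𝔭) ∧ D ∉ 𝔭 ∧
      ∀ x : Fin n → K, MvPolynomial.eval x D ≠ 0 → LinearIndependent K fun j => grad (P j) x

/-- (T3) PROOF (uses `StmtT1`, `StmtT2`). Let `𝔭 = van z M` and `P, D` as in `StmtT2`. `D ∉ 𝔭`: there is `t` with `D(z (M t)) ≠ 0`. By `StmtT1`, iterated `M t` times, `dim (Tg 𝔭 (z 0)) ≤ dim (Tg I (z (M t)))`, `I = van (fun s => z (s + M t)) M`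
(for `m = 0`: `(fun t => z (t + 0)) = z`). `𝔭 ≤ I` (`z (M * s + M * t) = z (M * (s + t))`), so the `P j` are in `I`, and `Tg I (z (M t))` is contained in the orthogonal of `n - rk 𝔭` linearly independent vectors: its dimension is
`≤ n - (n - rk 𝔭)` (rank-nullity for the linear map `v ↦ (∑ i, v i * grad (P j) (z (M t)) i)_j`, which is surjective because the rows are independent). So `dim (Tg 𝔭 (z 0)) ≤ rk 𝔭` (as `rk 𝔭 ≤ n`: if `n < rk 𝔭` were true the subtraction is `0`; `Grd` with `c = 0` is trivial). `Tg 𝔭 (z 0)` is the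
orthogonal of the span `W` of all `grad G (z 0)`, `G ∈ 𝔭`, so `dim W = n - dim Tg ≥ n - rk 𝔭`, and `W` contains `n - rk 𝔭` linearly independent vectors of the form `grad G (z 0)` (a spanning set contains a basis:
`exists_linearIndependent`, `exists_linearIndependent'`; or the set `{grad G (z 0) | G ∈ 𝔭}` is itself a subspace). -/
def StmtTan : Prop :=
  ∀ (K : Type) [Field K] [CharZero K] (n : ℕ) (f : RM K n) (z : ℕ → Fin n → K) (M : ℕ)
    [(van z M).IsPrime], f.Orb z → (∀ m, MvPolynomial.eval (z m) (jac f) ≠ 0) →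
    Grd (van z M) (z 0) (n - rk (van z M))

/-! ## ARC. Arcs through a smooth point -/

/-- (A1) Coordinates adapted to `c` independent gradients at the point `x`. PROOF. The `c × n` matrix `grad (P j) x i` has rank `c`, so it has `c` linearly independent columns, i.e. an injective `β : Fin c → Fin n` such that the square matrix
`grad (P j) x (β l)` is invertible (`Matrix.rank`, `exists_linearIndependent` for the columns; row rank = column rank `Matrix.rank_transpose`). Multiplying the vector `(P j)` by the inverse matrix (constants of `K`) we get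
`P' j = ∑ l, C (B j l) * P l ∈ 𝔭` with `grad (P' j) x (β l) = if l = j then 1 else 0`. -/
def StmtA1 : Prop :=
  ∀ (K : Type) [Field K] (n c : ℕ) (𝔭 : Ideal (Pl n K)) (x : Fin n → K), Grd 𝔭 x c →
    ∃ (P : Fin c → Pl n K) (β : Fin c → Fin n), Function.Injective β ∧ (∀ j, P j ∈ 𝔭) ∧
      ∀ j l, grad (P j) x (β l) = if l = j then 1 else 0

/-- (A2) The universal formal arc (multivariable Hensel). `R = MvPolynomial (Fin n) K` (the variables `X a`, `a ∉ range β`, are the parameters). PROOF. Put `Y_a = C (C (x a)) + X a * s` for `a ∉ range β`. Find power series `Y_(β l) ∈ R[[s]]` with constant term `x (β l)` such that `P j (Y) = 0` for all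
`j`. Construct the coefficients recursively: given `Y^(m)` (all the coordinates `β l` known modulo `s ^ m`, `m ≥ 1`) with `P j (Y^(m)) ≡ 0 mod s ^ m` put `Y^(m+1)_(β l) = Y^(m)_(β l) + e_l s ^ m`; by Taylor's formula
`P j (Y + s ^ m e) ≡ P j (Y) + s ^ m * ∑ l, (grad (P j) x (β l)) e_l mod s ^ (m+1)` (`2 m ≥ m + 1`, and `(∂_i P j)(Y) ≡ grad (P j) x i mod s`), which is `coefficient of s ^ m of P j (Y^(m))` plus `e_j`: so `e_j = -` this coefficient. The limit (coefficient `m`
of `Y_(β l)` = `e_l` of step `m`) satisfies `P j (Y) ≡ 0 mod s ^ m` for all `m` (`X ^ m ∣` on `PowerSeries`; the value of a polynomial modulo `s ^ m` depends only on the arguments modulo `s ^ m`), so it is `0`. `γ = MvPolynomial.aeval Y` over `K`. -/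
def StmtA2 : Prop :=
  ∀ (K : Type) [Field K] (n c : ℕ) (P : Fin c → Pl n K) (β : Fin c → Fin n) (x : Fin n → K),
    Function.Injective β → (∀ j, MvPolynomial.eval x (P j) = 0) →
    (∀ j l, grad (P j) x (β l) = if l = j then 1 else 0) →
    ∃ γ : Pl n K →ₐ[K] PowerSeries (MvPolynomial (Fin n) K),
      (∀ j, γ (P j) = 0) ∧
      (∀ a, a ∉ Set.range β → γ (MvPolynomial.X a) =
        PowerSeries.C (MvPolynomial.C (x a)) + PowerSeries.C (MvPolynomial.X a) * PowerSeries.X) ∧
      ∀ G, PowerSeries.constantCoeff (γ G) = MvPolynomial.C (MvPolynomial.eval x G)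

/-- (A3) Elimination modulo powers of the maximal ideal. `𝔪 = ker (eval x)`. PROOF. Descending induction on `j ≤ m`: `𝔪 ^ j ⊆ S + span (range P) + 𝔪 ^ m`, where `S` is the subalgebra `MvPolynomial.supported K (range β)ᶜ` of the
polynomials which involve only variables `X a`, `a ∉ range β`. `j = m` is trivial; `j = 0` is the claim (`𝔪 ^ 0 = ⊤`). Put `y i = X i - C (x i) ∈ 𝔪`. For `a ∉ range β`: `y a ∈ S`. For `i = β l`: `P l = ∑ i, C (grad (P l) x i) * y i + q` with `q ∈ 𝔪 ^ 2` (Taylor at `x`, `P l(x) = 0`), so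
`y (β l) = P l - ∑ a ∉ range β, C (grad (P l) x a) * y a - q ∈ S_1 + span (range P) + 𝔪 ^ 2`, where `S_1` = linear combinations of the `y a`. `𝔪 ^ j` is generated as an ideal by the products of `j` of the `y i` (`𝔪 = span (range y)`), and `A = K + 𝔪`; so every element of `𝔪 ^ j` is congruent
modulo `𝔪 ^ (j+1)` to a `K`-linear combination of products of `j` of the `y i`, and such a product is congruent modulo `span (range P) + 𝔪 ^ (j+1)` to a product of `j` elements of `S` (replace the factors one after the other: `y (β l) = s + p + q` with `s ∈ S ∩ 𝔪`, `p ∈ span (range P)`, `q ∈ 𝔪 ^ 2`).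
Use the induction hypothesis for `𝔪 ^ (j+1)`. -/
def StmtA3 : Prop :=
  ∀ (K : Type) [Field K] (n c : ℕ) (P : Fin c → Pl n K) (β : Fin c → Fin n) (x : Fin n → K),
    Function.Injective β → (∀ j, MvPolynomial.eval x (P j) = 0) →
    (∀ j l, grad (P j) x (β l) = if l = j then 1 else 0) →
    ∀ (m : ℕ) (G : Pl n K), ∃ g ∈ MvPolynomial.supported K (Set.range β)ᶜ,
      G - g ∈ Ideal.span (Set.range P) ⊔ RingHom.ker (MvPolynomial.eval x) ^ m

/-- (A4) The kernel of the arc. PROOF (uses `StmtA3`). Let `γ G = 0`. Fix `m`. By `StmtA3` `G ≡ g` modulo `span (range P) ⊔ 𝔪 ^ m`, `g` involving only the variables `X a`, `a ∉ range β`. `γ` kills `span (range P)` and maps `𝔪` into `(s)` (last property of `γ`), so `γ g ∈ (s ^ m)`. But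
`γ g = g(x + X s)` (the polynomial `g` with `X a ↦ x a + X a * s`), so `g` is in `𝔪 ^ m`: write `g = ∑ c_u ∏ (X a - x a) ^ (u a)` (expansion around `x`: translation by `x` is an automorphism of `A`, so we may argue for `x = 0`); then `γ g = ∑ c_u X ^ u s ^ |u|` and the coefficient of `s ^ j`
is the homogeneous part of degree `j`; it vanishes for `j < m`, so only `|u| ≥ m` occur. So `G ∈ span (range P) ⊔ 𝔪 ^ m` for all `m`. By Krull's theorem for the finite module `A ⧸ span (range P)` (`Ideal.mem_iInf_smul_pow_eq_bot_iff` in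
`Mathlib/RingTheory/Filtration.lean`) there is `r ∈ 𝔪` with `(1 - r) * G ∈ span (range P)`. -/
def StmtA4 : Prop :=
  ∀ (K : Type) [Field K] (n c : ℕ) (P : Fin c → Pl n K) (β : Fin c → Fin n) (x : Fin n → K),
    Function.Injective β → (∀ j, MvPolynomial.eval x (P j) = 0) →
    (∀ j l, grad (P j) x (β l) = if l = j then 1 else 0) →
    ∀ γ : Pl n K →ₐ[K] PowerSeries (MvPolynomial (Fin n) K), (∀ j, γ (P j) = 0) →
      (∀ a, a ∉ Set.range β → γ (MvPolynomial.X a) =
        PowerSeries.C (MvPolynomial.C (x a)) + PowerSeries.C (MvPolynomial.X a) * PowerSeries.X) →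
      (∀ G, PowerSeries.constantCoeff (γ G) = MvPolynomial.C (MvPolynomial.eval x G)) →
      ∀ G, γ G = 0 → ∃ u : Pl n K, MvPolynomial.eval x u ≠ 0 ∧ u * G ∈ Ideal.span (Set.range P)

/-- (A5) Arcs. PROOF (uses `StmtA1`, `StmtA2`, `StmtA4`, `StmtRk2`, `StmtRk4`). Let `c = n - rk 𝔭`, `P, β` from `StmtA1`, `γ` from `StmtA2` (`P j (x) = 0` as `P j ∈ 𝔭`). `𝔮 = RingHom.ker γ` is a prime ideal (`PowerSeries` over a domain is a domain). `𝔮 ≤ 𝔭`: if `γ G = 0` then
`u * G ∈ span (range P) ≤ 𝔭` with `u(x) ≠ 0`, so `u ∉ 𝔭`, so `G ∈ 𝔭`. `𝔮` vanishes at `x` (constant coefficient), `P j ∈ 𝔮`, and `Grd 𝔮 x c` (the `P j`; their gradients are independent by the `β` columns), so `rk 𝔮 + c ≤ n` by `StmtRk4`, `rk 𝔮 ≤ rk 𝔭` (`rk 𝔭 ≤ n`), so not `𝔮 < 𝔭`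
(`StmtRk2`): `𝔮 = 𝔭`. Given `d ∉ 𝔭`: `γ d ≠ 0`; some coefficient `(γ d).coeff j ∈ MvPolynomial (Fin n) K` is not zero, so it is not zero at some point `w : Fin n → K` (`K` infinite; `MvPolynomial.funext`). Compose `γ` with `PowerSeries.map (MvPolynomial.eval w)` (a `K`-algebra
homomorphism). -/
def StmtArc : Prop :=
  ∀ (K : Type) [Field K] [CharZero K] (n : ℕ) (𝔭 : Ideal (Pl n K)) [𝔭.IsPrime] (x : Fin n → K),
    (∀ G ∈ 𝔭, MvPolynomial.eval x G = 0) → Grd 𝔭 x (n - rk 𝔭) → ∀ d : Pl n K, d ∉ 𝔭 →
    ∃ γ : Pl n K →ₐ[K] PowerSeries K, (∀ G ∈ 𝔭, γ G = 0) ∧ γ d ≠ 0 ∧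
      ∀ G, PowerSeries.constantCoeff (γ G) = MvPolynomial.eval x G

/-! ## IRR. Irreducibility at a smooth point -/

/-- (I1) Factorisations over the field of fractions of `A / 𝔭`. PROOF. `FL` = image of `F` in `L[Y]`, monic of degree `natDegree F ≥ 1` (it is not a unit and not irreducible). So `FL = B * C` with `B, C` monic of positive degree (`Polynomial.Monic.irreducible_iff_natDegree'` or the like).
The coefficients of `B, C` are quotients of elements of `CR 𝔭`; let `d ∉ 𝔭` be a common denominator: `d * B`, `d * C` are images of `B', C' ∈ A[Y]` of the same degrees as `B`, `C` (`natDegree B' = natDegree B`, choose lifts coefficientwise) whose leading coefficients are `d`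
(lift the leading coefficient `d` by `d`). `d ^ 2 * F - B' * C'` has image `0` in `L[Y]`, so all its coefficients are in `𝔭`. -/
def StmtI1 : Prop :=
  ∀ (K : Type) [Field K] (n : ℕ) (𝔭 : Ideal (Pl n K)) [𝔭.IsPrime] (L : Type) [Field L]
    [Algebra (CR 𝔭) L] [IsFractionRing (CR 𝔭) L] (F : Polynomial (Pl n K)), F.Monic →
    1 ≤ F.natDegree → ¬ Irreducible (F.map ((algebraMap (CR 𝔭) L).comp (Ideal.Quotient.mk 𝔭))) →
    ∃ (d : Pl n K) (B C : Polynomial (Pl n K)), d ∉ 𝔭 ∧ 1 ≤ B.natDegree ∧ 1 ≤ C.natDegree ∧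
      B.natDegree + C.natDegree = F.natDegree ∧ B.leadingCoeff = d ∧ C.leadingCoeff = d ∧
      ∀ i, (Polynomial.C (d ^ 2) * F - B * C).coeff i ∈ 𝔭

/-- (I2) PROOF. Over the field `K((s))` (`LaurentSeries K`, or `FractionRing (PowerSeries K)`) `F = (B/δ) * (C/δ)` with monic factors; `F` is monic with coefficients in `K[[s]]`, which is integrally closed (a principal ideal domain / discrete valuation ring), so `B/δ`, `C/δ` have coefficients in
`K[[s]]`: `Polynomial.Monic` and `IsIntegrallyClosed`: `IsIntegrallyClosed.eq_map_mul_C_of_dvd` (a monic divisor over the field of fractions of a monic polynomial over an integrally closed domain comes from the domain, in `Mathlib/RingTheory/Polynomial/GaussLemma.lean`). Apply the constant coefficient: the image of `F` in `K[Y]` is a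
product of two monic polynomials of degrees `natDegree B, natDegree C ≥ 1`. -/
def StmtI2 : Prop :=
  ∀ (K : Type) [Field K] (F B C : Polynomial (PowerSeries K)) (δ : PowerSeries K), F.Monic → δ ≠ 0 →
    1 ≤ B.natDegree → 1 ≤ C.natDegree → B.leadingCoeff = δ → C.leadingCoeff = δ →
    Polynomial.C (δ ^ 2) * F = B * C → ¬ Irreducible (F.map (PowerSeries.constantCoeff (R := K)))

/-- (I3) Irreducibility at a smooth point. PROOF (uses `StmtArc`, `StmtI1`, `StmtI2`). `natDegree F ≥ 1` since `F(x, Y)` is irreducible. If the image in `L[Y]` is not irreducible take `d, B, C` from `StmtI1` and `γ` from `StmtArc` for `d`. Apply `γ` to the coefficients: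
`C (γ d ^ 2) * F.map γ = B.map γ * C.map γ` (the coefficients of the difference are killed), leading coefficients `γ d ≠ 0` and so the degrees are preserved. `StmtI2`: the image of `F.map γ` under the constant coefficient, which is `F.map (eval x)`, is not irreducible. -/
def StmtIrr : Prop :=
  ∀ (K : Type) [Field K] [CharZero K] (n : ℕ) (𝔭 : Ideal (Pl n K)) [𝔭.IsPrime] (x : Fin n → K),
    (∀ G ∈ 𝔭, MvPolynomial.eval x G = 0) → Grd 𝔭 x (n - rk 𝔭) →
    ∀ (L : Type) [Field L] [Algebra (CR 𝔭) L] [IsFractionRing (CR 𝔭) L] (F : Polynomial (Pl n K)),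
      F.Monic → Irreducible (F.map (MvPolynomial.eval x)) →
      Irreducible (F.map ((algebraMap (CR 𝔭) L).comp (Ideal.Quotient.mk 𝔭)))

end Pool.Agent.Lib.MP_16285c_agN
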